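import Pool.Agent.H913Z.Perc.Fin

/-! Open clusters and conditioning on a cluster. -/

namespace Pool.Agent.H913Z.Perc
open Finset

variable {V : Type*} (G : SimpleGraph V)

/-- `u = v`, or `u` and `v` are joined by an open path -/
def R (ω : Set V) : V → V → Prop :=
  Relation.ReflTransGen (fun a b => G.Adj a b ∧ a ∈ ω ∧ b ∈ ω)

/-- `u` is in `S` or joined to it -/
def Rs (ω S : Set V) (u : V) : Prop := ∃ s ∈ S, R G ω s u

/-- the open cluster of a set -/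
def O (S ω : Set V) : Set V := {v | v ∈ ω ∧ Rs G ω S v}

/-- the sites revealed by exploring the cluster `W` of `S` -/
def Bd (S W : Set V) : Set V := {v | v ∈ S ∨ v ∈ W ∨ ∃ w ∈ W, G.Adj w v}

variable {G}

theorem R.refl (ω : Set V) (u : V) : R G ω u u := Relation.ReflTransGen.refl

theorem R.trans {ω : Set V} {u v w : V} (h : R G ω u v) (h' : R G ω v w) : R G ω u w :=
  Relation.ReflTransGen.trans h h'

theorem R.tail {ω : Set V} {u v w : V} (h : R G ω u v) (a : G.Adj v w) (hv : v ∈ ω)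
    (hw : w ∈ ω) : R G ω u w := Relation.ReflTransGen.tail h ⟨a, hv, hw⟩

theorem R.symm {ω : Set V} {u v : V} (h : R G ω u v) : R G ω v u := by
  induction h with
  | refl => exact R.refl _ _
  | tail _ hs ih => exact Relation.ReflTransGen.head ⟨hs.1.symm, hs.2.2, hs.2.1⟩ ih

theorem R.mono {ω ω' : Set V} (hω : ω ⊆ ω') {u v : V} (h : R G ω u v) : R G ω' u v := by
  induction h with
  | refl => exact R.refl _ _
  | tail _ hs ih => exact ih.tail hs.1 (hω hs.2.1) (hω hs.2.2)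

theorem R.cases {ω : Set V} {u v : V} (h : R G ω u v) : u = v ∨ (u ∈ ω ∧ v ∈ ω) := by
  induction h with
  | refl => exact Or.inl rfl
  | tail _ hs ih =>
    rcases ih with e | e
    · exact Or.inr ⟨e ▸ hs.2.1, hs.2.2⟩
    · exact Or.inr ⟨e.1, hs.2.2⟩

theorem Rs.mono {ω ω' S S' : Set V} (hω : ω ⊆ ω') (hS : S ⊆ S') {u : V} (h : Rs G ω S u) :
    Rs G ω' S' u := by
  obtain ⟨s, hs, hr⟩ := h
  exact ⟨s, hS hs, hr.mono hω⟩

theorem Rs.trans {ω S : Set V} {u v : V} (h : Rs G ω S u) (h' : R G ω u v) : Rs G ω S v := by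
  obtain ⟨s, hs, hr⟩ := h
  exact ⟨s, hs, hr.trans h'⟩

theorem Rs_of_mem {ω S : Set V} {u : V} (h : u ∈ S) : Rs G ω S u := ⟨u, h, R.refl _ _⟩

theorem Rs_singleton {ω : Set V} {x u : V} : Rs G ω {x} u ↔ R G ω x u := by
  simp [Rs]

theorem Rs_insert {ω S : Set V} {x u : V} :
    Rs G ω (insert x S) u ↔ R G ω x u ∨ Rs G ω S u := by
  simp [Rs]

theorem Rs_union {ω S T : Set V} {u : V} : Rs G ω (S ∪ T) u ↔ Rs G ω S u ∨ Rs G ω T u := by
  constructor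
  · rintro ⟨s, hs | hs, h⟩
    · exact Or.inl ⟨s, hs, h⟩
    · exact Or.inr ⟨s, hs, h⟩
  · rintro (h | h)
    · exact h.mono le_rfl Set.subset_union_left
    · exact h.mono le_rfl Set.subset_union_right

theorem Rs_iff {ω S : Set V} {u : V} : Rs G ω S u ↔ u ∈ S ∨ u ∈ O G S ω := by
  constructor
  · rintro ⟨s, hs, h⟩
    rcases h.cases with e | e
    · exact Or.inl (e ▸ hs)
    · exact Or.inr ⟨e.2, s, hs, h⟩
  · rintro (h | h)
    · exact Rs_of_mem h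
    · exact h.2

theorem O_mono {ω ω' S S' : Set V} (hω : ω ⊆ ω') (hS : S ⊆ S') : O G S ω ⊆ O G S' ω' :=
  fun _ h => ⟨hω h.1, h.2.mono hω hS⟩

theorem O_step {ω S : Set V} {v w : V} (h : v ∈ O G S ω) (a : G.Adj v w) (hw : w ∈ ω) :
    w ∈ O G S ω := ⟨hw, h.2.trans ((R.refl _ _).tail a h.1 hw)⟩

theorem O_empty (S : Set V) : O G S ∅ = ∅ := by
  ext v; simp [O]

theorem Bd_mono {S W W' : Set V} (h : W ⊆ W') : Bd G S W ⊆ Bd G S W' := by
  rintro v (hv | hv | ⟨w, hw, a⟩)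
  · exact Or.inl hv
  · exact Or.inr (Or.inl (h hv))
  · exact Or.inr (Or.inr ⟨w, h hw, a⟩)

theorem mem_O_of_Bd {ω S : Set V} {v : V} (hv : v ∈ ω) (h : v ∈ Bd G S (O G S ω)) :
    v ∈ O G S ω := by
  rcases h with h | h | ⟨w, hw, a⟩
  · exact ⟨hv, Rs_of_mem h⟩
  · exact h
  · exact O_step hw a hv

theorem R_avoid {ω S : Set V} {x v : V} (hx : x ∉ O G S ω) (h : R G ω x v) :
    R G (ω \ Bd G S (O G S ω)) x v := by
  have : v ∉ O G S ω ∧ R G (ω \ Bd G S (O G S ω)) x v := by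
    induction h with
    | refl => exact ⟨hx, R.refl _ _⟩
    | tail _ hs ih =>
      have hb := fun hb => ih.1 (O_step hb hs.1.symm hs.2.1)
      exact ⟨hb, ih.2.tail hs.1 ⟨hs.2.1, fun e => ih.1 (mem_O_of_Bd hs.2.1 e)⟩
        ⟨hs.2.2, fun e => hb (mem_O_of_Bd hs.2.2 e)⟩⟩
  exact this.2

theorem O_avoid {ω S Z : Set V} (hZ : ∀ z ∈ Z, z ∉ O G S ω) :
    O G Z (ω \ Bd G S (O G S ω)) = O G Z ω := by
  refine Set.Subset.antisymm (O_mono Set.sdiff_subset le_rfl) ?_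
  rintro v ⟨hv, z, hz, h⟩
  refine ⟨⟨hv, fun e => hZ z hz ?_⟩, z, hz, R_avoid (hZ z hz) h⟩
  have hvO := mem_O_of_Bd hv e
  rcases h.cases with e' | e'
  · exact e' ▸ hvO
  · exact ⟨e'.1, hvO.2.trans h.symm⟩

theorem O_stop (S ω ω' : Set V) : O G S (sp (Bd G S (O G S ω)) ω ω') = O G S ω := by
  apply Set.Subset.antisymm
  · rintro v ⟨hv, s, hs, h⟩
    induction h with
    | refl =>
      rcases hv with hv | hv
      · exact ⟨hv.1, Rs_of_mem hs⟩
      · exact absurd (Or.inl hs) hv.2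
    | tail _ hs' ih =>
      have hb := ih hs'.2.1
      rcases hv with hv | hv
      · exact O_step hb hs'.1 hv.1
      · exact absurd (Or.inr (Or.inr ⟨_, hb, hs'.1⟩)) hv.2
  · rintro v ⟨hv, s, hs, h⟩
    induction h with
    | refl => exact ⟨Or.inl ⟨hv, Or.inl hs⟩, Rs_of_mem hs⟩
    | tail h1 hs' ih =>
      exact O_step (ih hs'.2.1) hs'.1
        (Or.inl ⟨hv, Or.inr (Or.inr ⟨_, ⟨hs'.2.1, s, hs, h1⟩, hs'.1⟩)⟩)

/-- first exit from a set `W` -/
theorem R_exit {ω W : Set V} {s x : V} (hs : s ∈ W) (h : R G ω s x) :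
    (x ∈ W ∧ R G (ω ∩ W) s x) ∨
      ∃ z y, R G (ω ∩ W) s z ∧ z ∈ ω ∧ z ∈ W ∧ G.Adj z y ∧ y ∈ ω ∧ y ∉ W := by
  induction h with
  | refl => exact Or.inl ⟨hs, R.refl _ _⟩
  | @tail b c _ hs' ih =>
    rcases ih with ih | ih
    · by_cases hc : c ∈ W
      · exact Or.inl ⟨hc, ih.2.tail hs'.1 ⟨hs'.2.1, ih.1⟩ ⟨hs'.2.2, hc⟩⟩
      · exact Or.inr ⟨b, c, ih.2, hs'.2.1, ih.1, hs'.1, hs'.2.2, hc⟩
    · exact Or.inr ih

variable [DecidableEq V]

theorem cond_world (U : Finset V) (q : V → ℝ) (S B : Set V) (Φ : Set V → Set V → ℝ) :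
    Ex U q (fun ω => Φ (O G S (ω \ B)) (ω \ Bd G S (O G S (ω \ B)))) =
    Ex U q (fun ω => Ex U q (fun ω' =>
      Φ (O G S (ω \ B)) (ω' \ Bd G S (O G S (ω \ B))))) := by
  have e0 : ∀ N ω ω' : Set V, sp N ω ω' \ B = sp N (ω \ B) (ω' \ B) := by
    intro N ω ω'; ext v; simp only [mem_sp, Set.mem_sdiff]; tauto
  have e1 : ∀ ω ω' : Set V,
      O G S (sp (Bd G S (O G S (ω \ B))) ω ω' \ B) = O G S (ω \ B) := by
    intro ω ω'; rw [e0, O_stop]
  have e2 : ∀ N ω ω' : Set V, sp N ω ω' \ N = ω' \ N := by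
    intro N ω ω'; ext v; simp only [mem_sp, Set.mem_sdiff]; tauto
  rw [splice U q (fun ω => Bd G S (O G S (ω \ B))) (fun ω ω' => by rw [e1])]
  simp only [e1, e2]

theorem cond (U : Finset V) (q : V → ℝ) (S : Set V) (Φ : Set V → Set V → ℝ) :
    Ex U q (fun ω => Φ (O G S ω) (ω \ Bd G S (O G S ω))) =
    Ex U q (fun ω => Ex U q (fun ω' => Φ (O G S ω) (ω' \ Bd G S (O G S ω)))) := by
  have := cond_world (G := G) U q S ∅ Φ
  simpa only [Set.sdiff_empty] using this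

end Pool.Agent.H913Z.Perc
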