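import Mathlib

/-! A hierarchical potential on the quarter plane. -/

namespace Pool.Agent.H913Z.Perc
open Finset

/-- nearest neighbours in the quarter plane -/
def madj (x y : ℕ × ℕ) : Prop :=
  (x.1 = y.1 ∧ (x.2 + 1 = y.2 ∨ y.2 + 1 = x.2)) ∨ (x.2 = y.2 ∧ (x.1 + 1 = y.1 ∨ y.1 + 1 = x.1))

instance (x y : ℕ × ℕ) : Decidable (madj x y) := by unfold madj; infer_instance

/-- sub-block number `i` of the block `a` -/
def sub (a : ℕ × ℕ) (i : Fin 3 × Fin 3) : ℕ × ℕ := (3 * a.1 + i.1, 3 * a.2 + i.2)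

/-- the potential of a block -/
noncomputable def phi (t : ℕ × ℕ → ℝ) : ℕ → ℕ × ℕ → ℝ
  | 0, a => t a
  | k + 1, a => ∑ i ∈ (univ : Finset (Fin 3 × Fin 3)).offDiag, phi t k (sub a i.1) * phi t k (sub a i.2)

/-- total potential -/
noncomputable def Phi (K : ℕ) (t : ℕ × ℕ → ℝ) : ℝ := ∑ k ∈ range (K + 2), phi t k (0, 0)

theorem phi_nonneg {t : ℕ × ℕ → ℝ} (ht : ∀ v, 0 ≤ t v) (k : ℕ) (a : ℕ × ℕ) : 0 ≤ phi t k a := by
  induction k generalizing a with
  | zero => exact ht a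
  | succ k ih => exact sum_nonneg fun i _ => mul_nonneg (ih _) (ih _)

/-- the block of level `k` containing `v` -/
def blk (k : ℕ) (v : ℕ × ℕ) : ℕ × ℕ := (v.1 / 3 ^ k, v.2 / 3 ^ k)

theorem blk_succ {k : ℕ} {v a : ℕ × ℕ} {i : Fin 3 × Fin 3} (h : blk k v = sub a i) :
    blk (k + 1) v = a := by
  unfold blk sub at *
  obtain ⟨h1, h2⟩ := Prod.mk.inj h
  have := i.1.2
  have := i.2.2
  ext
  · simp only [pow_succ, ← Nat.div_div_eq_div_mul]; omega
  · simp only [pow_succ, ← Nat.div_div_eq_div_mul]; omega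

theorem sub_inj {a : ℕ × ℕ} {i j : Fin 3 × Fin 3} (h : sub a i = sub a j) : i = j := by
  unfold sub at h
  obtain ⟨h1, h2⟩ := Prod.mk.inj h
  ext <;> omega

theorem phi_update (t : ℕ × ℕ → ℝ) (v : ℕ × ℕ) (s : ℝ) (k : ℕ) (a : ℕ × ℕ) (h : blk k v ≠ a) :
    phi (Function.update t v s) k a = phi t k a := by
  induction k generalizing a with
  | zero =>
    have : a ≠ v := by
      intro e; apply h; simp [blk, e]
    simp [phi, this]
  | succ k ih =>
    simp only [phi]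
    refine sum_congr rfl fun i _ => ?_
    rw [ih _ (fun e => h (blk_succ e)), ih _ (fun e => h (blk_succ e))]

/-- affine with a nonnegative slope -/
def Aff (f : ℝ → ℝ) : Prop := ∃ α β : ℝ, 0 ≤ β ∧ ∀ s, f s = α + β * s

theorem Aff.sum {ι : Type*} (I : Finset ι) (f : ι → ℝ → ℝ) (h : ∀ i ∈ I, Aff (f i)) :
    Aff (fun s => ∑ i ∈ I, f i s) := by
  classical
  induction I using Finset.induction_on with
  | empty => exact ⟨0, 0, le_rfl, fun s => by simp⟩
  | insert i I hi ih =>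
    obtain ⟨a, b, hb, e⟩ := ih fun j hj => h j (mem_insert_of_mem hj)
    obtain ⟨a', b', hb', e'⟩ := h i (mem_insert_self i I)
    refine ⟨a + a', b + b', add_nonneg hb hb', fun s => ?_⟩
    have := e s
    simp only at this
    simp only [sum_insert hi, this, e' s]
    ring

theorem phi_aff {t : ℕ × ℕ → ℝ} (ht : ∀ v, 0 ≤ t v) (v : ℕ × ℕ) (k : ℕ) (a : ℕ × ℕ) :
    Aff (fun s => phi (Function.update t v s) k a) := by
  induction k generalizing a with
  | zero =>
    by_cases h : a = v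
    · exact ⟨0, 1, zero_le_one, fun s => by simp [phi, h]⟩
    · exact ⟨t a, 0, le_rfl, fun s => by simp [phi, h]⟩
  | succ k ih =>
    simp only [phi]
    refine Aff.sum _ (fun (i : (Fin 3 × Fin 3) × (Fin 3 × Fin 3)) s =>
      phi (Function.update t v s) k (sub a i.1) * phi (Function.update t v s) k (sub a i.2))
      fun i hi => ?_
    have hne := (mem_offDiag.1 hi).2.2
    by_cases h : blk k v = sub a i.1
    · have h' : blk k v ≠ sub a i.2 := fun e => hne (sub_inj (h.symm.trans e))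
      obtain ⟨α, β, hβ, e⟩ := ih (sub a i.1)
      refine ⟨α * phi t k (sub a i.2), β * phi t k (sub a i.2),
        mul_nonneg hβ (phi_nonneg ht _ _), fun s => ?_⟩
      have := e s
      simp only at this
      simp only [this, phi_update t v s k _ h']
      ring
    · obtain ⟨α, β, hβ, e⟩ := ih (sub a i.2)
      refine ⟨α * phi t k (sub a i.1), β * phi t k (sub a i.1),
        mul_nonneg hβ (phi_nonneg ht _ _), fun s => ?_⟩
      have := e s
      simp only at this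
      simp only [this, phi_update t v s k _ h]
      ring

theorem Phi_step {t : ℕ × ℕ → ℝ} (ht : ∀ v, 0 ≤ t v) (K : ℕ) (v : ℕ × ℕ) {b : ℝ}
    (hb : b ≤ t v) :
    b * Phi K (Function.update t v 1) + (1 - b) * Phi K (Function.update t v 0) ≤ Phi K t := by
  obtain ⟨α, β, hβ, e⟩ := Aff.sum (range (K + 2))
    (fun k s => phi (Function.update t v s) k (0, 0)) fun k _ => phi_aff ht v k _
  have e1 := e 1
  have e0 := e 0
  have e2 := e (t v)
  simp only [Function.update_eq_self] at e1 e0 e2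
  unfold Phi
  rw [e1, e0, e2]
  nlinarith [mul_le_mul_of_nonneg_left hb hβ]

theorem phi_small {t : ℕ × ℕ → ℝ} (ht : ∀ v, 0 ≤ t v) {ε : ℝ} (hε : 144 * ε ≤ 1)
    (h : ∀ v, t v ≤ ε) (k : ℕ) (a : ℕ × ℕ) : phi t k a ≤ ε * (1 / 2) ^ k := by
  have h0 : 0 ≤ ε := (ht 0).trans (h 0)
  induction k generalizing a with
  | zero => simpa [phi] using h a
  | succ k ih =>
    simp only [phi]
    have hp : (0 : ℝ) ≤ (1 / 2) ^ k := by positivity
    have hp1 : ((1 : ℝ) / 2) ^ k ≤ 1 := pow_le_one₀ (by norm_num) (by norm_num)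
    refine (sum_le_sum (g := fun _ => (ε * (1 / 2) ^ k) * ε) fun i _ => ?_).trans ?_
    · exact mul_le_mul (ih _) ((ih _).trans (mul_le_of_le_one_right h0 hp1))
        (phi_nonneg ht _ _) (mul_nonneg h0 hp)
    · rw [sum_const, offDiag_card, card_univ, nsmul_eq_mul, pow_succ]
      simp only [Fintype.card_prod, Fintype.card_fin]
      norm_num
      nlinarith [mul_nonneg h0 hp]

theorem Phi_small {t : ℕ × ℕ → ℝ} (ht : ∀ v, 0 ≤ t v) {ε : ℝ} (hε : 144 * ε ≤ 1)
    (h : ∀ v, t v ≤ ε) (K : ℕ) : Phi K t ≤ 2 * ε := by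
  have h0 : 0 ≤ ε := (ht 0).trans (h 0)
  refine (sum_le_sum fun k _ => phi_small ht hε h k (0, 0)).trans ?_
  rw [← mul_sum]
  have := sum_geometric_two_le (K + 2)
  nlinarith

theorem one_bad {t : ℕ × ℕ → ℝ} (ht : ∀ v, 0 ≤ t v) {k : ℕ} {a : ℕ × ℕ}
    (h : phi t (k + 1) a < 1) : ∃ c, ∀ i, i ≠ c → phi t k (sub a i) < 1 := by
  by_cases h0 : ∃ c, 1 ≤ phi t k (sub a c)
  · obtain ⟨c, hc⟩ := h0
    refine ⟨c, fun i hi => ?_⟩
    by_contra h1
    have h1 := not_lt.1 h1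
    have := single_le_sum (f := fun i : (Fin 3 × Fin 3) × (Fin 3 × Fin 3) =>
      phi t k (sub a i.1) * phi t k (sub a i.2)) (s := univ.offDiag) (a := (i, c))
      (fun i _ => mul_nonneg (phi_nonneg ht _ _) (phi_nonneg ht _ _))
      (mem_offDiag.2 ⟨mem_univ _, mem_univ _, hi⟩)
    simp only [phi] at h
    nlinarith
  · push Not at h0
    exact ⟨0, fun i _ => h0 i⟩

/-- all good sub-blocks, hereditarily, lie in `S` -/
def Full (t : ℕ × ℕ → ℝ) (S : Set (ℕ × ℕ)) : ℕ → ℕ × ℕ → Prop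
  | 0, a => a ∈ S
  | k + 1, a => ∀ i, phi t k (sub a i) < 1 → Full t S k (sub a i)

/-- equal or adjacent, in the three by three grid -/
def near (i j : Fin 3 × Fin 3) : Prop := i = j ∨ madj (i.1, i.2) (j.1, j.2)

instance (i j : Fin 3 × Fin 3) : Decidable (near i j) := by unfold near; infer_instance

theorem grid_conn : ∀ c i j : Fin 3 × Fin 3, i ≠ c → j ≠ c →
    ∃ v, v ≠ c ∧ (∃ u, u ≠ c ∧ near i u ∧ near u v) ∧ (∃ u, u ≠ c ∧ near v u ∧ near u j) := by
  decide +kernel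

theorem grid_out : ∀ c i : Fin 3 × Fin 3, ∃ i', near i' i ∧ i' ≠ c := by decide +kernel

theorem full_up {t : ℕ × ℕ → ℝ} (ht : ∀ v, 0 ≤ t v) {S : Set (ℕ × ℕ)} {k : ℕ} {a : ℕ × ℕ}
    (H : ∀ i j : Fin 3 × Fin 3, madj (sub a i) (sub a j) → phi t k (sub a i) < 1 →
      phi t k (sub a j) < 1 → Full t S k (sub a i) → Full t S k (sub a j))
    (h : phi t (k + 1) a < 1) (i : Fin 3 × Fin 3) (hi : phi t k (sub a i) < 1)
    (hF : Full t S k (sub a i)) : Full t S (k + 1) a := by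
  obtain ⟨c, hc⟩ := one_bad ht h
  have st : ∀ i j : Fin 3 × Fin 3, near i j → phi t k (sub a i) < 1 →
      phi t k (sub a j) < 1 → Full t S k (sub a i) → Full t S k (sub a j) := by
    rintro i j (e | e) h1 h2 h3
    · exact e ▸ h3
    · refine H i j ?_ h1 h2 h3
      unfold madj sub at *
      simp only at *
      omega
  have sy : ∀ i j : Fin 3 × Fin 3, near i j → near j i := by decide +kernel
  intro j hj
  obtain ⟨i', n1, c1⟩ := grid_out c i
  obtain ⟨j', n2, c2⟩ := grid_out c j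
  obtain ⟨v, c3, ⟨u, c4, n3, n4⟩, ⟨w, c5, n5, n6⟩⟩ := grid_conn c i' j' c1 c2
  exact st _ _ n2 (hc _ c2) hj (st _ _ n6 (hc _ c5) (hc _ c2) (st _ _ n5 (hc _ c3) (hc _ c5)
    (st _ _ n4 (hc _ c4) (hc _ c3) (st _ _ n3 (hc _ c1) (hc _ c4)
      (st _ _ (sy _ _ n1) hi (hc _ c1) hF)))))

theorem third : ∀ x y : Fin 3, ∃ r, r ≠ x ∧ r ≠ y := by decide

theorem full_adj {t : ℕ × ℕ → ℝ} (ht : ∀ v, 0 ≤ t v) {S : Set (ℕ × ℕ)} {M : ℕ}
    (hS : ∀ x ∈ S, ∀ y, madj x y → y.1 < M → y.2 < M → t y < 1 → y ∈ S) (k : ℕ) :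
    ∀ a b : ℕ × ℕ, madj a b → (b.1 + 1) * 3 ^ k ≤ M → (b.2 + 1) * 3 ^ k ≤ M →
      phi t k a < 1 → phi t k b < 1 → Full t S k a → Full t S k b := by
  induction k with
  | zero =>
    intro a b hab h1 h2 _ hb ha
    exact hS a ha b hab (by omega) (by omega) hb
  | succ k ih =>
    intro a b hab h1 h2 ha hb hF
    have hM : ∀ j : Fin 3 × Fin 3, ((sub b j).1 + 1) * 3 ^ k ≤ M ∧ ((sub b j).2 + 1) * 3 ^ k ≤ M := by
      intro j
      have := j.1.2
      have := j.2.2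
      rw [pow_succ', ← mul_assoc] at h1 h2
      exact ⟨le_trans (Nat.mul_le_mul_right _ (by unfold sub; simp only; omega)) h1,
        le_trans (Nat.mul_le_mul_right _ (by unfold sub; simp only; omega)) h2⟩
    obtain ⟨c, hc⟩ := one_bad ht ha
    obtain ⟨c', hc'⟩ := one_bad ht hb
    have : ∃ i j, i ≠ c ∧ j ≠ c' ∧ madj (sub a i) (sub b j) := by
      obtain ⟨r, r1, r2⟩ := third c.1 c'.1
      obtain ⟨s, s1, s2⟩ := third c.2 c'.2
      rcases hab with ⟨e, e' | e'⟩ | ⟨e, e' | e'⟩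
      · exact ⟨(r, 2), (r, 0), fun h => r1 (congrArg Prod.fst h), fun h => r2 (congrArg Prod.fst h),
          by unfold madj sub; simp only [Fin.val_two, Fin.val_zero]; omega⟩
      · exact ⟨(r, 0), (r, 2), fun h => r1 (congrArg Prod.fst h), fun h => r2 (congrArg Prod.fst h),
          by unfold madj sub; simp only [Fin.val_two, Fin.val_zero]; omega⟩
      · exact ⟨(2, s), (0, s), fun h => s1 (congrArg Prod.snd h), fun h => s2 (congrArg Prod.snd h),
          by unfold madj sub; simp only [Fin.val_two, Fin.val_zero]; omega⟩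
      · exact ⟨(0, s), (2, s), fun h => s1 (congrArg Prod.snd h), fun h => s2 (congrArg Prod.snd h),
          by unfold madj sub; simp only [Fin.val_two, Fin.val_zero]; omega⟩
    obtain ⟨i, j, hi, hj, hij⟩ := this
    exact full_up ht (fun i j hij => ih _ _ hij (hM j).1 (hM j).2) hb j (hc' j hj)
      (ih _ _ hij (hM j).1 (hM j).2 (hc i hi) (hc' j hj) (hF i (hc i hi)))

theorem full_mem {t : ℕ × ℕ → ℝ} (ht : ∀ v, 0 ≤ t v) {S : Set (ℕ × ℕ)} (k : ℕ) (a : ℕ × ℕ)
    (h : phi t k a < 1) (hF : Full t S k a) : ∃ x ∈ S, blk k x = a := by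
  induction k generalizing a with
  | zero => exact ⟨a, hF, by simp [blk]⟩
  | succ k ih =>
    obtain ⟨c, hc⟩ := one_bad ht h
    obtain ⟨i, -, hi⟩ := grid_out c c
    obtain ⟨x, hx, e⟩ := ih _ (hc i hi) (hF i (hc i hi))
    exact ⟨x, hx, blk_succ e⟩

theorem far_of_Phi {t : ℕ × ℕ → ℝ} (ht : ∀ v, 0 ≤ t v) {S : Set (ℕ × ℕ)} {K : ℕ}
    (hS : ∀ x ∈ S, ∀ y, madj x y → y.1 < 3 ^ (K + 1) → y.2 < 3 ^ (K + 1) → t y < 1 → y ∈ S)
    (h0 : (0, 0) ∈ S) (h : Phi K t < 1) : ∃ x ∈ S, K ≤ x.1 := by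
  have hg : ∀ k ≤ K + 1, phi t k (0, 0) < 1 := fun k hk =>
    (single_le_sum (f := fun k => phi t k (0, 0)) (fun k _ => phi_nonneg ht _ _)
      (mem_range.2 (by omega))).trans_lt h
  have hF : ∀ k ≤ K + 1, Full t S k (0, 0) := by
    intro k
    induction k with
    | zero => exact fun _ => h0
    | succ k ih =>
      intro hk
      have hp : 3 * 3 ^ k ≤ 3 ^ (K + 1) := by
        rw [← pow_succ']; exact Nat.pow_le_pow_right (by norm_num) hk
      refine full_up ht (fun i j hij => full_adj ht hS k _ _ hij ?_ ?_) (hg _ hk) (0, 0)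
        (hg k (by omega)) (ih (by omega))
      · have := j.1.2
        exact le_trans (Nat.mul_le_mul_right _ (by unfold sub; simp only; omega)) hp
      · have := j.2.2
        exact le_trans (Nat.mul_le_mul_right _ (by unfold sub; simp only; omega)) hp
  obtain ⟨c, hc⟩ := one_bad ht (hg (K + 1) le_rfl)
  obtain ⟨r, r1, r2⟩ := third c.1 0
  have hi : (r, 0) ≠ c := fun h => r1 (congrArg Prod.fst h)
  obtain ⟨x, hx, e⟩ := full_mem ht K _ (hc _ hi) (hF (K + 1) le_rfl _ (hc _ hi))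
  refine ⟨x, hx, ?_⟩
  have e1 : x.1 / 3 ^ K = r := by simpa [blk, sub] using congrArg Prod.fst e
  have e2 : 0 < x.1 / 3 ^ K := by
    rw [e1]; exact Nat.pos_of_ne_zero fun h => r2 (Fin.ext h)
  have e3 : 3 ^ K ≤ x.1 := by
    by_contra hh
    rw [Nat.div_eq_of_lt (not_le.1 hh)] at e2
    omega
  exact (Nat.lt_pow_self (by norm_num)).le.trans e3

end Pool.Agent.H913Z.Perc
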