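import Pool.Agent.H913Z.Perc.Fin
import Pool.Agent.H913Z.Perc.Hier

/-! Dynamic renormalisation: the abstract exploration. -/

namespace Pool.Agent.H913Z.Perc
open Finset

variable {V : Type*} [DecidableEq V] {U : Finset V} {q : V → ℝ}

/-- the macroscopic box -/
def Lam (K : ℕ) : Finset (ℕ × ℕ) := range (3 ^ (K + 1)) ×ˢ range (3 ^ (K + 1))

/-- the data of an exploration -/
structure Sys (U : Finset V) (q : V → ℝ) (K : ℕ) (δ : ℝ) (Q : ℕ × ℕ → Set V)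
    (conn : ℕ × ℕ → Set V → Prop) : Prop where
  ok : Ok q
  pos : 0 < δ
  small : 288 * δ ≤ 1
  disj : ∀ x y, x ≠ y → ∀ v ∈ Q x, v ∉ Q y
  mono : ∀ x ω ω', ω ⊆ ω' → conn x ω → conn x ω'
  corr : ∀ x ∈ Lam K, ∀ y ∈ Lam K, madj x y → ∀ q' : V → ℝ, Ok q' →
    (∀ v ∈ Q x ∪ Q y, q' v = q v) → Ex U q' (fun ω => ind (conn x ω ∧ ¬ conn y ω)) ≤ δ ^ 2 / 4

variable {K : ℕ} {δ : ℝ} {Q : ℕ × ℕ → Set V} {conn : ℕ × ℕ → Set V → Prop}

variable (U q K δ Q conn) in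
/-- the unexamined neighbours of `y` are likely to be reached -/
def Fwd (E : Finset (ℕ × ℕ)) (y : ℕ × ℕ) (ξ : Set V) : Prop :=
  ∀ z ∈ Lam K, madj y z → z ∉ E → Ex U q (fun ω => ind (¬ conn z (ξ ∪ (ω ∩ Q z)))) ≤ δ

theorem markov (H : Sys U q K δ Q conn) {y z : ℕ × ℕ} (hy : y ∈ Lam K) (hz : z ∈ Lam K)
    (hyz : madj y z) {ξ : Set V} (hξ : ξ ⊆ ↑U) (h1 : ∀ v ∈ Q y, v ∉ ξ) (h2 : ∀ v ∈ Q z, v ∉ ξ) :
    Ex U q (fun ω => ind (conn y (ξ ∪ (ω ∩ Q y)) ∧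
      ¬ Ex U q (fun ω' => ind (¬ conn z ((ξ ∪ (ω ∩ Q y)) ∪ (ω' ∩ Q z)))) ≤ δ)) ≤ δ / 4 := by
  have hne : y ≠ z := by
    rintro rfl
    unfold madj at hyz
    omega
  have h := H.corr y hy z hz hyz (pin q (Q y ∪ Q z)ᶜ ξ) (pin_ok H.ok _ _)
    (fun v hv => pin_of_not_mem q ξ (fun e => e hv))
  rw [Ex_pin, splice_const U q (Q y)] at h
  have e : ∀ ω ω' : Set V, sp (Q y ∪ Q z)ᶜ (ξ ∩ ↑U) (sp (Q y) ω ω') =
      (ξ ∪ (ω ∩ Q y)) ∪ (ω' ∩ Q z) := by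
    intro ω ω'
    ext v
    have := H.disj y z hne v
    have := h1 v
    have := h2 v
    have := @hξ v
    simp only [mem_sp, Set.mem_inter_iff, Set.mem_compl_iff, Set.mem_union]
    tauto
  simp only [e] at h
  refine le_of_mul_le_mul_left (le_trans ?_ (h.trans (le_of_eq (by ring)))) H.pos
  rw [← Ex_mul_left]
  refine Ex_mono U H.ok fun ω => ?_
  by_cases hc : conn y (ξ ∪ (ω ∩ Q y)) ∧
      ¬ Ex U q (fun ω' => ind (¬ conn z ((ξ ∪ (ω ∩ Q y)) ∪ (ω' ∩ Q z)))) ≤ δ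
  · rw [ind_pos hc, mul_one]
    refine (not_le.1 hc.2).le.trans (Ex_mono U H.ok fun ω' => ind_mono fun h => ⟨?_, h⟩)
    exact H.mono y _ _ Set.subset_union_left hc.1
  · rw [ind_neg hc, mul_zero]
    exact Ex_nonneg U H.ok fun _ => ind_nonneg _

theorem bad_fwd (H : Sys U q K δ Q conn) {y : ℕ × ℕ} (hy : y ∈ Lam K) (E : Finset (ℕ × ℕ))
    {ξ : Set V} (hξ : ξ ⊆ ↑U) (h1 : ∀ v ∈ Q y, v ∉ ξ) (h2 : ∀ z, z ∉ E → ∀ v ∈ Q z, v ∉ ξ) :
    Ex U q (fun ω => ind (conn y (ξ ∪ (ω ∩ Q y)) ∧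
      ¬ Fwd U q K δ Q conn E y (ξ ∪ (ω ∩ Q y)))) ≤ δ := by
  classical
  let N : Finset (ℕ × ℕ) := (Lam K).filter (fun z => madj y z ∧ z ∉ E)
  have hN : N.card ≤ 4 := by
    have : N ⊆ {(y.1 + 1, y.2), (y.1 - 1, y.2), (y.1, y.2 + 1), (y.1, y.2 - 1)} := by
      intro z hz
      have := (mem_filter.1 hz).2.1
      unfold madj at this
      simp only [mem_insert, mem_singleton, Prod.ext_iff]
      omega
    exact (card_le_card this).trans card_le_four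
  have h : ∑ z ∈ N, Ex U q (fun ω => ind (conn y (ξ ∪ (ω ∩ Q y)) ∧
      ¬ Ex U q (fun ω' => ind (¬ conn z ((ξ ∪ (ω ∩ Q y)) ∪ (ω' ∩ Q z)))) ≤ δ)) ≤ δ := by
    refine (sum_le_sum fun z hz => markov H hy (mem_filter.1 hz).1 (mem_filter.1 hz).2.1 hξ h1
      (h2 z (mem_filter.1 hz).2.2)).trans ?_
    rw [sum_const, nsmul_eq_mul]
    have : (N.card : ℝ) ≤ 4 := by exact_mod_cast hN
    nlinarith [H.pos]
  refine le_trans ?_ h
  rw [← Ex_sum]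
  refine Ex_mono U H.ok fun ω => ?_
  by_cases hc : conn y (ξ ∪ (ω ∩ Q y)) ∧ ¬ Fwd U q K δ Q conn E y (ξ ∪ (ω ∩ Q y))
  · have h3 := hc.2
    unfold Fwd at h3
    push Not at h3
    obtain ⟨z, z1, z2, z3, z4⟩ := h3
    exact (ind_mono fun _ => ⟨hc.1, not_le.2 z4⟩).trans (single_le_sum
      (f := fun z => ind (conn y (ξ ∪ (ω ∩ Q y)) ∧
      ¬ Ex U q (fun ω' => ind (¬ conn z ((ξ ∪ (ω ∩ Q y)) ∪ (ω' ∩ Q z)))) ≤ δ))
      (fun _ _ => ind_nonneg _) (mem_filter.2 ⟨z1, z2, z3⟩))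
  · rw [ind_neg hc]
    exact sum_nonneg fun _ _ => ind_nonneg _

/-- site values of the potential -/
noncomputable def tv (δ : ℝ) (Gd E : Finset (ℕ × ℕ)) (v : ℕ × ℕ) : ℝ :=
  if v ∈ Gd then 0 else if v ∈ E then 1 else 2 * δ

theorem tv_nonneg (hδ : 0 < δ) (Gd E : Finset (ℕ × ℕ)) (v : ℕ × ℕ) : 0 ≤ tv δ Gd E v := by
  unfold tv; split_ifs <;> linarith

theorem Fwd.mono (H : Sys U q K δ Q conn) {E E' : Finset (ℕ × ℕ)} (hE : E ⊆ E') {y : ℕ × ℕ}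
    {ξ ξ' : Set V} (hξ : ξ ⊆ ξ') (h : Fwd U q K δ Q conn E y ξ) : Fwd U q K δ Q conn E' y ξ' :=
  fun z z1 z2 z3 => le_trans (Ex_mono U H.ok fun _ => ind_mono fun e e' =>
    e (H.mono z _ _ (Set.union_subset_union_left _ hξ) e')) (h z z1 z2 fun e => z3 (hE e))

theorem reveal (F : Set V → ℝ) (ξ Rv N : Set V) (h : ∀ v ∈ N, v ∉ Rv) :
    Ex U q (fun ω => F (ξ ∪ (ω \ Rv))) =
      Ex U q (fun ω => Ex U q (fun ω' => F ((ξ ∪ (ω ∩ N)) ∪ (ω' \ (Rv ∪ N))))) := by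
  rw [splice_const U q N]
  have e : ∀ ω ω' : Set V, ξ ∪ (sp N ω ω' \ Rv) = (ξ ∪ (ω ∩ N)) ∪ (ω' \ (Rv ∪ N)) := by
    intro ω ω'
    ext v
    have := h v
    simp only [mem_sp, Set.mem_inter_iff, Set.mem_sdiff, Set.mem_union]
    tauto
  simp only [e]

theorem explore_aux (H : Sys U q K δ Q conn) (n : ℕ) : ∀ (Gd E : Finset (ℕ × ℕ)) (ξ Rv : Set V),
    (Lam K \ E).card ≤ n → Gd ⊆ E → (0, 0) ∈ Gd → ξ ⊆ ↑U → ξ ⊆ Rv →
    (∀ z, z ∉ E → ∀ v ∈ Q z, v ∉ Rv) → (∀ x ∈ Gd, conn x ξ ∧ Fwd U q K δ Q conn E x ξ) →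
    Ex U q (fun ω => ind (¬ ∃ x : ℕ × ℕ, K ≤ x.1 ∧ conn x (ξ ∪ (ω \ Rv)))) ≤
      Phi K (tv δ Gd E) := by
  have hP : ∀ Gd E, 0 ≤ Phi K (tv δ Gd E) := fun Gd E =>
    sum_nonneg fun k _ => phi_nonneg (tv_nonneg H.pos Gd E) _ _
  have fin : ∀ (Gd E : Finset (ℕ × ℕ)) (ξ Rv : Set V), (0, 0) ∈ Gd → (∀ x ∈ Gd, conn x ξ) →
      (¬ ∃ x ∈ Gd, ∃ y ∈ Lam K, madj x y ∧ y ∉ E) →
      Ex U q (fun ω => ind (¬ ∃ x : ℕ × ℕ, K ≤ x.1 ∧ conn x (ξ ∪ (ω \ Rv)))) ≤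
      Phi K (tv δ Gd E) := by
    intro Gd E ξ Rv h0 hc hn
    by_cases h1 : Phi K (tv δ Gd E) < 1
    · obtain ⟨x, hx, hK⟩ := far_of_Phi (S := ↑Gd) (tv_nonneg H.pos Gd E) (fun x hx y a y1 y2 ht => by
        by_contra hy
        have hy : y ∉ Gd := hy
        have hE : y ∈ E := by
          by_contra hE
          exact hn ⟨x, hx, y, mem_product.2 ⟨mem_range.2 y1, mem_range.2 y2⟩, a, hE⟩
        simp [tv, hy, hE] at ht) h0 h1
      refine Ex_le_const U H.ok fun ω => ?_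
      rw [ind_neg (not_not.2 ⟨x, hK, H.mono x _ _ Set.subset_union_left (hc x hx)⟩)]
      exact hP Gd E
    · exact Ex_le_const U H.ok fun ω => (ind_le_one _).trans (not_lt.1 h1)
  induction n with
  | zero =>
    intro Gd E ξ Rv hn _ h0 _ _ _ hc
    refine fin Gd E ξ Rv h0 (fun x hx => (hc x hx).1) ?_
    rintro ⟨x, -, y, hy, -, hE⟩
    have := card_pos.2 ⟨y, mem_sdiff.2 ⟨hy, hE⟩⟩
    omega
  | succ n ih =>
    intro Gd E ξ Rv hn hGE h0 hU hR hQ hc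
    by_cases hex : ∃ x ∈ Gd, ∃ y ∈ Lam K, madj x y ∧ y ∉ E
    swap
    · exact fin Gd E ξ Rv h0 (fun x hx => (hc x hx).1) hex
    obtain ⟨x, hx, y, hy, hxy, hE⟩ := hex
    have hyG : y ∉ Gd := fun e => hE (hGE e)
    rw [reveal (fun ρ => ind (¬ ∃ x : ℕ × ℕ, K ≤ x.1 ∧ conn x ρ)) ξ Rv (Q y) (hQ y hE)]
    have hcard : (Lam K \ insert y E).card ≤ n := by
      rw [sdiff_insert, card_erase_of_mem (mem_sdiff.2 ⟨hy, hE⟩)]
      omega
    have hQ' : ∀ z, z ∉ insert y E → ∀ v ∈ Q z, v ∉ Rv ∪ Q y := by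
      intro z hz v hv e
      rw [mem_insert, not_or] at hz
      exact e.elim (hQ z hz.2 v hv) (H.disj z y hz.1 v hv)
    have t1 : tv δ Gd (insert y E) = Function.update (tv δ Gd E) y 1 := by
      ext v
      by_cases hv : v = y
      · subst hv; simp [tv, hyG]
      · simp [tv, hv]
    have t0 : tv δ (insert y Gd) (insert y E) = Function.update (tv δ Gd E) y 0 := by
      ext v
      by_cases hv : v = y
      · subst hv; simp [tv]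
      · simp [tv, hv]
    have hb : Ex U q (fun ω => ind (¬ (conn y (ξ ∪ (ω ∩ Q y)) ∧
        Fwd U q K δ Q conn (insert y E) y (ξ ∪ (ω ∩ Q y))))) ≤ tv δ Gd E y := by
      have b1 := (hc x hx).2 y hy hxy hE
      have b2 := bad_fwd H hy (insert y E) hU (fun v hv e => hQ y hE v hv (hR e))
        (fun z hz v hv e => hQ z (fun e' => hz (mem_insert_of_mem e')) v hv (hR e))
      have : tv δ Gd E y = δ + δ := by simp [tv, hyG, hE]; ring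
      rw [this]
      refine le_trans ?_ (add_le_add b1 b2)
      rw [← Ex_add]
      refine Ex_mono U H.ok fun ω => ?_
      by_cases c1 : conn y (ξ ∪ (ω ∩ Q y))
      · rw [ind_neg (not_not.2 c1), zero_add]
        exact ind_mono fun e => ⟨c1, fun e' => e ⟨c1, e'⟩⟩
      · rw [ind_pos c1]
        linarith [ind_le_one (¬ (conn y (ξ ∪ (ω ∩ Q y)) ∧
          Fwd U q K δ Q conn (insert y E) y (ξ ∪ (ω ∩ Q y)))), ind_nonneg (conn y (ξ ∪ (ω ∩ Q y)) ∧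
          ¬ Fwd U q K δ Q conn (insert y E) y (ξ ∪ (ω ∩ Q y)))]
    refine le_trans ?_ (Phi_step (tv_nonneg H.pos Gd E) K y hb)
    rw [← t1, ← t0, ← Ex_const U q 1, ← Ex_sub, ← Ex_mul_right, ← Ex_mul_right, ← Ex_add]
    refine Ex_mono' H.ok fun ω hω => ?_
    have hU' : ξ ∪ (ω ∩ Q y) ⊆ ↑U := Set.union_subset hU (Set.inter_subset_left.trans hω)
    have hR' : ξ ∪ (ω ∩ Q y) ⊆ Rv ∪ Q y := Set.union_subset_union hR Set.inter_subset_right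
    have hc' : ∀ x ∈ Gd, conn x (ξ ∪ (ω ∩ Q y)) ∧
        Fwd U q K δ Q conn (insert y E) x (ξ ∪ (ω ∩ Q y)) := fun x hx =>
      ⟨H.mono x _ _ Set.subset_union_left (hc x hx).1,
        (hc x hx).2.mono H (subset_insert y E) Set.subset_union_left⟩
    by_cases c : conn y (ξ ∪ (ω ∩ Q y)) ∧ Fwd U q K δ Q conn (insert y E) y (ξ ∪ (ω ∩ Q y))
    · rw [ind_neg (not_not.2 c), zero_mul, zero_add, sub_zero, one_mul]
      refine ih _ _ _ _ hcard (insert_subset_insert y hGE) (mem_insert_of_mem h0) hU' hR' hQ' ?_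
      intro z hz
      rcases mem_insert.1 hz with e | e
      · exact e ▸ c
      · exact hc' z e
    · rw [ind_pos c, one_mul, sub_self, zero_mul, add_zero]
      exact ih _ _ _ _ hcard (hGE.trans (subset_insert y E)) h0 hU' hR' hQ' hc'

theorem explore (H : Sys U q K δ Q conn) :
    Ex U q (fun ω => ind (conn (0, 0) (ω ∩ Q (0, 0)))) - 5 * δ ≤
      Ex U q (fun ω => ind (∃ x : ℕ × ℕ, K ≤ x.1 ∧ conn x ω)) := by
  have h0 : ((0, 0) : ℕ × ℕ) ∈ Lam K :=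
    mem_product.2 ⟨mem_range.2 (by positivity), mem_range.2 (by positivity)⟩
  have b := bad_fwd H h0 {(0, 0)} (ξ := ∅) (Set.empty_subset _) (fun _ _ e => e) (fun _ _ _ _ e => e)
  have r := reveal (U := U) (q := q) (fun ρ => ind (¬ ∃ x : ℕ × ℕ, K ≤ x.1 ∧ conn x ρ)) ∅ ∅
    (Q (0, 0)) (fun _ _ e => e)
  simp only [Set.empty_union, Set.sdiff_empty] at b r
  have hs := Phi_small (tv_nonneg H.pos {(0, 0)} {(0, 0)}) (ε := 2 * δ) (by linarith [H.small])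
    (fun v => by
      unfold tv
      split_ifs
      · linarith [H.pos]
      · exact le_rfl) K
  have h : Ex U q (fun ω => ind (¬ ∃ x : ℕ × ℕ, K ≤ x.1 ∧ conn x ω)) ≤
      Ex U q (fun ω => (1 - ind (conn (0, 0) (ω ∩ Q (0, 0))) + ind (conn (0, 0) (ω ∩ Q (0, 0)) ∧
        ¬ Fwd U q K δ Q conn {(0, 0)} (0, 0) (ω ∩ Q (0, 0)))) + 4 * δ) := by
    rw [r]
    refine Ex_mono' H.ok fun ω hω => ?_
    by_cases c : conn (0, 0) (ω ∩ Q (0, 0)) ∧ Fwd U q K δ Q conn {(0, 0)} (0, 0) (ω ∩ Q (0, 0))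
    · have := explore_aux H _ {(0, 0)} {(0, 0)} (ω ∩ Q (0, 0)) (Q (0, 0)) le_rfl Subset.rfl
        (mem_singleton_self _) (Set.inter_subset_left.trans hω) Set.inter_subset_right
        (fun z hz v hv => H.disj z _ (fun e => hz (mem_singleton.2 e)) v hv)
        (fun x hx => by rw [mem_singleton.1 hx]; exact c)
      rw [ind_pos c.1, ind_neg (fun e => e.2 c.2)]
      linarith
    · refine Ex_le_const U H.ok fun ω' => (ind_le_one _).trans ?_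
      by_cases c1 : conn (0, 0) (ω ∩ Q (0, 0))
      · rw [ind_pos c1, ind_pos ⟨c1, fun e => c ⟨c1, e⟩⟩]; linarith [H.pos]
      · rw [ind_neg c1, ind_neg (fun e => c1 e.1)]; linarith [H.pos]
  simp only [ind_not, Ex_add, Ex_sub, Ex_const] at h
  linarith

end Pool.Agent.H913Z.Perc
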