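import Mathlib

/-! Finite product expectation over subsets of a finite set. -/

namespace Pool.Agent.H913Z.Perc
open Finset

variable {V : Type*} [DecidableEq V]

open Classical in
/-- indicator of a proposition -/
noncomputable def ind (P : Prop) : ℝ := if P then 1 else 0

theorem ind_pos {P : Prop} (h : P) : ind P = 1 := by simp [ind, h]
theorem ind_neg {P : Prop} (h : ¬ P) : ind P = 0 := by simp [ind, h]
theorem ind_nonneg (P : Prop) : 0 ≤ ind P := by
  by_cases h : P
  · rw [ind_pos h]; norm_num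
  · rw [ind_neg h]
theorem ind_le_one (P : Prop) : ind P ≤ 1 := by
  by_cases h : P
  · rw [ind_pos h]
  · rw [ind_neg h]; norm_num
theorem ind_mono {P Q : Prop} (h : P → Q) : ind P ≤ ind Q := by
  by_cases hp : P
  · rw [ind_pos hp, ind_pos (h hp)]
  · rw [ind_neg hp]; exact ind_nonneg Q
theorem ind_congr {P Q : Prop} (h : P ↔ Q) : ind P = ind Q := by rw [propext h]
theorem ind_and (P Q : Prop) : ind (P ∧ Q) = ind P * ind Q := by
  by_cases hp : P <;> by_cases hq : Q <;> simp [ind, hp, hq]
theorem ind_not (P : Prop) : ind (¬ P) = 1 - ind P := by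
  by_cases hp : P <;> simp [ind, hp]

/-- weight of a configuration -/
noncomputable def wt (U : Finset V) (q : V → ℝ) (s : Finset V) : ℝ :=
  ∏ v ∈ U, if v ∈ s then q v else 1 - q v

/-- expectation -/
noncomputable def Ex (U : Finset V) (q : V → ℝ) (F : Set V → ℝ) : ℝ :=
  ∑ s ∈ U.powerset, wt U q s * F ↑s

/-- admissible weights -/
def Ok (q : V → ℝ) : Prop := ∀ v, 0 ≤ q v ∧ q v ≤ 1

theorem Ex_empty (q : V → ℝ) (F : Set V → ℝ) : Ex ∅ q F = F ∅ := by
  simp [Ex, wt]

theorem Ex_insert {U : Finset V} {v : V} (h : v ∉ U) (q : V → ℝ) (F : Set V → ℝ) :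
    Ex (insert v U) q F = q v * Ex U q (fun ω => F (insert v ω)) + (1 - q v) * Ex U q F := by
  unfold Ex
  rw [sum_powerset_insert h, add_comm, mul_sum, mul_sum]
  congr 1
  · refine sum_congr rfl fun s hs => ?_
    have : wt (insert v U) q (insert v s) = q v * wt U q s := by
      unfold wt
      rw [prod_insert h]
      simp only [mem_insert, true_or, if_true]
      congr 1
      refine prod_congr rfl fun u hu => ?_
      have : u ≠ v := fun e => h (e ▸ hu)
      simp [this]
    rw [this, coe_insert]; ring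
  · refine sum_congr rfl fun s hs => ?_
    have hv : v ∉ s := fun e => h (mem_powerset.1 hs e)
    have : wt (insert v U) q s = (1 - q v) * wt U q s := by
      unfold wt
      rw [prod_insert h]
      simp [hv]
    rw [this]; ring

theorem wt_nonneg {q : V → ℝ} (hq : Ok q) (U s : Finset V) : 0 ≤ wt U q s := by
  unfold wt
  refine prod_nonneg fun v _ => ?_
  split_ifs
  · exact (hq v).1
  · linarith [(hq v).2]

theorem Ex_const (U : Finset V) (q : V → ℝ) (c : ℝ) : Ex U q (fun _ => c) = c := by
  induction U using Finset.induction_on with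
  | empty => rw [Ex_empty]
  | insert v U h ih => rw [Ex_insert h, ih]; ring

theorem Ex_add (U : Finset V) (q : V → ℝ) (F G : Set V → ℝ) :
    Ex U q (fun ω => F ω + G ω) = Ex U q F + Ex U q G := by
  simp only [Ex, mul_add, sum_add_distrib]

theorem Ex_sub (U : Finset V) (q : V → ℝ) (F G : Set V → ℝ) :
    Ex U q (fun ω => F ω - G ω) = Ex U q F - Ex U q G := by
  simp only [Ex, mul_sub, sum_sub_distrib]

theorem Ex_mul_left (U : Finset V) (q : V → ℝ) (c : ℝ) (F : Set V → ℝ) :
    Ex U q (fun ω => c * F ω) = c * Ex U q F := by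
  simp only [Ex, mul_sum]
  exact sum_congr rfl fun s _ => by ring

theorem Ex_mul_right (U : Finset V) (q : V → ℝ) (c : ℝ) (F : Set V → ℝ) :
    Ex U q (fun ω => F ω * c) = Ex U q F * c := by
  simp only [Ex, sum_mul]
  exact sum_congr rfl fun s _ => by ring

theorem Ex_sum {ι : Type*} (U : Finset V) (q : V → ℝ) (I : Finset ι) (F : ι → Set V → ℝ) :
    Ex U q (fun ω => ∑ i ∈ I, F i ω) = ∑ i ∈ I, Ex U q (F i) := by
  simp only [Ex, mul_sum]
  exact sum_comm

theorem Ex_congr {U : Finset V} (q : V → ℝ) {F G : Set V → ℝ}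
    (h : ∀ ω : Set V, ω ⊆ ↑U → F ω = G ω) : Ex U q F = Ex U q G :=
  sum_congr rfl fun s hs => by rw [h s (coe_subset.2 (mem_powerset.1 hs))]

theorem Ex_mono' {U : Finset V} {q : V → ℝ} (hq : Ok q) {F G : Set V → ℝ}
    (h : ∀ ω : Set V, ω ⊆ ↑U → F ω ≤ G ω) : Ex U q F ≤ Ex U q G :=
  sum_le_sum fun s hs =>
    mul_le_mul_of_nonneg_left (h s (coe_subset.2 (mem_powerset.1 hs))) (wt_nonneg hq U s)

theorem Ex_mono (U : Finset V) {q : V → ℝ} (hq : Ok q) {F G : Set V → ℝ}
    (h : ∀ ω : Set V, F ω ≤ G ω) : Ex U q F ≤ Ex U q G := Ex_mono' hq fun ω _ => h ω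

theorem Ex_nonneg (U : Finset V) {q : V → ℝ} (hq : Ok q) {F : Set V → ℝ}
    (h : ∀ ω : Set V, 0 ≤ F ω) : 0 ≤ Ex U q F := by
  have := Ex_mono U hq (F := fun _ => 0) h
  rwa [Ex_const] at this

theorem Ex_le_const (U : Finset V) {q : V → ℝ} (hq : Ok q) {F : Set V → ℝ} {c : ℝ}
    (h : ∀ ω : Set V, F ω ≤ c) : Ex U q F ≤ c := by
  have := Ex_mono U hq (G := fun _ => c) h
  rwa [Ex_const] at this

theorem const_le_Ex (U : Finset V) {q : V → ℝ} (hq : Ok q) {F : Set V → ℝ} {c : ℝ}
    (h : ∀ ω : Set V, c ≤ F ω) : c ≤ Ex U q F := by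
  have := Ex_mono U hq (F := fun _ => c) h
  rwa [Ex_const] at this

theorem Ex_comm (U U' : Finset V) (q q' : V → ℝ) (H : Set V → Set V → ℝ) :
    Ex U q (fun ω => Ex U' q' (fun ω' => H ω ω')) = Ex U' q' (fun ω' => Ex U q (fun ω => H ω ω')) := by
  simp only [Ex, mul_sum]
  rw [sum_comm]
  exact sum_congr rfl fun s _ => sum_congr rfl fun t _ => by ring

theorem harris (U : Finset V) {q : V → ℝ} (hq : Ok q) {F G : Set V → ℝ}
    (hF : Monotone F) (hG : Monotone G) :
    Ex U q F * Ex U q G ≤ Ex U q (fun ω => F ω * G ω) := by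
  induction U using Finset.induction_on generalizing F G with
  | empty => simp [Ex_empty]
  | insert v U h ih =>
    rw [Ex_insert h, Ex_insert h, Ex_insert h]
    have hF' : Monotone (fun ω : Set V => F (insert v ω)) :=
      fun a b hab => hF (Set.insert_subset_insert hab)
    have hG' : Monotone (fun ω : Set V => G (insert v ω)) :=
      fun a b hab => hG (Set.insert_subset_insert hab)
    have h1 := ih hF' hG'
    have h0 := ih hF hG
    have a1 : Ex U q F ≤ Ex U q (fun ω => F (insert v ω)) :=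
      Ex_mono U hq fun ω => hF (Set.subset_insert v ω)
    have a2 : Ex U q G ≤ Ex U q (fun ω => G (insert v ω)) :=
      Ex_mono U hq fun ω => hG (Set.subset_insert v ω)
    have q0 := (hq v).1
    have q1 : 0 ≤ 1 - q v := by linarith [(hq v).2]
    have k := mul_nonneg (mul_nonneg q0 q1) (mul_nonneg (sub_nonneg.2 a1) (sub_nonneg.2 a2))
    have k1 := mul_le_mul_of_nonneg_left h1 q0
    have k0 := mul_le_mul_of_nonneg_left h0 q1
    nlinarith

theorem harris_anti (U : Finset V) {q : V → ℝ} (hq : Ok q) {F G : Set V → ℝ}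
    (hF : Antitone F) (hG : Antitone G) :
    Ex U q F * Ex U q G ≤ Ex U q (fun ω => F ω * G ω) := by
  have h := harris U hq (F := fun ω => (-1) * F ω) (G := fun ω => (-1) * G ω)
    (fun a b hab => by have := hF hab; simp only; linarith)
    (fun a b hab => by have := hG hab; simp only; linarith)
  rw [Ex_mul_left, Ex_mul_left] at h
  have e : (fun ω => (-1) * F ω * ((-1) * G ω)) = fun ω => F ω * G ω := by ext; ring
  rw [e] at h
  linarith

theorem harris_mixed (U : Finset V) {q : V → ℝ} (hq : Ok q) {F G : Set V → ℝ}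
    (hF : Monotone F) (hG : Antitone G) :
    Ex U q (fun ω => F ω * G ω) ≤ Ex U q F * Ex U q G := by
  have h := harris U hq (F := F) (G := fun ω => (-1) * G ω) hF
    (fun a b hab => by have := hG hab; simp only; linarith)
  rw [Ex_mul_left] at h
  have e : (fun ω => F ω * ((-1) * G ω)) = fun ω => (-1) * (F ω * G ω) := by ext; ring
  rw [e, Ex_mul_left] at h
  linarith

/-- splice: `ω` on `N`, `ω'` off `N` -/
def sp (N ω ω' : Set V) : Set V := (ω ∩ N) ∪ (ω' \ N)

omit [DecidableEq V] in
theorem mem_sp {N ω ω' : Set V} {v : V} :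
    v ∈ sp N ω ω' ↔ (v ∈ ω ∧ v ∈ N) ∨ (v ∈ ω' ∧ v ∉ N) := Iff.rfl

open Classical in
/-- finite version of the splice -/
noncomputable def spf (N : Set V) (s t : Finset V) : Finset V :=
  s.filter (· ∈ N) ∪ t.filter (· ∉ N)

theorem mem_spf {N : Set V} {s t : Finset V} {v : V} :
    v ∈ spf N s t ↔ (v ∈ s ∧ v ∈ N) ∨ (v ∈ t ∧ v ∉ N) := by
  simp [spf]

theorem coe_spf (N : Set V) (s t : Finset V) : (↑(spf N s t) : Set V) = sp N ↑s ↑t := by
  ext v; simp [mem_spf, mem_sp]

theorem wt_spf (U : Finset V) (q : V → ℝ) (N : Set V) (s t : Finset V) :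
    wt U q (spf N s t) * wt U q (spf N t s) = wt U q s * wt U q t := by
  unfold wt
  rw [← prod_mul_distrib, ← prod_mul_distrib]
  refine prod_congr rfl fun v _ => ?_
  by_cases hN : v ∈ N
  · simp [mem_spf, hN]
  · simp [mem_spf, hN, mul_comm]

theorem splice (U : Finset V) (q : V → ℝ) (N : Set V → Set V)
    (hN : ∀ ω ω', N (sp (N ω) ω ω') = N ω) (G : Set V → ℝ) :
    Ex U q G = Ex U q (fun ω => Ex U q (fun ω' => G (sp (N ω) ω ω'))) := by
  have h1 : Ex U q G = Ex U q (fun ω => Ex U q (fun _ => G ω)) := by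
    simp only [Ex_const]
  rw [h1]
  simp only [Ex, mul_sum]
  rw [← sum_product', ← sum_product']
  let Φ : Finset V × Finset V → Finset V × Finset V :=
    fun x => (spf (N ↑x.1) x.1 x.2, spf (N ↑x.1) x.2 x.1)
  have hΦ : ∀ x, Φ (Φ x) = x := by
    rintro ⟨s, t⟩
    simp only [Φ, coe_spf, hN]
    congr 1
    · ext v; simp only [mem_spf]; tauto
    · ext v; simp only [mem_spf]; tauto
  have hm : ∀ x ∈ U.powerset ×ˢ U.powerset, Φ x ∈ U.powerset ×ˢ U.powerset := by
    rintro ⟨s, t⟩ hx
    simp only [mem_product, mem_powerset] at hx ⊢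
    constructor
    · intro v hv
      rcases mem_spf.1 hv with h | h
      · exact hx.1 h.1
      · exact hx.2 h.1
    · intro v hv
      rcases mem_spf.1 hv with h | h
      · exact hx.2 h.1
      · exact hx.1 h.1
  symm
  refine sum_nbij' Φ Φ hm hm (fun x _ => hΦ x) (fun x _ => hΦ x) ?_
  rintro ⟨s, t⟩ _
  simp only [Φ, coe_spf]
  rw [← mul_assoc, ← mul_assoc, wt_spf]

theorem splice_const (U : Finset V) (q : V → ℝ) (N : Set V) (G : Set V → ℝ) :
    Ex U q G = Ex U q (fun ω => Ex U q (fun ω' => G (sp N ω ω'))) :=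
  splice U q (fun _ => N) (fun _ _ => rfl) G

theorem indep (U : Finset V) (q : V → ℝ) (N : Set V) (F G : Set V → ℝ) :
    Ex U q (fun ω => F (ω ∩ N) * G (ω \ N)) =
      Ex U q (fun ω => F (ω ∩ N)) * Ex U q (fun ω => G (ω \ N)) := by
  rw [splice_const U q N]
  have e1 : ∀ ω ω' : Set V, sp N ω ω' ∩ N = ω ∩ N := by
    intro ω ω'; ext v; simp only [Set.mem_inter_iff, mem_sp]; tauto
  have e2 : ∀ ω ω' : Set V, sp N ω ω' \ N = ω' \ N := by
    intro ω ω'; ext v; simp only [Set.mem_sdiff, mem_sp]; tauto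
  simp only [e1, e2, Ex_mul_left, Ex_mul_right]

open Classical in
/-- weights with the sites of `S` frozen as in `ξ` -/
noncomputable def pin (q : V → ℝ) (S ξ : Set V) : V → ℝ :=
  fun v => if v ∈ S then (if v ∈ ξ then 1 else 0) else q v

omit [DecidableEq V] in
theorem pin_ok {q : V → ℝ} (hq : Ok q) (S ξ : Set V) : Ok (pin q S ξ) := by
  intro v
  unfold pin
  split_ifs
  · norm_num
  · norm_num
  · exact hq v

omit [DecidableEq V] in
theorem pin_of_not_mem (q : V → ℝ) {S : Set V} (ξ : Set V) {v : V} (h : v ∉ S) :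
    pin q S ξ v = q v := by simp [pin, h]

theorem Ex_pin (U : Finset V) (q : V → ℝ) (S ξ : Set V) (F : Set V → ℝ) :
    Ex U (pin q S ξ) F = Ex U q (fun ω => F (sp S (ξ ∩ ↑U) ω)) := by
  induction U using Finset.induction_on generalizing F with
  | empty =>
    rw [Ex_empty, Ex_empty]
    congr 1; ext v; simp [mem_sp]
  | insert v U h ih =>
    rw [Ex_insert h, Ex_insert h, ih, ih]
    by_cases hS : v ∈ S
    · by_cases hξ : v ∈ ξ
      · have e1 : ∀ ω : Set V, sp S (ξ ∩ ↑(insert v U)) (insert v ω) =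
            insert v (sp S (ξ ∩ ↑U) ω) := by
          intro ω; ext u
          simp only [mem_sp, Set.mem_inter_iff, coe_insert, Set.mem_insert_iff, mem_coe]
          by_cases hu : u = v
          · subst hu; tauto
          · tauto
        have e2 : ∀ ω : Set V, sp S (ξ ∩ ↑(insert v U)) ω = insert v (sp S (ξ ∩ ↑U) ω) := by
          intro ω; ext u
          simp only [mem_sp, Set.mem_inter_iff, coe_insert, Set.mem_insert_iff, mem_coe]
          by_cases hu : u = v
          · subst hu; tauto
          · tauto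
        simp only [e1, e2, pin, hS, hξ, if_true]; ring
      · have e1 : ∀ ω : Set V, sp S (ξ ∩ ↑(insert v U)) (insert v ω) = sp S (ξ ∩ ↑U) ω := by
          intro ω; ext u
          simp only [mem_sp, Set.mem_inter_iff, coe_insert, Set.mem_insert_iff, mem_coe]
          by_cases hu : u = v
          · subst hu; tauto
          · tauto
        have e2 : ∀ ω : Set V, sp S (ξ ∩ ↑(insert v U)) ω = sp S (ξ ∩ ↑U) ω := by
          intro ω; ext u
          simp only [mem_sp, Set.mem_inter_iff, coe_insert, Set.mem_insert_iff, mem_coe]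
          by_cases hu : u = v
          · subst hu; tauto
          · tauto
        simp only [e1, e2, pin, hS, hξ, if_true, if_false]; ring
    · have e1 : ∀ ω : Set V, sp S (ξ ∩ ↑(insert v U)) (insert v ω) =
          insert v (sp S (ξ ∩ ↑U) ω) := by
        intro ω; ext u
        simp only [mem_sp, Set.mem_inter_iff, coe_insert, Set.mem_insert_iff, mem_coe]
        by_cases hu : u = v
        · subst hu; tauto
        · tauto
      have e2 : ∀ ω : Set V, sp S (ξ ∩ ↑(insert v U)) ω = sp S (ξ ∩ ↑U) ω := by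
        intro ω; ext u
        simp only [mem_sp, Set.mem_inter_iff, coe_insert, Set.mem_insert_iff, mem_coe]
        by_cases hu : u = v
        · subst hu; tauto
        · tauto
      simp only [e1, e2, pin, hS, if_false]

theorem Ex_congr_q {U : Finset V} {q q' : V → ℝ} (h : ∀ v ∈ U, q v = q' v) (F : Set V → ℝ) :
    Ex U q F = Ex U q' F := by
  unfold Ex wt
  refine sum_congr rfl fun s _ => ?_
  congr 1
  exact prod_congr rfl fun v hv => by rw [h v hv]

theorem Ex_local {W U : Finset V} (hWU : W ⊆ U) (q : V → ℝ) (F : Set V → ℝ) :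
    Ex U q (fun ω => F (ω ∩ ↑W)) = Ex W q F := by
  induction hWU' : U \ W using Finset.induction_on generalizing U with
  | empty =>
    have : U = W := Subset.antisymm (sdiff_eq_empty_iff_subset.1 hWU') hWU
    subst this
    exact Ex_congr q fun ω hω => by rw [Set.inter_eq_left.2 hω]
  | insert v T hv ih =>
    have hvU : v ∈ U \ W := hWU' ▸ mem_insert_self v T
    have hvU' := mem_sdiff.1 hvU
    have e : U = insert v (U.erase v) := (insert_erase hvU'.1).symm
    have hW : W ⊆ U.erase v := fun u hu =>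
      mem_erase.2 ⟨fun e => hvU'.2 (e ▸ hu), hWU hu⟩
    have hT : U.erase v \ W = T := by
      rw [erase_sdiff_comm, hWU', erase_insert hv]
    rw [e, Ex_insert (notMem_erase v U), ih hW hT]
    have e2 : ∀ ω : Set V, insert v ω ∩ ↑W = ω ∩ ↑W := by
      intro ω; ext u
      simp only [Set.mem_inter_iff, Set.mem_insert_iff, mem_coe]
      by_cases hu : u = v
      · subst hu; have := hvU'.2; tauto
      · tauto
    simp only [e2]
    rw [ih hW hT]; ring

theorem Ex_mono_q (U : Finset V) {q q' : V → ℝ} (hq : Ok q) (hq' : Ok q') (h : ∀ v, q v ≤ q' v)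
    {F : Set V → ℝ} (hF : Monotone F) : Ex U q F ≤ Ex U q' F := by
  induction U using Finset.induction_on generalizing F with
  | empty => simp [Ex_empty]
  | insert v U hv ih =>
    rw [Ex_insert hv, Ex_insert hv]
    have hF' : Monotone (fun ω : Set V => F (insert v ω)) :=
      fun a b hab => hF (Set.insert_subset_insert hab)
    have h1 := ih hF'
    have h0 := ih hF
    have a1 : Ex U q' F ≤ Ex U q' (fun ω => F (insert v ω)) :=
      Ex_mono U hq' fun ω => hF (Set.subset_insert v ω)
    have q0 := (hq v).1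
    have q1 : 0 ≤ 1 - q v := by linarith [(hq v).2]
    have k1 := mul_le_mul_of_nonneg_left h1 q0
    have k0 := mul_le_mul_of_nonneg_left h0 q1
    have k := mul_nonneg (sub_nonneg.2 (h v)) (sub_nonneg.2 a1)
    nlinarith

theorem Ex_continuous (U : Finset V) (Q : ℝ → V → ℝ) (hQ : ∀ v, Continuous fun t => Q t v)
    (F : Set V → ℝ) : Continuous fun t => Ex U (Q t) F := by
  unfold Ex wt
  refine continuous_finsetSum _ fun s _ => Continuous.mul ?_ continuous_const
  refine continuous_finsetProd _ fun v _ => ?_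
  split_ifs
  · exact hQ v
  · exact continuous_const.sub (hQ v)

theorem Ex_equiv (e : V ≃ V) (U : Finset V) (p : ℝ) (F : Set V → ℝ) :
    Ex (U.image e) (fun _ => p) F = Ex U (fun _ => p) (fun ω => F (e '' ω)) := by
  induction U using Finset.induction_on generalizing F with
  | empty => simp [Ex_empty]
  | insert v U hv ih =>
    have hv' : e v ∉ U.image e := by
      intro h
      obtain ⟨u, hu, he⟩ := mem_image.1 h
      exact hv (e.injective he ▸ hu)
    rw [image_insert, Ex_insert hv', Ex_insert hv, ih, ih]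
    simp only [Set.image_insert_eq]

theorem wt_le_Ex (U : Finset V) {q : V → ℝ} (hq : Ok q) {F : Set V → ℝ} (hF : ∀ ω, 0 ≤ F ω) :
    wt U q ∅ * F ∅ ≤ Ex U q F := by
  have := single_le_sum (f := fun s : Finset V => wt U q s * F ↑s) (s := U.powerset)
    (fun s _ => mul_nonneg (wt_nonneg hq U s) (hF _)) (empty_mem_powerset U)
  simpa [Ex] using this

theorem wt_empty_pos (U : Finset V) {q : V → ℝ} (hq : ∀ v, q v < 1) : 0 < wt U q ∅ := by
  unfold wt
  refine prod_pos fun v _ => ?_
  simp [hq v]

theorem Ex_all_open {K U : Finset V} (h : K ⊆ U) (q : V → ℝ) :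
    Ex U q (fun ω => ind ((↑K : Set V) ⊆ ω)) = ∏ v ∈ K, q v := by
  have : Ex U q (fun ω => ind ((↑K : Set V) ⊆ ω)) =
      Ex U q (fun ω => ind ((↑K : Set V) ⊆ ω ∩ ↑K)) :=
    Ex_congr q fun ω _ => ind_congr (by simp)
  rw [this, Ex_local h q (fun ω => ind ((↑K : Set V) ⊆ ω))]
  clear this h
  induction K using Finset.induction_on with
  | empty => simp [Ex_empty, ind_pos]
  | insert v K hv ih =>
    rw [Ex_insert hv, prod_insert hv, ← ih]
    have e1 : Ex K q (fun ω => ind ((↑(insert v K) : Set V) ⊆ insert v ω)) =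
        Ex K q (fun ω => ind ((↑K : Set V) ⊆ ω)) := by
      refine Ex_congr q fun ω _ => ind_congr ?_
      rw [coe_insert]
      constructor
      · intro hh u hu
        rcases hh (Set.mem_insert_of_mem v hu) with e | e
        · exact absurd (e ▸ hu) hv
        · exact e
      · exact fun hh => Set.insert_subset_insert hh
    have e2 : Ex K q (fun ω => ind ((↑(insert v K) : Set V) ⊆ ω)) = 0 := by
      rw [← Ex_const K q 0]
      refine Ex_congr q fun ω hω => ind_neg fun hh => hv ?_
      exact hω (hh (by simp))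
    rw [e1, e2]; ring

theorem Ex_all_closed {K U : Finset V} (h : K ⊆ U) (q : V → ℝ) :
    Ex U q (fun ω => ind (∀ v ∈ K, v ∉ ω)) = ∏ v ∈ K, (1 - q v) := by
  have : Ex U q (fun ω => ind (∀ v ∈ K, v ∉ ω)) =
      Ex U q (fun ω => ind (∀ v ∈ K, v ∉ ω ∩ ↑K)) :=
    Ex_congr q fun ω _ => ind_congr (by
      constructor
      · intro hh v hv e; exact hh v hv e.1
      · intro hh v hv e; exact hh v hv ⟨e, hv⟩)
  rw [this, Ex_local h q (fun ω => ind (∀ v ∈ K, v ∉ ω))]
  clear this h
  induction K using Finset.induction_on with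
  | empty => simp [Ex_empty, ind_pos]
  | insert v K hv ih =>
    rw [Ex_insert hv, prod_insert hv, ← ih]
    have e1 : Ex K q (fun ω => ind (∀ u ∈ insert v K, u ∉ insert v ω)) = 0 := by
      rw [← Ex_const K q 0]
      exact Ex_congr q fun ω _ => ind_neg fun hh => hh v (by simp) (by simp)
    have e2 : Ex K q (fun ω => ind (∀ u ∈ insert v K, u ∉ ω)) =
        Ex K q (fun ω => ind (∀ u ∈ K, u ∉ ω)) := by
      refine Ex_congr q fun ω hω => ind_congr ?_
      constructor
      · intro hh u hu; exact hh u (mem_insert_of_mem hu)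
      · intro hh u hu
        rcases mem_insert.1 hu with e | e
        · subst e; exact fun e => hv (hω e)
        · exact hh u e
    rw [e1, e2]; ring

end Pool.Agent.H913Z.Perc
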