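import Pool.Agent.H913Z.Perc.Target

/-! Boxes, faces and symmetries of the lattice. -/

namespace Pool.Agent.H913Z.Perc
open Finset

/-- the lattice graph: Euclidean distance one -/
def zd (d : ℕ) : SimpleGraph (Fin d → ℤ) where
  Adj x y := ∑ i, (x i - y i) ^ 2 = 1
  symm := ⟨fun x y h => by
    rw [← h]; exact sum_congr rfl fun i _ => by ring⟩
  loopless := ⟨fun x h => by simp at h⟩

variable {d : ℕ}

theorem zd_adj {x y : Fin d → ℤ} : (zd d).Adj x y ↔ ∑ i, (x i - y i) ^ 2 = 1 := Iff.rfl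

theorem adj_coord {x y : Fin d → ℤ} (h : (zd d).Adj x y) (i : Fin d) :
    x i ≤ y i + 1 ∧ y i ≤ x i + 1 := by
  have := single_le_sum (f := fun i => (x i - y i) ^ 2) (s := univ) (fun i _ => sq_nonneg _)
    (mem_univ i)
  rw [zd_adj.1 h] at this
  constructor <;> nlinarith

theorem adj_of_step {x y : Fin d → ℤ} (i : Fin d) (h : ∀ j, j ≠ i → x j = y j)
    (hi : y i = x i + 1 ∨ x i = y i + 1) : (zd d).Adj x y := by
  rw [zd_adj, sum_eq_single i (fun j _ hj => by rw [h j hj]; ring) (fun h => absurd (mem_univ i) h)]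
  rcases hi with e | e <;> rw [e] <;> ring

/-- box with centre `c` and half-widths `w` -/
noncomputable def box (c w : Fin d → ℤ) : Finset (Fin d → ℤ) :=
  Fintype.piFinset fun i => Icc (c i - w i) (c i + w i)

theorem mem_box {c w x : Fin d → ℤ} : x ∈ box c w ↔ ∀ i, c i - w i ≤ x i ∧ x i ≤ c i + w i := by
  simp [box]

/-- cube -/
noncomputable def cube (c : Fin d → ℤ) (r : ℕ) : Finset (Fin d → ℤ) := box c fun _ => r

theorem mem_cube {c x : Fin d → ℤ} {r : ℕ} :
    x ∈ cube c r ↔ ∀ i, c i - r ≤ x i ∧ x i ≤ c i + r := mem_box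

theorem card_cube (c : Fin d → ℤ) (r : ℕ) : (cube c r).card = (2 * r + 1) ^ d := by
  unfold cube box
  rw [Fintype.card_piFinset]
  have : ∀ i, (Icc (c i - r) (c i + r)).card = 2 * r + 1 := by
    intro i; rw [Int.card_Icc]; omega
  simp [this]

theorem cube_zero (c : Fin d → ℤ) : (↑(cube c 0) : Set (Fin d → ℤ)) = {c} := by
  ext x
  simp only [mem_coe, mem_cube, Set.mem_singleton_iff, funext_iff]
  exact forall_congr' fun i => by omega

theorem box_conn {c w : Fin d → ℤ} {ω : Set (Fin d → ℤ)} (hω : ↑(box c w) ⊆ ω)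
    {z y : Fin d → ℤ} (hz : z ∈ box c w) (hy : y ∈ box c w) : R (zd d) ω z y := by
  induction hn : ∑ i, (y i - z i).natAbs generalizing y with
  | zero =>
    have : y = z := by
      ext i
      have := (sum_eq_zero_iff.1 hn) i (mem_univ i)
      omega
    exact this ▸ R.refl _ _
  | succ n ih =>
    obtain ⟨i, -, hi⟩ := exists_ne_zero_of_sum_ne_zero (s := univ)
      (f := fun i => (y i - z i).natAbs) (by omega)
    have hzi := mem_box.1 hz i
    have hyi := mem_box.1 hy i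
    let y' := Function.update y i (if z i < y i then y i - 1 else y i + 1)
    have hy' : y' ∈ box c w := by
      rw [mem_box]
      intro j
      by_cases hj : j = i
      · subst hj; simp only [y', Function.update_self]; split_ifs <;> omega
      · simp only [y', Function.update_of_ne hj]; exact mem_box.1 hy j
    have hs : ∑ j, (y' j - z j).natAbs = n := by
      rw [← add_sum_erase univ _ (mem_univ i)] at hn ⊢
      have : ∑ j ∈ univ.erase i, (y' j - z j).natAbs = ∑ j ∈ univ.erase i, (y j - z j).natAbs :=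
        sum_congr rfl fun j hj => by simp only [y', Function.update_of_ne (ne_of_mem_erase hj)]
      rw [this]
      simp only [y', Function.update_self]
      split_ifs <;> omega
    refine (ih hy' hs).tail (adj_of_step i (fun j hj => Function.update_of_ne hj _ _) ?_)
      (hω hy') (hω hy)
    simp only [y', Function.update_self]
    split_ifs <;> omega

/-- an orthant of a face of the cube of radius `l` about `v` -/
def face (v : Fin d → ℤ) (l : ℕ) (i : Fin d) (σ : Fin d → Bool) : Set (Fin d → ℤ) :=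
  {x | (∀ j, if σ j then v j ≤ x j ∧ x j ≤ v j + l else v j - l ≤ x j ∧ x j ≤ v j) ∧
    x i = if σ i then v i + l else v i - l}

/-- probability that the small cube is not joined to the face -/
noncomputable def fail (p : ℝ) (m l : ℕ) (v : Fin d → ℤ) (i : Fin d) (σ : Fin d → Bool) : ℝ :=
  Ex (cube v l) (fun _ => p) (fun ω => ind (∀ t ∈ face v l i σ, t ∉ O (zd d) ↑(cube v m) ω))

/-- signed permutation followed by a translation -/
def symE (v : Fin d → ℤ) (i0 i : Fin d) (σ : Fin d → Bool) : (Fin d → ℤ) ≃ (Fin d → ℤ) where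
  toFun x j := if σ j then v j + x (Equiv.swap i0 i j) else v j - x (Equiv.swap i0 i j)
  invFun y j := if σ (Equiv.swap i0 i j) then y (Equiv.swap i0 i j) - v (Equiv.swap i0 i j)
    else v (Equiv.swap i0 i j) - y (Equiv.swap i0 i j)
  left_inv x := by
    ext j; simp only [Equiv.swap_apply_self]; split_ifs <;> ring
  right_inv y := by
    ext j; simp only [Equiv.swap_apply_self]; split_ifs <;> ring

theorem symE_apply (v : Fin d → ℤ) (i0 i : Fin d) (σ : Fin d → Bool) (x : Fin d → ℤ) (j : Fin d) :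
    symE v i0 i σ x j =
      if σ j then v j + x (Equiv.swap i0 i j) else v j - x (Equiv.swap i0 i j) := rfl

theorem symE_adj (v : Fin d → ℤ) (i0 i : Fin d) (σ : Fin d → Bool) (x y : Fin d → ℤ) :
    (zd d).Adj (symE v i0 i σ x) (symE v i0 i σ y) ↔ (zd d).Adj x y := by
  rw [zd_adj, zd_adj, ← Equiv.sum_comp (Equiv.swap i0 i) (fun j => (x j - y j) ^ 2)]
  have : ∀ j, (symE v i0 i σ x j - symE v i0 i σ y j) ^ 2 =
      (x (Equiv.swap i0 i j) - y (Equiv.swap i0 i j)) ^ 2 := by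
    intro j; simp only [symE_apply]; split_ifs <;> ring
  simp only [this]

theorem symE_cube (v : Fin d → ℤ) (i0 i : Fin d) (σ : Fin d → Bool) (x : Fin d → ℤ) (r : ℕ) :
    symE v i0 i σ x ∈ cube v r ↔ x ∈ cube 0 r := by
  rw [mem_cube, mem_cube, ← (Equiv.swap i0 i).forall_congr_right (q := fun j =>
    (0 : Fin d → ℤ) j - r ≤ x j ∧ x j ≤ (0 : Fin d → ℤ) j + r)]
  refine forall_congr' fun j => ?_
  simp only [symE_apply, Pi.zero_apply]
  split_ifs <;> omega

theorem symE_face (v : Fin d → ℤ) (i0 i : Fin d) (σ : Fin d → Bool) (x : Fin d → ℤ) (l : ℕ) :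
    symE v i0 i σ x ∈ face v l i σ ↔ x ∈ face 0 l i0 (fun _ => true) := by
  simp only [face, Set.mem_ofPred_eq, if_true, Pi.zero_apply]
  rw [← (Equiv.swap i0 i).forall_congr_right (q := fun j => 0 ≤ x j ∧ x j ≤ 0 + l)]
  refine and_congr (forall_congr' fun j => ?_) ?_
  · simp only [symE_apply]
    split_ifs <;> omega
  · simp only [symE_apply, Equiv.swap_apply_right]
    split_ifs <;> omega

theorem R_map {V : Type*} {G : SimpleGraph V} (f : V → V)
    (hf : ∀ a b, G.Adj a b → G.Adj (f a) (f b)) {ω ω' : Set V} (hω : ∀ a ∈ ω, f a ∈ ω')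
    {a b : V} (h : R G ω a b) : R G ω' (f a) (f b) := by
  induction h with
  | refl => exact R.refl _ _
  | tail _ hs ih => exact ih.tail (hf _ _ hs.1) (hω _ hs.2.1) (hω _ hs.2.2)

theorem O_equiv {V : Type*} {G : SimpleGraph V} (e : V ≃ V)
    (he : ∀ a b, G.Adj (e a) (e b) ↔ G.Adj a b) {S S' : Set V} (hS : ∀ a, e a ∈ S' ↔ a ∈ S)
    (ω : Set V) (x : V) : e x ∈ O G S' (e '' ω) ↔ x ∈ O G S ω := by
  constructor
  · rintro ⟨h1, s, hs, h⟩
    have hω : ∀ a ∈ e '' ω, e.symm a ∈ ω := by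
      rintro _ ⟨a, ha, rfl⟩; simpa using ha
    have := R_map (G := G) e.symm (fun a b hab => (he _ _).1 (by simpa using hab)) hω h
    rw [e.symm_apply_apply] at this
    exact ⟨by simpa using hω _ h1, e.symm s, (hS _).1 (by simpa using hs), this⟩
  · rintro ⟨h1, s, hs, h⟩
    exact ⟨⟨x, h1, rfl⟩, e s, (hS s).2 hs,
      R_map e (fun a b hab => (he a b).2 hab) (fun a ha => Set.mem_image_of_mem e ha) h⟩

theorem fail_symm (p : ℝ) (m l : ℕ) (v : Fin d → ℤ) (i0 i : Fin d) (σ : Fin d → Bool) :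
    fail p m l v i σ = fail p m l 0 i0 (fun _ => true) := by
  have e1 : cube v l = (cube 0 l).image (symE v i0 i σ) := by
    ext x
    obtain ⟨y, rfl⟩ := (symE v i0 i σ).surjective x
    rw [symE_cube, (symE v i0 i σ).injective.mem_finset_image]
  unfold fail
  rw [e1, Ex_equiv]
  refine Ex_congr _ fun ω _ => ind_congr ?_
  rw [← (symE v i0 i σ).forall_congr_right]
  refine forall_congr' fun x => ?_
  rw [symE_face, O_equiv (symE v i0 i σ) (symE_adj v i0 i σ) (S := ↑(cube (0 : Fin d → ℤ) m))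
    (fun a => symE_cube v i0 i σ a m)]

/-- the boundary of the cube of radius `l` about the origin -/
def sph (d l : ℕ) : Set (Fin d → ℤ) := {x | x ∈ cube 0 l ∧ ∃ i, x i = l ∨ x i = -l}

theorem sph_face {l : ℕ} {x : Fin d → ℤ} (h : x ∈ sph d l) :
    ∃ a : Fin d × (Fin d → Bool), x ∈ face 0 l a.1 a.2 := by
  obtain ⟨h1, i, hi⟩ := h
  refine ⟨(i, fun j => decide (0 ≤ x j)), fun j => ?_, ?_⟩
  · have := mem_cube.1 h1 j
    simp only [Pi.zero_apply, decide_eq_true_eq] at this ⊢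
    split_ifs <;> omega
  · simp only [Pi.zero_apply, decide_eq_true_eq]
    split_ifs <;> omega

theorem face_sph {l : ℕ} {x : Fin d → ℤ} {i : Fin d} {σ : Fin d → Bool} (h : x ∈ face 0 l i σ) :
    x ∈ sph d l := by
  obtain ⟨h1, h2⟩ := h
  refine ⟨mem_cube.2 fun j => ?_, i, ?_⟩
  · have := h1 j
    simp only [Pi.zero_apply] at this ⊢
    split_ifs at this <;> omega
  · simp only [Pi.zero_apply] at h2
    split_ifs at h2 <;> omega

theorem harris_prod {V ι : Type*} [DecidableEq V] (U : Finset V) {q : V → ℝ} (hq : Ok q)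
    (s : Finset ι) (F : ι → Set V → ℝ) (hF : ∀ i, Antitone (F i)) (h0 : ∀ i ω, 0 ≤ F i ω) :
    ∏ i ∈ s, Ex U q (F i) ≤ Ex U q (fun ω => ∏ i ∈ s, F i ω) := by
  classical
  induction s using Finset.induction_on with
  | empty => simp [Ex_const]
  | insert a s ha ih =>
    simp only [prod_insert ha]
    refine le_trans (mul_le_mul_of_nonneg_left ih (Ex_nonneg U hq (h0 a)))
      (harris_anti U hq (hF a) fun x y hxy => ?_)
    exact prod_le_prod (fun i _ => h0 i y) (fun i _ => hF i hxy)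

/-- probability that the small cube is joined to the boundary of the large one -/
noncomputable def th (d : ℕ) (p : ℝ) (m l : ℕ) : ℝ :=
  Ex (cube 0 l) (fun _ => p) (fun ω => ind (∃ t ∈ sph d l, t ∈ O (zd d) ↑(cube (0 : Fin d → ℤ) m) ω))

theorem ok_const {V : Type*} {p : ℝ} (h0 : 0 ≤ p) (h1 : p ≤ 1) : Ok (fun _ : V => p) :=
  fun _ => ⟨h0, h1⟩

theorem sqrt_trick {p : ℝ} (h0 : 0 ≤ p) (h1 : p ≤ 1) (m l : ℕ) (i0 : Fin d) :
    fail p m l 0 i0 (fun _ => true) ^ Fintype.card (Fin d × (Fin d → Bool)) ≤ 1 - th d p m l := by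
  have h := harris_prod (cube 0 l) (ok_const h0 h1) (univ : Finset (Fin d × (Fin d → Bool)))
    (fun a ω => ind (∀ t ∈ face 0 l a.1 a.2, t ∉ O (zd d) ↑(cube (0 : Fin d → ℤ) m) ω))
    (fun a x y hxy => ind_mono fun h t ht e => h t ht (O_mono hxy le_rfl e))
    (fun _ _ => ind_nonneg _)
  have e : ∀ a : Fin d × (Fin d → Bool), Ex (cube 0 l) (fun _ => p)
      (fun ω => ind (∀ t ∈ face 0 l a.1 a.2, t ∉ O (zd d) ↑(cube (0 : Fin d → ℤ) m) ω)) =
      fail p m l 0 i0 (fun _ => true) := fun a => fail_symm p m l 0 i0 a.1 a.2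
  simp only [e, prod_const, card_univ] at h
  refine h.trans ?_
  unfold th
  rw [← Ex_const (cube (0 : Fin d → ℤ) l) (fun _ => p) 1, ← Ex_sub]
  refine Ex_mono _ (ok_const h0 h1) fun ω => ?_
  by_cases hc : ∃ t ∈ sph d l, t ∈ O (zd d) ↑(cube (0 : Fin d → ℤ) m) ω
  · obtain ⟨t, ht, ht'⟩ := hc
    obtain ⟨a, ha⟩ := sph_face ht
    rw [prod_eq_zero (mem_univ a) (ind_neg fun h => h t ha ht')]
    linarith [ind_le_one (∃ t ∈ sph d l, t ∈ O (zd d) ↑(cube (0 : Fin d → ℤ) m) ω)]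
  · rw [ind_neg hc, sub_zero]
    exact prod_le_one (fun _ _ => ind_nonneg _) (fun _ _ => ind_le_one _)

theorem union_trick {p : ℝ} (h0 : 0 ≤ p) (h1 : p ≤ 1) (m l : ℕ) (i0 : Fin d) :
    th d p m l ≤
      Fintype.card (Fin d × (Fin d → Bool)) * (1 - fail p m l 0 i0 (fun _ => true)) := by
  have e : ∀ a : Fin d × (Fin d → Bool), Ex (cube 0 l) (fun _ => p)
      (fun ω => 1 - ind (∀ t ∈ face 0 l a.1 a.2, t ∉ O (zd d) ↑(cube (0 : Fin d → ℤ) m) ω)) =
      1 - fail p m l 0 i0 (fun _ => true) := fun a => by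
    rw [Ex_sub, Ex_const, ← fail_symm p m l 0 i0 a.1 a.2]; rfl
  have h := Ex_sum (cube 0 l) (fun _ => p) (univ : Finset (Fin d × (Fin d → Bool)))
    (fun a ω => 1 - ind (∀ t ∈ face 0 l a.1 a.2, t ∉ O (zd d) ↑(cube (0 : Fin d → ℤ) m) ω))
  simp only [e, sum_const, card_univ, nsmul_eq_mul] at h
  rw [← h]
  refine Ex_mono _ (ok_const h0 h1) fun ω => ?_
  have hn : ∀ a : Fin d × (Fin d → Bool),
      0 ≤ 1 - ind (∀ t ∈ face 0 l a.1 a.2, t ∉ O (zd d) ↑(cube (0 : Fin d → ℤ) m) ω) :=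
    fun a => sub_nonneg.2 (ind_le_one _)
  by_cases hc : ∃ t ∈ sph d l, t ∈ O (zd d) ↑(cube (0 : Fin d → ℤ) m) ω
  · obtain ⟨t, ht, ht'⟩ := hc
    obtain ⟨a, ha⟩ := sph_face ht
    refine le_trans ?_ (single_le_sum (fun a _ => hn a) (mem_univ a))
    rw [ind_neg (P := ∀ t ∈ face 0 l a.1 a.2, t ∉ O (zd d) ↑(cube (0 : Fin d → ℤ) m) ω)
      fun h => h t ha ht', sub_zero]
    exact ind_le_one _
  · rw [ind_neg hc]
    exact sum_nonneg fun a _ => hn a

theorem reach_sph {ω : Set (Fin d → ℤ)} {t : Fin d → ℤ} {k : ℕ} (ht : t ∈ O (zd d) {0} ω)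
    (hk : ∃ i, (k : ℤ) ≤ t i ∨ t i ≤ -k) :
    ∃ s ∈ sph d k, s ∈ O (zd d) {0} (ω ∩ ↑(cube (0 : Fin d → ℤ) k)) := by
  have h0 : (0 : Fin d → ℤ) ∈ (↑(cube (0 : Fin d → ℤ) k) : Set (Fin d → ℤ)) :=
    mem_cube.2 fun i => by simp
  rcases R_exit h0 (Rs_singleton.1 ht.2) with h | ⟨z, y, h1, h2, h3, h4, -, h6⟩
  · refine ⟨t, ⟨h.1, ?_⟩, ⟨ht.1, h.1⟩, Rs_singleton.2 h.2⟩
    obtain ⟨i, hi⟩ := hk
    have := mem_cube.1 h.1 i
    simp only [Pi.zero_apply] at this
    exact ⟨i, by omega⟩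
  · refine ⟨z, ⟨h3, ?_⟩, ⟨h2, h3⟩, Rs_singleton.2 h1⟩
    rw [mem_coe, mem_cube, not_forall] at h6
    obtain ⟨i, hi⟩ := h6
    have := mem_cube.1 h3 i
    have := adj_coord h4 i
    simp only [Pi.zero_apply] at *
    exact ⟨i, by omega⟩

theorem th_mul {p : ℝ} (h0 : 0 ≤ p) (h1 : p ≤ 1) {k l : ℕ} (h : k < l) :
    th d p 0 l ≤ th d p 0 k * th d p (k + 1) l := by
  have hq : Ok (fun _ : Fin d → ℤ => p) := ok_const h0 h1
  have hsub : cube (0 : Fin d → ℤ) k ⊆ cube 0 l := fun x hx => mem_cube.2 fun i => by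
    have := mem_cube.1 hx i
    omega
  have hi := indep (cube 0 l) (fun _ => p) ↑(cube (0 : Fin d → ℤ) k)
    (fun ω => ind (∃ t ∈ sph d k, t ∈ O (zd d) ↑(cube (0 : Fin d → ℤ) 0) ω))
    (fun ω => ind (∃ t ∈ sph d l, t ∈ O (zd d) ↑(cube (0 : Fin d → ℤ) (k + 1)) ω))
  rw [Ex_local hsub _ (fun ω => ind (∃ t ∈ sph d k, t ∈ O (zd d) ↑(cube (0 : Fin d → ℤ) 0) ω))] at hi
  have h2 : Ex (cube 0 l) (fun _ => p) (fun ω => ind (∃ t ∈ sph d l,
      t ∈ O (zd d) ↑(cube (0 : Fin d → ℤ) (k + 1)) (ω \ ↑(cube (0 : Fin d → ℤ) k)))) ≤ th d p (k + 1) l :=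
    Ex_mono _ hq fun ω => ind_mono fun ⟨t, ht, ht'⟩ =>
      ⟨t, ht, O_mono Set.sdiff_subset le_rfl ht'⟩
  refine le_trans ?_ (mul_le_mul_of_nonneg_left h2 (Ex_nonneg _ hq fun _ => ind_nonneg _))
  refine le_trans (Ex_mono _ hq fun ω => ?_) hi.le
  rw [← ind_and, cube_zero]
  refine ind_mono fun ⟨t, ht, ht'⟩ => ?_
  obtain ⟨i, hi⟩ := ht.2
  refine ⟨reach_sph ht' ⟨i, by omega⟩, t, ht, ?_⟩
  have hn : t ∈ (↑(cube (0 : Fin d → ℤ) k) : Set (Fin d → ℤ))ᶜ := fun e => by
    have := mem_cube.1 e i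
    simp only [Pi.zero_apply] at this
    omega
  rcases R_exit hn (Rs_singleton.1 ht'.2).symm with h | ⟨z, y, e1, e2, e3, e4, -, e6⟩
  · exact absurd (mem_cube.2 fun i => by simp) h.1
  · refine ⟨⟨ht'.1, hn⟩, z, mem_cube.2 fun j => ?_, e1.symm⟩
    have := mem_cube.1 (not_not.1 e6) j
    have := adj_coord e4 j
    push_cast
    omega

end Pool.Agent.H913Z.Perc
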