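import Pool.Agent.H913Z.Perc.Geo1
import Pool.Agent.H913Z.Perc.Explore

/-! Steering moves and corridors. -/

namespace Pool.Agent.H913Z.Perc
open Finset

variable {d : ℕ}

/-- the cluster of the origin meets `S` -/
def hit (S : Finset (Fin d → ℤ)) (ω : Set (Fin d → ℤ)) : Prop := ∃ b ∈ S, b ∈ O (zd d) {0} ω

/-- one steering move fails with probability at most `η` -/
def Move (d : ℕ) (p η : ℝ) (r l : ℕ) : Prop :=
  ∀ (U : Finset (Fin d → ℤ)) (q : (Fin d → ℤ) → ℝ) (c w c' w' : Fin d → ℤ), Ok q →
    (∀ v ∈ box c (fun i => w i + r + l), v ∈ U ∧ q v = p) → (∀ i, 0 ≤ w i) →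
    (0 : Fin d → ℤ) ∉ box c (fun i => w i + r) →
    (∀ v ∈ box c (fun i => w i + r), ∃ i σ, face v l i σ ⊆ ↑(box c' w')) →
    Ex U q (fun ω => ind (hit (box c w) ω ∧ ¬ hit (box c' w') ω)) ≤ η

/-- nearest point of a box -/
def clamp (c w z : Fin d → ℤ) : Fin d → ℤ := fun i => max (c i - w i) (min (c i + w i) (z i))

theorem move_of {p δ δ' : ℝ} (hp0 : 0 ≤ p) (hp1 : p < 1) (hδ : 0 < δ) (m l J k : ℕ) (i0 : Fin d)
    (hf : fail p m l 0 i0 (fun _ => true) ≤ δ')
    (H1 : (1 - p ^ (2 * m + 1) ^ d) ^ k ≤ δ) (H2 : k * p ^ (2 * m + 1) ^ d * δ' ≤ δ ^ 2)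
    (H3 : 1 ≤ δ * J * (1 - p) ^ ((4 * m + 1) ^ d * k)) : Move d p (4 * δ) (m + J) l := by
  intro U q c w c' w' hq hU hw h0 hF
  have hin : ∀ j < J, ∀ v ∈ box c (fun i => w i + m + j), v ∈ box c (fun i => w i + (m + J : ℕ)) := by
    intro j hj v hv
    refine mem_box.2 fun i => ?_
    have := mem_box.1 hv i
    push_cast
    omega
  have hin2 : ∀ v ∈ box c (fun i => w i + (m + J : ℕ)),
      v ∈ box c (fun i => w i + (m + J : ℕ) + l) := by
    intro v hv
    refine mem_box.2 fun i => ?_
    have := mem_box.1 hv i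
    omega
  have hcl : ∀ j : ℕ, ∀ z ∈ box c (fun i => w i + m + j), ∀ i,
      c i - (w i + j) ≤ clamp c (fun i => w i + j) z i ∧
      clamp c (fun i => w i + j) z i ≤ c i + (w i + j) ∧
      clamp c (fun i => w i + j) z i - m ≤ z i ∧ z i ≤ clamp c (fun i => w i + j) z i + m := by
    intro j z hz i
    have := mem_box.1 hz i
    have := hw i
    simp only [clamp]
    omega
  have h := target (G := zd d) (U := U) (κ := Fin d → ZMod (4 * m + 1)) hq 0 ↑(box c' w')
    (fun j => box c (fun i => w i + m + j)) J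
    (fun a b hab v hv => mem_box.2 fun i => by
      have := mem_box.1 hv i
      omega)
    (fun j z hz y a => mem_box.2 fun i => by
      have := mem_box.1 hz i
      have := adj_coord a i
      push_cast
      omega)
    (fun j hj e => h0 (hin j hj _ e)) (fun j hj v hv => (hU v (hin2 v (hin j hj v hv))).1) hp1 hp0
    (fun j hj v hv => (hU v (hin2 v (hin j hj v hv))).2) (δ' := δ') hδ
    (fun j z => cube (clamp c (fun i => w i + j) z) m) (fun z i => (z i : ZMod (4 * m + 1))) k
    ((2 * m + 1) ^ d)
    (fun j _ z hz v hv => mem_box.2 fun i => by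
      have := mem_cube.1 hv i
      have := hcl j z hz i
      omega)
    (fun j _ z hz => mem_cube.2 fun i => (hcl j z hz i).2.2)
    (fun j _ z _ => card_cube _ _)
    (fun j _ z hz ω hω y hy => box_conn hω (mem_cube.2 fun i => (hcl j z hz i).2.2) hy)
    (fun j hj z hz => by
      set v := clamp c (fun i => w i + j) z with hv
      have hvb : v ∈ box c (fun i => w i + (m + J : ℕ)) := mem_box.2 fun i => by
        have := hcl j z hz i
        rw [← hv] at this
        push_cast
        omega
      obtain ⟨i, σ, hi⟩ := hF v hvb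
      have hs : ∀ u ∈ cube v l, u ∈ U ∧ q u = p := fun u hu => hU u (mem_box.2 fun i => by
        have := mem_box.1 hvb i
        have := mem_cube.1 hu i
        omega)
      rw [← fail_symm p m l v i0 i σ] at hf
      refine le_trans ?_ hf
      unfold fail
      rw [← Ex_congr_q (q := q) (fun u hu => (hs u hu).2), ← Ex_local (fun u hu => (hs u hu).1)]
      exact Ex_mono U hq fun ω => ind_mono fun h t ht e =>
        h t (hi ht) (O_mono Set.inter_subset_left le_rfl e))
    (fun j _ z hz z' hz' hne hc => by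
      rw [disjoint_left]
      intro y hy hy'
      apply hne
      ext i
      have h1 := mem_cube.1 hy i
      have h2 := mem_cube.1 hy' i
      have h3 := hcl j z hz i
      have h4 := hcl j z' hz' i
      have h5 := (ZMod.intCast_eq_intCast_iff_dvd_sub _ _ _).1 (congrFun hc i)
      have h6 := Int.eq_zero_of_abs_lt_dvd h5 (by rw [abs_lt]; push_cast; omega)
      omega)
    H1 H2 (by rw [Fintype.card_fun, ZMod.card, Fintype.card_fin]; exact H3)
  refine le_trans (Ex_mono U hq fun ω => ind_mono fun e => ⟨?_, fun t ht e' => e.2 ⟨t, ht, e'⟩⟩) h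
  obtain ⟨b, hb, hb'⟩ := e.1
  refine ⟨b, mem_box.2 fun i => ?_, hb'⟩
  have := mem_box.1 hb i
  push_cast
  omega

theorem chain {V : Type*} [DecidableEq V] {U : Finset V} {q : V → ℝ} (hq : Ok q)
    (P : ℕ → Set V → Prop) (η : ℝ) (n : ℕ)
    (h : ∀ k < n, Ex U q (fun ω => ind (P k ω ∧ ¬ P (k + 1) ω)) ≤ η) :
    Ex U q (fun ω => ind (P 0 ω ∧ ¬ P n ω)) ≤ n * η := by
  induction n with
  | zero => exact Ex_le_const U hq fun ω => by rw [ind_neg (by tauto)]; simp
  | succ n ih =>
    have := add_le_add (ih fun k hk => h k (by omega)) (h n (by omega))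
    rw [← Ex_add] at this
    push_cast
    rw [add_mul, one_mul]
    refine le_trans (Ex_mono U hq fun ω => ?_) this
    by_cases c : P n ω
    · rw [ind_neg (P := P 0 ω ∧ ¬ P n ω) (fun e => e.2 c), zero_add]
      exact ind_mono fun e => ⟨c, e.2⟩
    · rw [ind_neg (P := P n ω ∧ _) (fun e => c e.1), add_zero]
      exact ind_mono fun e => ⟨e.1, c⟩

/-- the block about a centre -/
noncomputable def blockQ (c : Fin d → ℤ) (l : ℕ) : Finset (Fin d → ℤ) :=
  Fintype.piFinset fun i => Ico (c i - 4 * l) (c i + 4 * l)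

theorem mem_blockQ {c x : Fin d → ℤ} {l : ℕ} :
    x ∈ blockQ c l ↔ ∀ i, c i - 4 * l ≤ x i ∧ x i < c i + 4 * l := by
  simp [blockQ]

theorem corridor {p η : ℝ} {r l : ℕ} (M : Move d p η r l) (hl : (9 + d) * r < l)
    {U : Finset (Fin d → ℤ)} {q : (Fin d → ℤ) → ℝ} (hq : Ok q) (c c' : Fin d → ℤ) (i i0 : Fin d)
    (D : ℤ) (hD : D = l ∨ D = -l) (hi : c' i = c i + 8 * D) (hj : ∀ j, j ≠ i → c' j = c j)
    (h0 : 3 * l ≤ c i0) (h0' : 3 * l ≤ c' i0)
    (hU : ∀ v, v ∈ blockQ c l ∨ v ∈ blockQ c' l → v ∈ U ∧ q v = p) :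
    Ex U q (fun ω => ind (hit (cube c (2 * l)) ω ∧ ¬ hit (cube c' (2 * l)) ω)) ≤ (8 + d) * η := by
  have hlz : (9 + d : ℤ) * r < l := by exact_mod_cast hl
  have hlz' : 9 * (r : ℤ) + d * r < l := by linarith
  have hr : (0 : ℤ) ≤ r := by positivity
  have hd : (0 : ℤ) ≤ d * r := by positivity
  have s1 := chain hq (fun n => hit (box (Function.update c i (c i + n * D))
    (fun _ => 2 * l + n * r))) η 8 (fun n hn => by
      have a0 : (0 : ℤ) ≤ n * r := by positivity
      have a1 : (n : ℤ) * r ≤ 7 * r := by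
        have : (n : ℤ) ≤ 7 := by omega
        nlinarith
      have b0 : (0 : ℤ) ≤ n * l := by positivity
      have b1 : (n : ℤ) * l ≤ 7 * l := by
        have : (n : ℤ) ≤ 7 := by omega
        nlinarith
      have e1 : ((n + 1 : ℕ) : ℤ) * r = n * r + r := by push_cast; ring
      have e2 : ((n + 1 : ℕ) : ℤ) * D = n * D + D := by push_cast; ring
      have e3 : (D = l ∧ n * D = n * l) ∨ (D = -l ∧ n * D = -(n * l)) := by
        rcases hD with e | e
        · exact Or.inl ⟨e, by rw [e]⟩
        · exact Or.inr ⟨e, by rw [e]; ring⟩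
      rw [e1, e2]
      generalize (n : ℤ) * r = a at *
      generalize (n : ℤ) * D = t at *
      generalize (n : ℤ) * l = b at *
      have hu : ∀ (s : ℤ) (j : Fin d), (j = i ∧ Function.update c i s j = s) ∨
          (j ≠ i ∧ Function.update c i s j = c j) := by
        intro s j
        by_cases h : j = i
        · subst h; simp
        · simp [h]
      refine M U q _ _ _ _ hq (fun v hv => hU v ?_) (fun _ => by omega) (fun e => ?_)
        (fun v hv => ?_)
      · rw [mem_box] at hv
        have hvi := hv i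
        rw [Function.update_self] at hvi
        by_cases hc : c i - 4 * l ≤ v i ∧ v i < c i + 4 * l
        · refine Or.inl (mem_blockQ.2 fun j => ?_)
          have := hv j
          rcases hu (c i + t) j with ⟨rfl, -⟩ | ⟨-, e⟩
          · exact hc
          · omega
        · refine Or.inr (mem_blockQ.2 fun j => ?_)
          have := hv j
          rcases hu (c i + t) j with ⟨rfl, -⟩ | ⟨hne, e⟩
          · omega
          · have := hj j hne
            omega
      · have := mem_box.1 e i0
        simp only [Pi.zero_apply] at this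
        rcases hu (c i + t) i0 with ⟨rfl, e⟩ | ⟨hne, e⟩ <;> omega
      · refine ⟨i, fun j => if j = i then decide (D = l) else decide (v j ≤ c j), fun x hx => ?_⟩
        refine mem_box.2 fun j => ?_
        have h1 := mem_box.1 hv j
        have h2 := hx.1 j
        have h3 := hx.2
        rcases hu (c i + t) j with ⟨rfl, e⟩ | ⟨hne, e⟩
        · simp only [if_true, decide_eq_true_eq, Function.update_self] at h1 h3 ⊢
          split_ifs at h3 <;> omega
        · simp only [hne, if_false, decide_eq_true_eq, Function.update_of_ne hne] at h1 h2 ⊢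
          split_ifs at h2 <;> omega)
  have s2 := chain hq (fun n => hit (box c'
    (fun j => (if j.val < n then l else 2 * l) + (8 + n) * r))) η d (fun n hn => by
      have a0 : (0 : ℤ) ≤ (8 + n) * r := by positivity
      have a1 : (8 + n : ℤ) * r + 2 * r ≤ (9 + d) * r := by
        have : (n : ℤ) + 1 ≤ d := by omega
        nlinarith
      have e1 : (8 + ((n + 1 : ℕ) : ℤ)) * r = (8 + n) * r + r := by push_cast; ring
      rw [e1]
      generalize (8 + n : ℤ) * r = a at *
      refine M U q _ _ _ _ hq (fun v hv => hU v (Or.inr (mem_blockQ.2 fun j => ?_)))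
        (fun j => by split_ifs <;> omega) (fun e => ?_) (fun v hv => ?_)
      · have := mem_box.1 hv j
        split_ifs at this <;> omega
      · have := mem_box.1 e i0
        simp only [Pi.zero_apply] at this
        split_ifs at this <;> omega
      · refine ⟨⟨n, hn⟩, fun j => decide (v j ≤ c' j), fun x hx => mem_box.2 fun j => ?_⟩
        have h1 := mem_box.1 hv j
        have h2 := hx.1 j
        have h3 := hx.2
        simp only [decide_eq_true_eq] at h2 h3
        by_cases hjn : j = ⟨n, hn⟩
        · subst hjn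
          simp only [lt_self_iff_false, if_false, Nat.lt_succ_self, if_true] at h1 ⊢
          split_ifs at h3 <;> omega
        · have : j.val ≠ n := fun e => hjn (Fin.ext e)
          split_ifs at h1 h2 ⊢ <;> omega)
  have e0 : Function.update c i (c i + (8 : ℕ) * D) = c' := by
    ext j
    by_cases h : j = i
    · subst h; simp [hi]
    · simp [h, hj j h]
  rw [e0] at s1
  simp only [Nat.cast_zero, zero_mul, add_zero, Function.update_eq_self, Nat.not_lt_zero,
    if_false, Fin.is_lt, if_true] at s1 s2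
  have s := add_le_add s1 s2
  rw [← Ex_add] at s
  refine le_trans (Ex_mono U hq fun ω => ?_) (s.trans (le_of_eq (by push_cast; ring)))
  have f1 : hit (cube c (2 * l)) ω → hit (box c fun _ => 2 * (l : ℤ)) ω := fun e => by
    unfold cube at e
    push_cast at e
    exact e
  have f2 : hit (box c' fun _ => (l : ℤ) + (8 + d) * r) ω → hit (cube c' (2 * l)) ω := by
    rintro ⟨b, hb, hb'⟩
    refine ⟨b, mem_cube.2 fun j => ?_, hb'⟩
    have := mem_box.1 hb j
    push_cast
    constructor <;> nlinarith [this.1, this.2]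
  by_cases k : hit (box c' fun _ => 2 * (l : ℤ) + 8 * r) ω
  · refine le_add_of_nonneg_of_le (ind_nonneg _) (ind_mono fun e => ⟨k, fun e' => e.2 (f2 e')⟩)
  · refine le_add_of_le_of_nonneg (ind_mono fun e => ⟨f1 e.1, ?_⟩) (ind_nonneg _)
    push_cast
    exact k

end Pool.Agent.H913Z.Perc
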