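import Pool.Agent.H913Z.Perc.Geo2

/-! The finite-volume criterion and its stability. -/

namespace Pool.Agent.H913Z.Perc
open Finset Filter Topology

variable {d : ℕ}

theorem th_of_sys {p δ : ℝ} {K : ℕ} {U : Finset (Fin d → ℤ)} {Q : ℕ × ℕ → Set (Fin d → ℤ)}
    {conn : ℕ × ℕ → Set (Fin d → ℤ) → Prop} (H : Sys U (fun _ => p) K δ Q conn)
    (hU : cube 0 K ⊆ U) (i0 : Fin d)
    (hc : ∀ x ω, conn x ω → ∃ t ∈ O (zd d) {0} ω, (x.1 : ℤ) ≤ t i0) :
    Ex U (fun _ => p) (fun ω => ind (conn (0, 0) (ω ∩ Q (0, 0)))) - 5 * δ ≤ th d p 0 K := by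
  refine (explore H).trans ?_
  unfold th
  rw [← Ex_local hU, cube_zero]
  refine Ex_mono U H.ok fun ω => ind_mono ?_
  rintro ⟨x, hx, h⟩
  obtain ⟨t, ht, ht'⟩ := hc x ω h
  exact reach_sph ht ⟨i0, Or.inl (by omega)⟩

/-- a point of the coordinate plane -/
def plane (i0 i1 : Fin d) (a b : ℤ) : Fin d → ℤ :=
  fun j => if j = i0 then a else if j = i1 then b else 0

theorem plane0 (i0 i1 : Fin d) (a b : ℤ) : plane i0 i1 a b i0 = a := by simp [plane]

theorem plane1 {i0 i1 : Fin d} (h : i1 ≠ i0) (a b : ℤ) : plane i0 i1 a b i1 = b := by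
  simp [plane, h]

theorem plane_ne0 {i0 i1 j : Fin d} (h : j ≠ i0) (a a' b : ℤ) :
    plane i0 i1 a b j = plane i0 i1 a' b j := by simp [plane, h]

theorem plane_ne1 {i0 i1 j : Fin d} (h : j ≠ i1) (a b b' : ℤ) :
    plane i0 i1 a b j = plane i0 i1 a b' j := by simp [plane, h]

theorem perc_of_move {p η δ : ℝ} {r l : ℕ} (hp0 : 0 ≤ p) (hp1 : p ≤ 1) (M : Move d p η r l)
    (hl : (9 + d) * r < l) (hδ : 0 < δ) (hs : 288 * δ ≤ 1) (hη : (8 + d) * η ≤ δ ^ 2 / 4)
    {i0 i1 : Fin d} (h01 : i1 ≠ i0) (K : ℕ) :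
    1 - fail p 0 l 0 i0 (fun _ => true) - 5 * δ ≤ th d p 0 K := by
  let cen : ℕ × ℕ → Fin d → ℤ := fun x => plane i0 i1 (3 * l + 8 * (l * x.1)) (8 * (l * x.2))
  let U : Finset (Fin d → ℤ) := cube 0 K ∪ (Lam K).biUnion fun x => blockQ (cen x) l
  have hl0 : (1 : ℤ) ≤ l := by omega
  have hUQ : ∀ x ∈ Lam K, blockQ (cen x) l ⊆ U := fun x hx v hv =>
    mem_union_right _ (mem_biUnion.2 ⟨x, hx, hv⟩)
  have sep : ∀ a b : ℕ, a ≠ b → (l : ℤ) * a + l ≤ l * b ∨ (l : ℤ) * b + l ≤ l * a := by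
    intro a b hab
    rcases lt_or_gt_of_ne hab with h | h
    · have : (a : ℤ) + 1 ≤ b := by omega
      left; nlinarith
    · have : (b : ℤ) + 1 ≤ a := by omega
      right; nlinarith
  have H : Sys U (fun _ => p) K δ (fun x => ↑(blockQ (cen x) l))
      (fun x => hit (cube (cen x) (2 * l))) := by
    refine ⟨ok_const hp0 hp1, hδ, hs, fun x y hxy v hv hv' => ?_, fun x ω ω' h e => ?_,
      fun x hx y hy a q' hq' he => ?_⟩
    · have a0 := mem_blockQ.1 hv i0
      have a1 := mem_blockQ.1 hv i1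
      have b0 := mem_blockQ.1 hv' i0
      have b1 := mem_blockQ.1 hv' i1
      simp only [cen, plane0, plane1 h01] at a0 a1 b0 b1
      by_cases h : x.1 = y.1
      · have := sep x.2 y.2 (fun e => hxy (Prod.ext h e))
        omega
      · have := sep x.1 y.1 h
        omega
    · obtain ⟨b, hb, hb'⟩ := e
      exact ⟨b, hb, O_mono h le_rfl hb'⟩
    · have p1 : (0 : ℤ) ≤ l * x.1 := by positivity
      have p2 : (0 : ℤ) ≤ l * y.1 := by positivity
      have key : ∀ (i : Fin d) (D : ℤ), (D = l ∨ D = -l) → cen y i = cen x i + 8 * D →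
          (∀ j, j ≠ i → cen y j = cen x j) → Ex U q' (fun ω => ind (hit (cube (cen x) (2 * l)) ω ∧
            ¬ hit (cube (cen y) (2 * l)) ω)) ≤ δ ^ 2 / 4 := fun i D hD hi hj =>
        (corridor M hl hq' (cen x) (cen y) i i0 D hD hi hj
          (by simp only [cen, plane0]; omega) (by simp only [cen, plane0]; omega)
          (fun v hv => ⟨hv.elim (fun e => hUQ x hx e) (fun e => hUQ y hy e), he v hv⟩)).trans hη
      rcases a with ⟨e, e' | e'⟩ | ⟨e, e' | e'⟩
      · refine key i1 l (Or.inl rfl) ?_ fun j hj => ?_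
        · simp only [cen, plane1 h01, ← e']; push_cast; ring
        · simp only [cen, e]; exact plane_ne1 hj _ _ _
      · refine key i1 (-l) (Or.inr rfl) ?_ fun j hj => ?_
        · simp only [cen, plane1 h01, ← e']; push_cast; ring
        · simp only [cen, e]; exact plane_ne1 hj _ _ _
      · refine key i0 l (Or.inl rfl) ?_ fun j hj => ?_
        · simp only [cen, plane0, ← e']; push_cast; ring
        · simp only [cen, e]; exact plane_ne0 hj _ _ _
      · refine key i0 (-l) (Or.inr rfl) ?_ fun j hj => ?_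
        · simp only [cen, plane0, ← e']; push_cast; ring
        · simp only [cen, e]; exact plane_ne0 hj _ _ _
  have h := th_of_sys H subset_union_left i0 (fun x ω e => by
    obtain ⟨b, hb, hb'⟩ := e
    refine ⟨b, hb', ?_⟩
    have := mem_cube.1 hb i0
    simp only [cen, plane0] at this
    have : (x.1 : ℤ) ≤ l * x.1 := by nlinarith
    omega)
  refine le_trans (sub_le_sub_right ?_ _) h
  have h0 : ((0, 0) : ℕ × ℕ) ∈ Lam K :=
    mem_product.2 ⟨mem_range.2 (by positivity), mem_range.2 (by positivity)⟩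
  have hc : ∀ j, (j = i0 ∧ cen (0, 0) j = 3 * l) ∨ (j ≠ i0 ∧ cen (0, 0) j = 0) := by
    intro j
    by_cases hj : j = i0
    · subst hj; simp [cen, plane]
    · simp [cen, plane, hj]
  have hsub : cube 0 l ⊆ blockQ (cen (0, 0)) l := fun v hv => mem_blockQ.2 fun j => by
    have := mem_cube.1 hv j
    have := hc j
    simp only [Pi.zero_apply] at *
    omega
  unfold fail
  rw [← Ex_local (hsub.trans (hUQ _ h0)), ← Ex_const U (fun _ => p) 1, ← Ex_sub, cube_zero]
  refine Ex_mono U H.ok fun ω => ?_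
  rw [← ind_not]
  refine ind_mono fun e => ?_
  push Not at e
  obtain ⟨t, ht, ht'⟩ := e
  refine ⟨t, mem_cube.2 fun j => ?_, O_mono (Set.inter_subset_inter_right _ hsub) le_rfl ht'⟩
  have h1 := ht.1 j
  have h2 := ht.2
  simp only [Pi.zero_apply, if_true] at h1 h2
  push_cast
  rcases hc j with ⟨rfl, e⟩ | ⟨-, e⟩ <;> omega

theorem Ex_mem {V : Type*} [DecidableEq V] {U : Finset V} (q : V → ℝ) {v : V} (hv : v ∈ U) :
    Ex U q (fun ω => ind (v ∈ ω)) = q v := by
  have := Ex_all_open (singleton_subset_iff.2 hv) q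
  simpa using this

theorem perc_near_one {i0 i1 : Fin d} (h01 : i1 ≠ i0) :
    ∃ p : ℝ, 0 ≤ p ∧ p < 1 ∧ ∃ c : ℝ, 0 < c ∧ ∀ K, c ≤ th d p 0 K := by
  refine ⟨1 - (1 / 288) ^ 2 / 4, by norm_num, by norm_num, 1 / 2, by norm_num, fun K => ?_⟩
  let em : ℕ × ℕ → Fin d → ℤ := fun x => plane i0 i1 x.1 x.2
  let U : Finset (Fin d → ℤ) := cube 0 K ∪ (Lam K).image em
  have H : Sys U (fun _ => 1 - (1 / 288) ^ 2 / 4) K (1 / 288) (fun x => {em x})
      (fun x ω => em x ∈ O (zd d) {0} ω) := by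
    refine ⟨ok_const (by norm_num) (by norm_num), by norm_num, by norm_num,
      fun x y hxy v hv hv' => ?_, fun x ω ω' h e => O_mono h le_rfl e,
      fun x hx y hy a q' hq' he => ?_⟩
    · have e : em x = em y := (Set.mem_singleton_iff.1 hv).symm.trans hv'
      have e0 := congrFun e i0
      have e1 := congrFun e i1
      simp only [em, plane0, plane1 h01] at e0 e1
      exact hxy (Prod.ext (by omega) (by omega))
    · have ha : (zd d).Adj (em x) (em y) := by
        rcases a with ⟨e, e'⟩ | ⟨e, e'⟩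
        · refine adj_of_step i1 (fun j hj => ?_) ?_
          · simp only [em, e]; exact plane_ne1 hj _ _ _
          · simp only [em, plane1 h01]; omega
        · refine adj_of_step i0 (fun j hj => ?_) ?_
          · simp only [em, e]; exact plane_ne0 hj _ _ _
          · simp only [em, plane0]; omega
      have h1 := Ex_mem q' (U := U) (v := em y) (mem_union_right _ (mem_image_of_mem em hy))
      rw [he _ (Or.inr rfl)] at h1
      have h2 := Ex_mono U hq' (F := fun ω => ind (em x ∈ O (zd d) {0} ω ∧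
        ¬ em y ∈ O (zd d) {0} ω)) (G := fun ω => 1 - ind (em y ∈ ω)) fun ω => by
          rw [← ind_not]
          exact ind_mono fun e e' => e.2 (O_step e.1 ha e')
      rw [Ex_sub, Ex_const, h1] at h2
      linarith
  have h := th_of_sys H subset_union_left i0 (fun x ω e => ⟨em x, e, by simp [em, plane0]⟩)
  have e0 : em (0, 0) = 0 := by ext j; simp [em, plane]
  have h1 := Ex_mem (fun _ => (1 : ℝ) - (1 / 288) ^ 2 / 4) (U := U) (v := 0)
    (mem_union_left _ (mem_cube.2 fun i => by simp))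
  have h2 := Ex_mono U H.ok (F := fun ω => ind ((0 : Fin d → ℤ) ∈ ω))
    (G := fun ω => ind (em (0, 0) ∈ O (zd d) {0} (ω ∩ {em (0, 0)}))) fun ω =>
      ind_mono fun e => by rw [e0]; exact ⟨⟨e, rfl⟩, Rs_of_mem rfl⟩
  rw [h1] at h2
  norm_num at h h2 ⊢
  linarith

theorem th_nonneg {p : ℝ} (h0 : 0 ≤ p) (h1 : p ≤ 1) (m l : ℕ) : 0 ≤ th d p m l :=
  Ex_nonneg _ (ok_const h0 h1) fun _ => ind_nonneg _

theorem exists_m {p c : ℝ} (h0 : 0 ≤ p) (h1 : p ≤ 1) (hc : 0 < c) (h : ∀ k, c ≤ th d p 0 k)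
    {ρ : ℝ} (hρ : 0 < ρ) : ∃ m, ∀ l, m ≤ l → 1 - th d p m l ≤ ρ := by
  have hb : BddBelow (Set.range fun k => th d p 0 k) := ⟨c, by rintro _ ⟨k, rfl⟩; exact h k⟩
  set a := ⨅ k, th d p 0 k with ha
  have hca : c ≤ a := le_ciInf h
  obtain ⟨k, hk⟩ := exists_lt_of_ciInf_lt (f := fun k => th d p 0 k) (a := a * (1 + ρ))
    (by rw [← ha]; nlinarith)
  refine ⟨k + 1, fun l hl => ?_⟩
  have e1 := th_mul (d := d) h0 h1 (show k < l by omega)
  have e2 : a ≤ th d p 0 l := ciInf_le hb l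
  have e3 := th_nonneg (d := d) h0 h1 (k + 1) l
  have e4 : a * 1 ≤ a * ((1 + ρ) * th d p (k + 1) l) := by nlinarith
  have e5 := le_of_mul_le_mul_left e4 (by linarith)
  have e6 : th d p (k + 1) l ≤ 1 := Ex_le_const _ (ok_const h0 h1) fun _ => ind_le_one _
  nlinarith

theorem exists_k {x δ : ℝ} (hx : 0 < x) (hx1 : x ≤ 1) (hδ : 0 < δ) :
    ∃ k : ℕ, (1 - x) ^ k < δ ∧ k * x ≤ 1 / δ + 1 := by
  refine ⟨⌈1 / (δ * x)⌉₊, ?_, ?_⟩
  · set k := ⌈1 / (δ * x)⌉₊
    have h1 : 1 / (δ * x) ≤ k := Nat.le_ceil _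
    rw [div_le_iff₀ (by positivity)] at h1
    have h2 : 1 + k * x ≤ (1 + x) ^ k := one_add_mul_le_pow (by linarith) k
    have h3 : (1 - x) ^ k * (1 + x) ^ k ≤ 1 := by
      rw [← mul_pow]
      exact pow_le_one₀ (by nlinarith) (by nlinarith)
    have h4 : 0 ≤ (1 - x) ^ k := pow_nonneg (by linarith) k
    have h5 : (1 - x) ^ k * (1 + k * x) ≤ 1 := (mul_le_mul_of_nonneg_left h2 h4).trans h3
    by_contra hn
    have hn := not_lt.1 hn
    have h6 : δ * (1 + k * x) ≤ 1 :=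
      (mul_le_mul_of_nonneg_right hn (by positivity)).trans h5
    nlinarith
  · have h1 := (Nat.ceil_lt_add_one (show 0 ≤ 1 / (δ * x) by positivity)).le
    have h2 := mul_le_mul_of_nonneg_right h1 hx.le
    have e : (1 / (δ * x) + 1) * x = 1 / δ + x := by field_simp
    linarith

theorem perc_below {p c : ℝ} (h0 : 0 < p) (h1 : p < 1) (hc : 0 < c) (h : ∀ k, c ≤ th d p 0 k)
    {i0 i1 : Fin d} (h01 : i1 ≠ i0) :
    ∃ p' : ℝ, 0 ≤ p' ∧ p' < p ∧ ∃ c' : ℝ, 0 < c' ∧ ∀ K, c' ≤ th d p' 0 K := by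
  set N := Fintype.card (Fin d × (Fin d → Bool)) with hN
  have hN0 : 0 < N := Fintype.card_pos_iff.2 ⟨(i0, fun _ => true)⟩
  have hN1 : (0 : ℝ) < N := by exact_mod_cast hN0
  set δ := min (1 / 288) (c / N / 20) with hδ
  have hδ0 : 0 < δ := lt_min (by norm_num) (by positivity)
  have hδ1 : δ ≤ 1 / 288 := min_le_left _ _
  have hδ2 : δ ≤ c / N / 20 := min_le_right _ _
  set ε := δ ^ 2 / (16 * (8 + d)) with hε
  have hε0 : 0 < ε := by positivity
  set δ' := ε ^ 2 / (1 / ε + 1) with hδ'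
  have hδ'0 : 0 < δ' := by positivity
  obtain ⟨m, hm⟩ := exists_m h0.le h1.le hc h (ρ := (δ' / 2) ^ N) (by positivity)
  obtain ⟨k, k1, k2⟩ := exists_k (x := p ^ (2 * m + 1) ^ d) (by positivity)
    (pow_le_one₀ h0.le h1.le) hε0
  have hpos : 0 < ε * (1 - p) ^ ((4 * m + 1) ^ d * k) := mul_pos hε0 (pow_pos (by linarith) _)
  obtain ⟨J, hJ⟩ := exists_nat_ge (1 / (ε * (1 - p) ^ ((4 * m + 1) ^ d * k)))
  rw [div_le_iff₀ hpos] at hJ
  set l := (9 + d) * (m + J) + 1 with hl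
  have f1 : fail p m l 0 i0 (fun _ => true) < δ' := by
    have := (sqrt_trick h0.le h1.le m l i0).trans (hm l (by rw [hl]; nlinarith))
    have := le_of_pow_le_pow_left₀ hN0.ne' (by positivity) this
    linarith
  have f2 : fail p 0 l 0 i0 (fun _ => true) < 1 - c / N / 2 := by
    have := (h l).trans (union_trick h0.le h1.le 0 l i0)
    rw [← hN, ← div_le_iff₀' hN1] at this
    have : 0 < c / N := by positivity
    linarith
  have cf : ∀ m, Tendsto (fun t => fail t m l 0 i0 (fun _ => true)) (𝓝[<] p)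
      (𝓝 (fail p m l 0 i0 (fun _ => true))) := fun m =>
    ((Ex_continuous _ (fun t _ => t) (fun _ => continuous_id) _).tendsto p).mono_left
      nhdsWithin_le_nhds
  have c1 : Tendsto (fun t : ℝ => (1 - t ^ (2 * m + 1) ^ d) ^ k) (𝓝[<] p)
      (𝓝 ((1 - p ^ (2 * m + 1) ^ d) ^ k)) :=
    (Continuous.tendsto (by fun_prop) p).mono_left nhdsWithin_le_nhds
  have ev : ∀ᶠ t : ℝ in 𝓝[<] p, t ∈ Set.Ioo (0 : ℝ) p := Ioo_mem_nhdsLT h0
  obtain ⟨t, ⟨⟨t1, t2⟩, t3⟩, t4⟩ := (((((cf m).eventually (gt_mem_nhds f1)).and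
    ((cf 0).eventually (gt_mem_nhds f2))).and (c1.eventually (gt_mem_nhds k1))).and ev).exists
  have M := move_of (δ := ε) (δ' := δ') t4.1.le (t4.2.trans h1) hε0 m l J k i0 t1.le t3.le
    (by
      have a1 : t ^ (2 * m + 1) ^ d ≤ p ^ (2 * m + 1) ^ d := pow_le_pow_left₀ t4.1.le t4.2.le _
      have a2 : (k : ℝ) * t ^ (2 * m + 1) ^ d ≤ 1 / ε + 1 :=
        (mul_le_mul_of_nonneg_left a1 (by positivity)).trans k2
      refine (mul_le_mul_of_nonneg_right a2 hδ'0.le).trans (le_of_eq ?_)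
      rw [hδ']; field_simp)
    (by
      have a1 : (1 - p) ^ ((4 * m + 1) ^ d * k) ≤ (1 - t) ^ ((4 * m + 1) ^ d * k) :=
        pow_le_pow_left₀ (by linarith) (by linarith [t4.2]) _
      refine le_trans ?_ (mul_le_mul_of_nonneg_left a1 (by positivity))
      linarith)
  refine ⟨t, t4.1.le, t4.2, c / N / 4, by positivity, fun K => le_trans ?_
    (perc_of_move t4.1.le (t4.2.trans h1).le M (Nat.lt_succ_self _) hδ0 (by linarith)
      (le_of_eq (by rw [hε]; field_simp; ring)) h01 K)⟩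
  linarith

end Pool.Agent.H913Z.Perc
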