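import Pool.Agent.H913Z.Perc.Clus

/-! The gluing inequality, part 1: the elimination operator and the covariance decomposition. -/

namespace Pool.Agent.H913Z.Perc
open Finset

variable {V : Type*} [DecidableEq V] (G : SimpleGraph V) (U : Finset V) (q : V → ℝ)

/-- indicator of `u ∼ d`, `d ≁ Z` -/
noncomputable def I (d : V) (Z : Set V) (u : V) (ω : Set V) : ℝ := ind (R G ω d u ∧ ¬ Rs G ω Z d)

/-- conditional probability of `u ∼ d` given `d ≁ Z` -/
noncomputable def cc (Z : Set V) (d u : V) : ℝ := Ex U q (I G d Z u) / Ex U q (I G d Z d)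

/-- the elimination operator -/
noncomputable def L (o : V) : Set V → List V → (V → ℝ) → ℝ
  | _, [], f => f o
  | Z, d :: D, f => L o (insert d Z) D (fun u => f u - cc G U q Z d u * f d)

/-- admissible elimination lists -/
def Good : Set V → List V → Prop
  | _, [] => True
  | Z, d :: D => d ∉ Z ∧ Good (insert d Z) D

/-- unnormalised conditional covariance -/
noncomputable def cov (x : V) (Y : Set V) (g : Set V → ℝ) (u : V) : ℝ :=
  Ex U q (I G x Y x) * Ex U q (fun ω => g (O G {x} ω) * I G x Y u ω) -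
    Ex U q (fun ω => g (O G {x} ω) * I G x Y x ω) * Ex U q (I G x Y u)

/-- conditional mean of `g` of the cluster of `x` given the cluster of `Y` -/
noncomputable def aa (x : V) (Y : Set V) (g : Set V → ℝ) (W : Set V) : ℝ :=
  Ex U q (fun ω => g (O G {x} (ω \ Bd G Y W)))

/-- the two-step Gibbs operator -/
noncomputable def TT (x : V) (Y : Set V) (g : Set V → ℝ) (X : Set V) : ℝ :=
  Ex U q (fun ω => aa G U q x Y g (O G Y (ω \ Bd G {x} X)))

/-- the centred variable -/
noncomputable def xi (x : V) (Y : Set V) (g : Set V → ℝ) (ω : Set V) : ℝ :=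
  (g (O G {x} ω) - aa G U q x Y g (O G Y ω)) * ind (x ∉ O G Y ω)

/-- the within-world term -/
noncomputable def RR (x : V) (Y : Set V) (g : Set V → ℝ) (S : Set V) (u : V) : ℝ :=
  Ex U q (fun ω => xi G U q x Y g ω * ind (Rs G ω S u ∧ ¬ Rs G ω Y u))

variable {G U q}

theorem L_add (o : V) (Z : Set V) (D : List V) (f g : V → ℝ) :
    L G U q o Z D (fun u => f u + g u) = L G U q o Z D f + L G U q o Z D g := by
  induction D generalizing Z f g with
  | nil => rfl
  | cons d D ih =>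
    simp only [L]
    rw [← ih]
    congr 1; ext u; ring

theorem L_mul (o : V) (Z : Set V) (D : List V) (c : ℝ) (f : V → ℝ) :
    L G U q o Z D (fun u => c * f u) = c * L G U q o Z D f := by
  induction D generalizing Z f with
  | nil => rfl
  | cons d D ih =>
    simp only [L]
    rw [← ih]
    congr 1; ext u; ring

omit [DecidableEq V] in
theorem I_nonneg (d : V) (Z : Set V) (u : V) (ω : Set V) : 0 ≤ I G d Z u ω := ind_nonneg _

omit [DecidableEq V] in
theorem I_le (d : V) (Z : Set V) (u : V) (ω : Set V) : I G d Z u ω ≤ I G d Z d ω :=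
  ind_mono fun h => ⟨R.refl _ _, h.2⟩

theorem EI_nonneg (hq : Ok q) (d : V) (Z : Set V) (u : V) : 0 ≤ Ex U q (I G d Z u) :=
  Ex_nonneg U hq (I_nonneg d Z u)

theorem EI_le_one (hq : Ok q) (d : V) (Z : Set V) (u : V) : Ex U q (I G d Z u) ≤ 1 :=
  Ex_le_const U hq fun _ => ind_le_one _

theorem EI_pos (hq : Ok q) (hq1 : ∀ v, q v < 1) {d : V} {Z : Set V} (hd : d ∉ Z) :
    0 < Ex U q (I G d Z d) := by
  have h := wt_le_Ex U hq (I_nonneg (G := G) d Z d)
  have : I G d Z d ∅ = 1 := by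
    refine ind_pos ⟨R.refl _ _, fun h => ?_⟩
    rcases Rs_iff.1 h with h | h
    · exact hd h
    · exact h.1
  rw [this, mul_one] at h
  exact (wt_empty_pos U hq1).trans_le h

theorem L_bound (hq : Ok q) (o : V) (Z : Set V) (D : List V) (f : V → ℝ) (M : ℝ)
    (h : ∀ u, |f u| ≤ M) : |L G U q o Z D f| ≤ 2 ^ D.length * M := by
  induction D generalizing Z f M with
  | nil => simpa [L] using h o
  | cons d D ih =>
    simp only [L, List.length_cons]
    have := ih (insert d Z) (fun u => f u - cc G U q Z d u * f d) (2 * M) (fun u => by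
      have c0 : 0 ≤ cc G U q Z d u := div_nonneg (EI_nonneg hq _ _ _) (EI_nonneg hq _ _ _)
      have c1 : cc G U q Z d u ≤ 1 :=
        div_le_one_of_le₀ (Ex_mono U hq (I_le d Z u)) (EI_nonneg hq _ _ _)
      have h1 := abs_le.1 (h u)
      have h2 := abs_le.1 (h d)
      rw [abs_le]
      constructor <;> nlinarith)
    calc _ ≤ _ := this
      _ = _ := by ring

theorem cov_bound (hq : Ok q) (x : V) (Y : Set V) {g : Set V → ℝ} (hg : Monotone g) (u : V) :
    |cov G U q x Y g u| ≤ g Set.univ - g ∅ := by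
  have lo : ∀ w, g ∅ * Ex U q (I G x Y w) ≤ Ex U q (fun ω => g (O G {x} ω) * I G x Y w ω) := by
    intro w
    rw [← Ex_mul_left]
    exact Ex_mono U hq fun ω =>
      mul_le_mul_of_nonneg_right (hg (Set.empty_subset _)) (I_nonneg _ _ _ _)
  have hi : ∀ w, Ex U q (fun ω => g (O G {x} ω) * I G x Y w ω) ≤
      g Set.univ * Ex U q (I G x Y w) := by
    intro w
    rw [← Ex_mul_left]
    exact Ex_mono U hq fun ω =>
      mul_le_mul_of_nonneg_right (hg (Set.subset_univ _)) (I_nonneg _ _ _ _)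
  have a0 := EI_nonneg (G := G) (U := U) hq x Y x
  have a1 := EI_le_one (G := G) (U := U) hq x Y x
  have b0 := EI_nonneg (G := G) (U := U) hq x Y u
  have b1 := EI_le_one (G := G) (U := U) hq x Y u
  have o0 : 0 ≤ g Set.univ - g ∅ := sub_nonneg.2 (hg (Set.empty_subset _))
  have ab : Ex U q (I G x Y x) * Ex U q (I G x Y u) ≤ 1 := mul_le_one₀ a1 b0 b1
  have k := mul_le_mul_of_nonneg_left ab o0
  have l1 := mul_le_mul_of_nonneg_left (lo u) a0
  have l2 := mul_le_mul_of_nonneg_left (hi u) a0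
  have l3 := mul_le_mul_of_nonneg_right (lo x) b0
  have l4 := mul_le_mul_of_nonneg_right (hi x) b0
  unfold cov
  rw [abs_le]
  constructor <;> nlinarith

theorem aa_anti (hq : Ok q) (x : V) (Y : Set V) {g : Set V → ℝ} (hg : Monotone g) :
    Antitone (aa G U q x Y g) := fun _ _ h =>
  Ex_mono U hq fun _ => hg (O_mono (Set.sdiff_subset_sdiff_right (Bd_mono h)) le_rfl)

theorem TT_mono (hq : Ok q) (x : V) (Y : Set V) {g : Set V → ℝ} (hg : Monotone g) :
    Monotone (TT G U q x Y g) := fun _ _ h =>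
  Ex_mono U hq fun _ =>
    aa_anti hq x Y hg (O_mono (Set.sdiff_subset_sdiff_right (Bd_mono h)) le_rfl)

theorem TT_osc (hq : Ok q) (x : V) (Y : Set V) {g : Set V → ℝ} (hg : Monotone g) :
    TT G U q x Y g Set.univ - TT G U q x Y g ∅ ≤ (1 - wt U q ∅) * (g Set.univ - g ∅) := by
  have lo : ∀ W, g ∅ ≤ aa G U q x Y g W := fun W =>
    const_le_Ex U hq fun _ => hg (Set.empty_subset _)
  have hi : ∀ W, aa G U q x Y g W ≤ g Set.univ := fun W =>
    Ex_le_const U hq fun _ => hg (Set.subset_univ _)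
  have h := wt_le_Ex U hq (F := fun ω => (g Set.univ - g ∅) -
    (aa G U q x Y g (O G Y (ω \ Bd G {x} Set.univ)) - aa G U q x Y g (O G Y (ω \ Bd G {x} ∅))))
    (fun ω => by
      have := hi (O G Y (ω \ Bd G {x} Set.univ))
      have := lo (O G Y (ω \ Bd G {x} ∅))
      linarith)
  rw [Ex_sub, Ex_const, Ex_sub] at h
  simp only [Set.empty_sdiff, sub_self, sub_zero] at h
  unfold TT
  linarith

omit [DecidableEq V] in
theorem not_Rs_iff {ω Z : Set V} {d : V} (hd : d ∉ Z) :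
    ¬ Rs G ω Z d ↔ ∀ z ∈ Z, z ∉ O G {d} ω := by
  constructor
  · intro h z hz ho
    exact h ⟨z, hz, (Rs_singleton.1 ho.2).symm⟩
  · rintro h ⟨z, hz, hr⟩
    rcases hr.cases with e | e
    · exact hd (e ▸ hz)
    · exact h z hz ⟨e.1, Rs_singleton.2 hr.symm⟩

theorem condX {d : V} {Z : Set V} (hd : d ∉ Z) (ψ : Set V → ℝ)
    (hψ : ∀ ω, ¬ Rs G ω Z d → ψ (ω \ Bd G {d} (O G {d} ω)) = ψ ω) (u : V) :
    Ex U q (fun ω => ψ ω * I G d Z u ω) =
    Ex U q (fun ω => Ex U q (fun ω' => ψ (ω' \ Bd G {d} (O G {d} ω))) * I G d Z u ω) := by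
  have hI : ∀ ω, I G d Z u ω = ind ((u ∈ ({d} : Set V) ∨ u ∈ O G {d} ω) ∧
      ∀ z ∈ Z, z ∉ O G {d} ω) := by
    intro ω
    refine ind_congr ?_
    rw [not_Rs_iff hd, ← Rs_iff, Rs_singleton]
  have h := cond (G := G) U q {d}
    (fun X ρ => ψ ρ * ind ((u ∈ ({d} : Set V) ∨ u ∈ X) ∧ ∀ z ∈ Z, z ∉ X))
  simp only [← hI, Ex_mul_right] at h
  rw [← h]
  refine Ex_congr q fun ω _ => ?_
  by_cases hz : Rs G ω Z d
  · have : I G d Z u ω = 0 := ind_neg fun h => h.2 hz
    rw [this, mul_zero, mul_zero]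
  · rw [hψ ω hz]

theorem xiY (hq : Ok q) (x : V) (Y : Set V) {g : Set V → ℝ} (hg : Monotone g)
    (h k : Set V → ℝ) (h0 : ∀ W, 0 ≤ h W) (hk : Monotone k) :
    0 ≤ Ex U q (fun ω => xi G U q x Y g ω * (h (O G Y ω) * k (ω \ Bd G Y (O G Y ω)))) := by
  have h1 := cond (G := G) U q Y
    (fun W ρ => (ind (x ∉ W) * h W) * (g (O G {x} ρ) * k ρ - aa G U q x Y g W * k ρ))
  have h2 : Ex U q (fun ω => xi G U q x Y g ω * (h (O G Y ω) * k (ω \ Bd G Y (O G Y ω)))) =
      Ex U q (fun ω => (ind (x ∉ O G Y ω) * h (O G Y ω)) *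
        (g (O G {x} (ω \ Bd G Y (O G Y ω))) * k (ω \ Bd G Y (O G Y ω)) -
          aa G U q x Y g (O G Y ω) * k (ω \ Bd G Y (O G Y ω)))) := by
    refine Ex_congr q fun ω _ => ?_
    unfold xi
    by_cases hx : x ∈ O G Y ω
    · rw [ind_neg (not_not.2 hx)]; ring
    · rw [O_avoid (Z := {x}) (fun z hz => by rw [Set.mem_singleton_iff.1 hz]; exact hx)]; ring
  rw [h2, h1]
  refine Ex_nonneg U hq fun ω => ?_
  rw [Ex_mul_left, Ex_sub, Ex_mul_left]
  refine mul_nonneg (mul_nonneg (ind_nonneg _) (h0 _)) (sub_nonneg.2 ?_)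
  exact harris U hq (F := fun ω' => g (O G {x} (ω' \ Bd G Y (O G Y ω))))
    (G := fun ω' => k (ω' \ Bd G Y (O G Y ω)))
    (fun a b hab => hg (O_mono (Set.sdiff_subset_sdiff_left hab) le_rfl))
    (fun a b hab => hk (Set.sdiff_subset_sdiff_left hab))

theorem xiY_zero (hq : Ok q) (x : V) (Y : Set V) {g : Set V → ℝ} (hg : Monotone g)
    (h : Set V → ℝ) (h0 : ∀ W, 0 ≤ h W) :
    Ex U q (fun ω => xi G U q x Y g ω * h (O G Y ω)) = 0 := by
  have a := xiY (G := G) (U := U) hq x Y hg h (fun _ => 1) h0 monotone_const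
  have b := xiY (G := G) (U := U) hq x Y hg h (fun _ => -1) h0 monotone_const
  have e : (fun ω => xi G U q x Y g ω * (h (O G Y ω) * (-1))) =
      fun ω => (-1) * (xi G U q x Y g ω * h (O G Y ω)) := by ext; ring
  simp only [mul_one] at a
  rw [e, Ex_mul_left] at b
  linarith

theorem RR_self (hq : Ok q) (x : V) (Y : Set V) {g : Set V → ℝ} (hg : Monotone g)
    {S : Set V} {d : V} (hS : d ∈ S) : RR G U q x Y g S d = 0 := by
  rw [← xiY_zero (G := G) (U := U) hq x Y hg (fun W => ind (¬ (d ∈ Y ∨ d ∈ W)))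
    (fun _ => ind_nonneg _)]
  refine Ex_congr q fun ω _ => ?_
  congr 1
  refine ind_congr ?_
  rw [← Rs_iff]
  exact ⟨fun h => h.2, fun h => ⟨Rs_of_mem hS, h⟩⟩

theorem RR_nonneg (hq : Ok q) (x : V) (Y : Set V) {g : Set V → ℝ} (hg : Monotone g)
    (S : Set V) (o : V) : 0 ≤ RR G U q x Y g S o := by
  have a := xiY (G := G) (U := U) hq x Y hg (fun W => ind (¬ (o ∈ Y ∨ o ∈ W)))
    (fun ρ => ind (Rs G ρ S o)) (fun _ => ind_nonneg _)
    (fun a b hab => ind_mono fun h => h.mono hab le_rfl)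
  refine a.trans (le_of_eq (Ex_congr q fun ω _ => ?_))
  congr 1
  rw [← ind_and]
  refine ind_congr ?_
  rw [← Rs_iff]
  constructor
  · exact fun h => ⟨h.2.mono Set.sdiff_subset le_rfl, h.1⟩
  · rintro ⟨⟨s, hs, hr⟩, h⟩
    exact ⟨h, s, hs, (R_avoid (fun e => h (Rs_iff.2 (Or.inr e))) hr.symm).symm⟩

theorem cov_decomp (hq : Ok q) {x : V} {Y : Set V} (hx : x ∉ Y) {g : Set V → ℝ}
    (hg : Monotone g) (u : V) :
    cov G U q x Y g u =
      Ex U q (I G x Y x) * RR G U q x Y g {x} u + cov G U q x Y (TT G U q x Y g) u := by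
  have h1 : ∀ w, Ex U q (fun ω => g (O G {x} ω) * I G x Y w ω) =
      RR G U q x Y g {x} w + Ex U q (fun ω => TT G U q x Y g (O G {x} ω) * I G x Y w ω) := by
    intro w
    have h := condX (G := G) (U := U) (q := q) hx (fun ω => aa G U q x Y g (O G Y ω))
      (fun ω hω => by
        show aa G U q x Y g (O G Y _) = _
        rw [O_avoid ((not_Rs_iff hx).1 hω)]) w
    unfold TT RR
    rw [← h, ← Ex_add]
    refine Ex_congr q fun ω _ => ?_
    unfold xi I
    by_cases hw : R G ω x w ∧ ¬ Rs G ω Y x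
    · rw [ind_pos hw, ind_pos (fun e => hw.2 (Rs_iff.2 (Or.inr e))),
        ind_pos ⟨Rs_singleton.2 hw.1, fun e => hw.2 (e.trans hw.1.symm)⟩]
      ring
    · rw [ind_neg hw, ind_neg (P := Rs G ω {x} w ∧ ¬ Rs G ω Y w) (fun e => hw
        ⟨Rs_singleton.1 e.1, fun e' => e.2 (e'.trans (Rs_singleton.1 e.1))⟩)]
      ring
  unfold cov
  rw [h1 u, h1 x, RR_self hq x Y hg (Set.mem_singleton x)]
  ring

end Pool.Agent.H913Z.Perc
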