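import Pool.Agent.H913Z.Perc.Glue1

/-! The gluing inequality, part 2. -/

namespace Pool.Agent.H913Z.Perc
open Finset Filter Topology

variable {V : Type*} [DecidableEq V] {G : SimpleGraph V} {U : Finset V} {q : V → ℝ}

theorem psi_eq (x : V) (Y : Set V) (g : Set V → ℝ) (B : Set V) :
    Ex U q (fun ω => (-1) * xi G U q x Y g (ω \ B)) =
    Ex U q (fun ω => (g (O G {x} (ω \ Bd G Y (O G Y (ω \ B)))) - g (O G {x} (ω \ B))) *
      ind (x ∉ O G Y (ω \ B))) := by
  have h := cond_world (G := G) U q Y B (fun W ρ => g (O G {x} ρ) * ind (x ∉ W))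
  simp only [Ex_mul_right] at h
  simp only [sub_mul, Ex_sub]
  rw [h, ← Ex_sub]
  refine Ex_congr q fun ω _ => ?_
  unfold xi aa
  ring

theorem psi_mono (hq : Ok q) (x : V) (Y : Set V) {g : Set V → ℝ} (hg : Monotone g) :
    Monotone (fun B => Ex U q (fun ω => (-1) * xi G U q x Y g (ω \ B))) := by
  intro B B' hB
  simp only [psi_eq]
  refine Ex_mono U hq fun ω => ?_
  have hω : ω \ B' ⊆ ω \ B := Set.sdiff_subset_sdiff_right hB
  have hW : O G Y (ω \ B') ⊆ O G Y (ω \ B) := O_mono hω le_rfl
  by_cases hx : x ∈ O G Y (ω \ B)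
  · rw [ind_neg (not_not.2 hx), mul_zero]
    by_cases hx' : x ∈ O G Y (ω \ B')
    · rw [ind_neg (not_not.2 hx'), mul_zero]
    · refine mul_nonneg (sub_nonneg.2 (hg ?_)) (ind_nonneg _)
      rw [← O_avoid (Z := {x}) (S := Y) (ω := ω \ B')
        (fun z hz => by rw [Set.mem_singleton_iff.1 hz]; exact hx')]
      exact O_mono (Set.sdiff_subset_sdiff_left Set.sdiff_subset) le_rfl
  · rw [ind_pos hx, ind_pos (fun e => hx (hW e)), mul_one, mul_one]
    have a := hg (O_mono (G := G) (S := {x}) (S' := {x})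
      (Set.sdiff_subset_sdiff_right (s := ω) (Bd_mono (G := G) (S := Y) hW)) le_rfl)
    have b := hg (O_mono (G := G) (S := {x}) (S' := {x}) hω le_rfl)
    linarith

theorem RR_step (x : V) (Y : Set V) (g : Set V → ℝ) (S : Set V) (d u : V) :
    RR G U q x Y g (insert d S) u =
      RR G U q x Y g S u + Ex U q (fun ω => xi G U q x Y g ω * I G d (S ∪ Y) u ω) := by
  unfold RR
  rw [← Ex_add]
  refine Ex_congr q fun ω _ => ?_
  rw [← mul_add]
  congr 1
  unfold I
  rw [Rs_insert, Rs_union]
  by_cases hY : Rs G ω Y u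
  · rw [ind_neg (fun h => h.2 hY), ind_neg (fun h => h.2 hY),
      ind_neg (fun h => h.2 (Or.inr (hY.trans h.1.symm)))]
    ring
  · by_cases hS : Rs G ω S u
    · rw [ind_pos ⟨Or.inr hS, hY⟩, ind_pos ⟨hS, hY⟩,
        ind_neg (fun h => h.2 (Or.inl (hS.trans h.1.symm)))]
      ring
    · by_cases hd : R G ω d u
      · rw [ind_pos ⟨Or.inl hd, hY⟩, ind_neg (fun h => hS h.1),
          ind_pos ⟨hd, fun h => h.elim (fun e => hS (e.trans hd)) (fun e => hY (e.trans hd))⟩]
        ring
      · rw [ind_neg (fun h => h.1.elim hd hS), ind_neg (fun h => hS h.1),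
          ind_neg (fun h => hd h.1)]
        ring

variable (G U q) in
/-- the covariance statement for lists shorter than `n` -/
def CSH (o : V) (n : ℕ) : Prop :=
  ∀ (x : V) (Y : Set V) (D : List V) (g : Set V → ℝ), D.length < n → x ∉ Y →
    Good (insert x Y) D → Monotone g → 0 ≤ L G U q o (insert x Y) D (cov G U q x Y g)

theorem within (hq : Ok q) (hq1 : ∀ v, q v < 1) (o : V) {n : ℕ} (H : CSH G U q o n)
    (x : V) (Y : Set V) {g : Set V → ℝ} (hg : Monotone g) (D : List V) (hD : D.length ≤ n)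
    (S : Set V) (hx : x ∈ S) (hG : Good (S ∪ Y) D) :
    0 ≤ L G U q o (S ∪ Y) D (RR G U q x Y g S) := by
  induction D generalizing S with
  | nil => exact RR_nonneg hq x Y hg S o
  | cons d D ih =>
    obtain ⟨hd, hG'⟩ := hG
    simp only [List.length_cons] at hD
    simp only [L]
    have hP := EI_pos (G := G) (U := U) hq hq1 hd
    set Ψ : Set V → ℝ := fun X => Ex U q (fun ω => (-1) * xi G U q x Y g (ω \ Bd G {d} X)) with hΨ
    have hΨm : Monotone Ψ := fun a b hab => psi_mono hq x Y hg (Bd_mono hab)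
    have he : ∀ u, Ex U q (fun ω => xi G U q x Y g ω * I G d (S ∪ Y) u ω) =
        - Ex U q (fun ω => Ψ (O G {d} ω) * I G d (S ∪ Y) u ω) := by
      intro u
      have h := condX (G := G) (U := U) (q := q) hd (fun ω => (-1) * xi G U q x Y g ω)
        (fun ω hω => by
          have h0 := (not_Rs_iff hd).1 hω
          show (-1) * xi G U q x Y g _ = _
          unfold xi
          rw [O_avoid (Z := Y) (fun z hz => h0 z (Or.inr hz)), O_avoid (Z := {x})
            (fun z hz => h0 z (Or.inl (by rw [Set.mem_singleton_iff.1 hz]; exact hx)))]) u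
      simp only [hΨ]
      rw [← h, ← neg_one_mul, ← Ex_mul_left]
      exact Ex_congr q fun ω _ => by ring
    have h0 := RR_step (G := G) (U := U) (q := q) x Y g S d d
    rw [RR_self hq x Y hg (Set.mem_insert d S), he] at h0
    have e : (fun u => RR G U q x Y g S u - cc G U q (S ∪ Y) d u * RR G U q x Y g S d) =
        fun u => RR G U q x Y g (insert d S) u +
          (Ex U q (I G d (S ∪ Y) d))⁻¹ * cov G U q d (S ∪ Y) Ψ u := by
      ext u
      rw [RR_step, he]
      have : RR G U q x Y g S d = Ex U q (fun ω => Ψ (O G {d} ω) * I G d (S ∪ Y) d ω) := by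
        linarith
      rw [this]
      unfold cc cov
      field_simp
      ring
    rw [e, L_add, L_mul]
    have i1 := ih (by omega) (insert d S) (Set.mem_insert_of_mem d hx)
      (by rw [Set.insert_union]; exact hG')
    rw [Set.insert_union] at i1
    exact add_nonneg i1 (mul_nonneg (inv_nonneg.2 hP.le) (H d (S ∪ Y) D Ψ (by omega) hd hG' hΨm))

theorem csh (hq : Ok q) (hq1 : ∀ v, q v < 1) (o : V) (n : ℕ) : CSH G U q o n := by
  induction n with
  | zero => intro x Y D g h; omega
  | succ n H =>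
    intro x Y D g hD hx hG hg
    have hη := wt_empty_pos U hq1
    have hη1 : wt U q ∅ ≤ 1 := by
      have := wt_le_Ex U hq (F := fun _ => 1) (fun _ => zero_le_one)
      rwa [Ex_const, mul_one] at this
    have key : ∀ k : ℕ, ∀ g : Set V → ℝ, Monotone g →
        -(2 ^ D.length * ((1 - wt U q ∅) ^ k * (g Set.univ - g ∅))) ≤
          L G U q o (insert x Y) D (cov G U q x Y g) := by
      intro k
      induction k with
      | zero =>
        intro g hg
        have := L_bound (G := G) (U := U) hq o (insert x Y) D _ _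
          (cov_bound (G := G) (U := U) hq x Y hg)
        rw [pow_zero, one_mul]
        exact (abs_le.1 this).1
      | succ k ih =>
        intro g hg
        have e : cov G U q x Y g = fun u => Ex U q (I G x Y x) * RR G U q x Y g {x} u +
            cov G U q x Y (TT G U q x Y g) u := funext (cov_decomp hq hx hg)
        rw [e, L_add, L_mul]
        have w := within hq hq1 o H x Y hg D (by omega) {x} (Set.mem_singleton x)
          (by rw [Set.singleton_union]; exact hG)
        rw [Set.singleton_union] at w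
        have w' := mul_nonneg (EI_nonneg (G := G) (U := U) hq x Y x) w
        have i := ih _ (TT_mono (G := G) (U := U) hq x Y hg)
        have os := TT_osc (G := G) (U := U) hq x Y hg
        have p1 : (0 : ℝ) ≤ 2 ^ D.length * (1 - wt U q ∅) ^ k :=
          mul_nonneg (by positivity) (pow_nonneg (by linarith) k)
        have := mul_le_mul_of_nonneg_left os p1
        rw [pow_succ]
        nlinarith
    have lim : Tendsto (fun k : ℕ => -(2 ^ D.length * ((1 - wt U q ∅) ^ k * (g Set.univ - g ∅))))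
        atTop (𝓝 (-(2 ^ D.length * (0 * (g Set.univ - g ∅))))) :=
      (((tendsto_pow_atTop_nhds_zero_of_lt_one (by linarith) (by linarith)).mul_const _).const_mul
        _).neg
    have := le_of_tendsto' lim (fun k => key k g hg)
    simpa using this

theorem L_EI (hq : Ok q) (hq1 : ∀ v, q v < 1) (o : V) (D : List V) (x : V) (Y : Set V)
    (hx : x ∉ Y) (hG : Good (insert x Y) D) :
    0 ≤ L G U q o (insert x Y) D (fun u => Ex U q (I G x Y u)) := by
  induction D generalizing Y with
  | nil => exact EI_nonneg hq x Y o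
  | cons d D ih =>
    obtain ⟨hd, hG'⟩ := hG
    have hdY : d ∉ Y := fun e => hd (Set.mem_insert_of_mem x e)
    have hdx : d ≠ x := fun e => hd (e ▸ Set.mem_insert x Y)
    have hxd : x ∉ insert d Y := fun e => e.elim (fun e => hdx e.symm) hx
    rw [Set.insert_comm] at hG'
    have i := ih (insert d Y) hxd hG'
    have hP := EI_pos (G := G) (U := U) hq hq1 hd
    have hP2 := EI_pos (G := G) (U := U) hq hq1 hxd
    set g : Set V → ℝ := fun X => ind (x ∈ X) with hgdef
    have hg : Monotone g := fun a b hab => ind_mono fun h => hab h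
    have c := csh (G := G) (U := U) hq hq1 o (D.length + 2) d Y (x :: D) g (by simp) hdY
      ⟨hxd, hG'⟩ hg
    have hgx : ∀ ω, g (O G {d} ω) = ind (R G ω d x) := by
      intro ω
      refine ind_congr ⟨fun h => Rs_singleton.1 h.2, fun h => ⟨?_, Rs_singleton.2 h⟩⟩
      exact (h.cases.resolve_left hdx).2
    have e1 : ∀ u, Ex U q (I G x Y u) = Ex U q (I G x (insert d Y) u) +
        Ex U q (fun ω => g (O G {d} ω) * I G d Y u ω) := by
      intro u
      rw [← Ex_add]
      refine Ex_congr q fun ω _ => ?_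
      rw [hgx]
      unfold I
      rw [← ind_and, Rs_insert]
      by_cases h : R G ω d x
      · rw [ind_neg (P := _ ∧ ¬ (_ ∨ _)) (fun e => e.2 (Or.inl h)), zero_add]
        exact ind_congr ⟨fun e => ⟨h, h.trans e.1, fun e' => e.2 (e'.trans h)⟩,
          fun e => ⟨h.symm.trans e.2.1, fun e' => e.2.2 (e'.trans h.symm)⟩⟩
      · rw [ind_neg (P := R G ω d x ∧ _) (fun e => h e.1), add_zero]
        exact ind_congr (by tauto)
    have e2 : ∀ u, Ex U q (I G d Y u) = Ex U q (I G d (insert x Y) u) +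
        Ex U q (fun ω => g (O G {d} ω) * I G d Y u ω) := by
      intro u
      rw [← Ex_add]
      refine Ex_congr q fun ω _ => ?_
      rw [hgx]
      unfold I
      rw [← ind_and, Rs_insert]
      by_cases h : R G ω d x
      · rw [ind_neg (P := _ ∧ ¬ (_ ∨ _)) (fun e => e.2 (Or.inl h.symm)), zero_add]
        exact ind_congr (by tauto)
      · rw [ind_neg (P := R G ω d x ∧ _) (fun e => h e.1), add_zero]
        have : ¬ R G ω x d := fun e => h e.symm
        exact ind_congr (by tauto)
    have e3 : Ex U q (I G x Y d) = Ex U q (fun ω => g (O G {d} ω) * I G d Y d ω) := by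
      refine Ex_congr q fun ω _ => ?_
      rw [hgx]
      unfold I
      rw [← ind_and]
      exact ind_congr ⟨fun e => ⟨e.1.symm, R.refl _ _, fun e' => e.2 (e'.trans e.1.symm)⟩,
        fun e => ⟨e.1.symm, fun e' => e.2.2 (e'.trans e.1.symm)⟩⟩
    have e4 : Ex U q (fun ω => g (O G {d} ω) * I G d Y x ω) = Ex U q (I G d Y x) := by
      refine Ex_congr q fun ω _ => ?_
      rw [hgx]
      unfold I
      rw [← ind_and]
      exact ind_congr (by tauto)
    have e5 : 0 ≤ cov G U q d Y g x := by
      unfold cov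
      rw [e4, ← sub_mul]
      refine mul_nonneg (sub_nonneg.2 (Ex_mono U hq fun ω => ?_)) (EI_nonneg hq _ _ _)
      exact mul_le_of_le_one_left (I_nonneg _ _ _ _) (ind_le_one _)
    have e : (fun u => Ex U q (I G x Y u) - cc G U q (insert x Y) d u * Ex U q (I G x Y d)) =
        fun u => Ex U q (I G x (insert d Y) u) +
          (Ex U q (I G d (insert x Y) d))⁻¹ * cov G U q d Y g u := by
      ext u
      rw [e1 u, e3]
      unfold cc cov
      rw [e2 u, e2 d]
      field_simp
      ring
    have e' : cov G U q d Y g = fun u => (cov G U q d Y g u - cc G U q (insert d Y) x u *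
        cov G U q d Y g x) + (cov G U q d Y g x * (Ex U q (I G x (insert d Y) x))⁻¹) *
          Ex U q (I G x (insert d Y) u) := by
      ext u
      unfold cc
      field_simp
      ring
    simp only [L] at c ⊢
    rw [e, L_add, L_mul, Set.insert_comm, e', L_add, L_mul]
    exact add_nonneg i (mul_nonneg (inv_nonneg.2 hP.le)
      (add_nonneg c (mul_nonneg (mul_nonneg e5 (inv_nonneg.2 hP2.le)) i)))

omit [DecidableEq V] in
theorem O_congr {ω : Set V} {x u : V} (h : R G ω x u) : O G {u} ω = O G {x} ω := by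
  ext v
  simp only [O, Set.mem_ofPred_eq, Rs_singleton]
  exact ⟨fun e => ⟨e.1, h.trans e.2⟩, fun e => ⟨e.1, h.symm.trans e.2⟩⟩

theorem sur (hq : Ok q) (hq1 : ∀ v, q v < 1) (o : V) {F : Set V → ℝ} (hF : Monotone F) (m : ℝ)
    (A : Finset V) (hA : ∀ a ∈ A, m ≤ Ex U q (fun ω => F (O G {a} ω))) (D : List V)
    (hG : Good (↑A : Set V) D) :
    0 ≤ L G U q o ↑A D (fun u => Ex U q (fun ω => (F (O G {u} ω) - m) * ind (Rs G ω ↑A u))) := by
  induction A using Finset.induction_on generalizing D with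
  | empty =>
    have : (fun u => Ex U q (fun ω => (F (O G {u} ω) - m) * ind (Rs G ω (↑(∅ : Finset V)) u))) =
        fun u => 0 * (0 : V → ℝ) u := by
      ext u
      rw [zero_mul, ← Ex_const U q 0]
      exact Ex_congr q fun ω _ => by rw [ind_neg (by simp [Rs]), mul_zero]
    rw [this, L_mul, zero_mul]
  | insert x A hx ih =>
    rw [coe_insert] at hG ⊢
    have hx' : x ∉ (↑A : Set V) := hx
    have i := ih (fun a ha => hA a (mem_insert_of_mem ha)) (x :: D) ⟨hx', hG⟩
    have hP := EI_pos (G := G) (U := U) hq hq1 hx'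
    have c := csh (G := G) (U := U) hq hq1 o (D.length + 1) x ↑A D F (by simp) hx' hG hF
    have l := L_EI (G := G) (U := U) hq hq1 o D x ↑A hx' hG
    have e1 : ∀ u, Ex U q (fun ω => (F (O G {u} ω) - m) * ind (Rs G ω (insert x ↑A) u)) =
        Ex U q (fun ω => (F (O G {u} ω) - m) * ind (Rs G ω ↑A u)) +
          (Ex U q (fun ω => F (O G {x} ω) * I G x ↑A u ω) - m * Ex U q (I G x ↑A u)) := by
      intro u
      rw [← Ex_mul_left, ← Ex_sub, ← Ex_add]
      refine Ex_congr q fun ω _ => ?_
      unfold I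
      rw [Rs_insert]
      by_cases h : Rs G ω ↑A u
      · rw [ind_pos (Or.inr h), ind_pos h, ind_neg (fun e => e.2 (h.trans e.1.symm))]; ring
      · by_cases h' : R G ω x u
        · rw [ind_pos (Or.inl h'), ind_neg h, ind_pos ⟨h', fun e => h (e.trans h')⟩, O_congr h']
          ring
        · rw [ind_neg (fun e => e.elim h' h), ind_neg h, ind_neg (fun e => h' e.1)]; ring
    have e2 : Ex U q (fun ω => (F (O G {x} ω) - m) * ind (Rs G ω (insert x ↑A) x)) =
        Ex U q (fun ω => F (O G {x} ω)) - m := by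
      rw [← Ex_const U q m, ← Ex_sub, Ex_const]
      exact Ex_congr q fun ω _ => by rw [ind_pos (Rs_of_mem (Set.mem_insert _ _)), mul_one]
    have hm := sub_nonneg.2 (hA x (mem_insert_self x A))
    rw [← e2, e1] at hm
    have e : (fun u => Ex U q (fun ω => (F (O G {u} ω) - m) * ind (Rs G ω (insert x ↑A) u))) =
        fun u => (Ex U q (fun ω => (F (O G {u} ω) - m) * ind (Rs G ω ↑A u)) -
          cc G U q ↑A x u * Ex U q (fun ω => (F (O G {x} ω) - m) * ind (Rs G ω ↑A x))) +
          ((Ex U q (I G x ↑A x))⁻¹ * cov G U q x ↑A F u +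
            ((Ex U q (fun ω => (F (O G {x} ω) - m) * ind (Rs G ω ↑A x)) +
          (Ex U q (fun ω => F (O G {x} ω) * I G x ↑A x ω) - m * Ex U q (I G x ↑A x))) *
            (Ex U q (I G x ↑A x))⁻¹) * Ex U q (I G x ↑A u)) := by
      ext u
      rw [e1 u]
      unfold cc cov
      field_simp
      ring
    simp only [L] at i
    rw [e, L_add, L_add, L_mul, L_mul]
    exact add_nonneg i (add_nonneg (mul_nonneg (inv_nonneg.2 hP.le) c)
      (mul_nonneg (mul_nonneg hm (inv_nonneg.2 hP.le)) l))

theorem glue_lt (hq : Ok q) (hq1 : ∀ v, q v < 1) (o : V) (T : Set V) (A : Finset V) {δ : ℝ}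
    (hδ : 0 ≤ δ) (hA : ∀ a ∈ A, Ex U q (fun ω => ind (∀ t ∈ T, t ∉ O G {a} ω)) ≤ δ) :
    Ex U q (fun ω => ind (Rs G ω ↑A o ∧ ∀ t ∈ T, t ∉ O G {o} ω)) ≤ δ := by
  have h := sur (G := G) (U := U) hq hq1 o (F := fun X => - ind (∀ t ∈ T, t ∉ X))
    (fun a b hab => neg_le_neg (ind_mono fun h t ht e => h t ht (hab e))) (-δ) A
    (fun a ha => by
      have := hA a ha
      have e : (fun ω => - ind (∀ t ∈ T, t ∉ O G {a} ω)) =
        fun ω => (-1) * ind (∀ t ∈ T, t ∉ O G {a} ω) := by ext; ring
      rw [e, Ex_mul_left]; linarith) [] trivial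
  simp only [L] at h
  have e : (fun ω => (- ind (∀ t ∈ T, t ∉ O G {o} ω) - -δ) * ind (Rs G ω ↑A o)) =
      fun ω => δ * ind (Rs G ω ↑A o) - ind (Rs G ω ↑A o ∧ ∀ t ∈ T, t ∉ O G {o} ω) := by
    ext ω; rw [ind_and]; ring
  rw [e, Ex_sub, Ex_mul_left] at h
  have := mul_le_mul_of_nonneg_left
    (Ex_le_const U hq (F := fun ω => ind (Rs G ω ↑A o)) fun _ => ind_le_one _) hδ
  linarith

/-- The gluing inequality for site percolation. -/
theorem glue (hq : Ok q) (o : V) (T : Set V) (A : Finset V) {δ : ℝ}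
    (hδ : 0 ≤ δ) (hA : ∀ a ∈ A, Ex U q (fun ω => ind (∀ t ∈ T, t ∉ O G {a} ω)) ≤ δ) :
    Ex U q (fun ω => ind (Rs G ω ↑A o ∧ ∀ t ∈ T, t ∉ O G {o} ω)) ≤ δ := by
  refine le_of_forall_pos_le_add fun ε hε => ?_
  have hc : ∀ F : Set V → ℝ,
      Tendsto (fun t : ℝ => Ex U (fun v => t * q v) F) (𝓝[<] 1) (𝓝 (Ex U q F)) := by
    intro F
    have := (Ex_continuous U (fun t v => t * q v)
      (fun v => continuous_id.mul continuous_const) F).tendsto 1
    simp only [one_mul] at this
    exact this.mono_left nhdsWithin_le_nhds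
  refine le_of_tendsto (hc _) ?_
  have h1 : ∀ᶠ t : ℝ in 𝓝[<] 1, ∀ a ∈ A,
      Ex U (fun v => t * q v) (fun ω => ind (∀ t ∈ T, t ∉ O G {a} ω)) < δ + ε := by
    rw [eventually_all_finset]
    intro a ha
    exact (hc _).eventually (gt_mem_nhds (by linarith [hA a ha]))
  have h2 : ∀ᶠ t : ℝ in 𝓝[<] 1, t ∈ Set.Ioo (0 : ℝ) 1 := Ioo_mem_nhdsLT zero_lt_one
  filter_upwards [h1, h2] with t h1 h2
  refine glue_lt (fun v => ⟨mul_nonneg h2.1.le (hq v).1, ?_⟩) (fun v => ?_) o T A (by linarith)
    (fun a ha => (h1 a ha).le)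
  · exact mul_le_one₀ h2.2.le (hq v).1 (hq v).2
  · have := (hq v).1
    have := (hq v).2
    nlinarith [h2.1, h2.2]

end Pool.Agent.H913Z.Perc
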