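import Pool.Agent.H913Z.Perc.Geo3

/-! From finite sums to the infinite product measure. -/

namespace Pool.Agent.H913Z.Perc
open Finset MeasureTheory ProbabilityTheory unitInterval

theorem cyl_real {V : Type*} [DecidableEq V] (p : I) (W s : Finset V) :
    (setBernoulli Set.univ p).real {ω : Set V | ∀ i ∈ W, (i ∈ ω ↔ i ∈ s)} =
      wt W (fun _ => (p : ℝ)) s := by
  rw [measureReal_def, setBernoulli_apply']
  have e : (fun P : V → Prop => {i | P i}) ⁻¹' {ω : Set V | ∀ i ∈ W, (i ∈ ω ↔ i ∈ s)} =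
      Set.pi ↑W (fun i => {i ∈ s}) := by
    ext P
    simp [Set.mem_pi]
  rw [e, Measure.infinitePi_pi _ (fun _ _ => MeasurableSet.of_discrete), ENNReal.toReal_prod]
  unfold wt
  refine prod_congr rfl fun i _ => ?_
  by_cases h : i ∈ s
  · simp [h]
  · simp [h]

theorem local_real {V : Type*} [DecidableEq V] (p : I) (W : Finset V) (P : Set V → Prop) :
    (setBernoulli Set.univ p).real {ω : Set V | P (ω ∩ ↑W)} =
      Ex W (fun _ => (p : ℝ)) (fun ω => ind (P ω)) := by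
  classical
  have e : {ω : Set V | P (ω ∩ ↑W)} =
      ⋃ s ∈ W.powerset.filter (fun s : Finset V => P ↑s), {ω : Set V | ∀ i ∈ W, (i ∈ ω ↔ i ∈ s)} := by
    ext ω
    simp only [Set.mem_ofPred_eq, Set.mem_iUnion, mem_filter, mem_powerset]
    constructor
    · intro h
      refine ⟨W.filter (· ∈ ω), ⟨filter_subset _ _, ?_⟩, fun i hi => by simp [hi]⟩
      convert h using 1
      ext v; simp [and_comm]
    · rintro ⟨s, ⟨hs, h⟩, h'⟩
      convert h using 1
      ext v
      exact ⟨fun e => (h' v e.2).1 e.1, fun e => ⟨(h' v (hs e)).2 e, hs e⟩⟩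
  rw [e, measureReal_biUnion_finset]
  · simp only [cyl_real]
    unfold Ex
    rw [sum_filter]
    refine sum_congr rfl fun s _ => ?_
    split_ifs with h
    · simp only [ind_pos h, mul_one]
    · simp only [ind_neg h, mul_zero]
  · intro s hs t ht hne
    rw [Function.onFun, Set.disjoint_left]
    intro ω h1 h2
    apply hne
    have hs' := mem_powerset.1 (mem_filter.1 hs).1
    have ht' := mem_powerset.1 (mem_filter.1 ht).1
    ext v
    exact ⟨fun e => (h2 v (hs' e)).1 ((h1 v (hs' e)).2 e),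
      fun e => (h1 v (ht' e)).1 ((h2 v (ht' e)).2 e)⟩
  · intro s _
    have : {ω : Set V | ∀ i ∈ W, (i ∈ ω ↔ i ∈ s)} = ⋂ i ∈ W, {ω : Set V | i ∈ ω ↔ i ∈ s} := by
      ext ω; simp
    rw [this]
    refine W.measurableSet_biInter fun i _ => ?_
    by_cases h : i ∈ s
    · simpa [h] using measurableSet_mem i
    · simpa [h] using measurableSet_notMem i

variable {d : ℕ}

theorem inf_le_th (p : I) (v : Fin d → ℤ) (i0 : Fin d) (k : ℕ) :
    (setBernoulli Set.univ p).real {ω | (O (zd d) {v} ω).Infinite} ≤ th d p 0 k := by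
  set e := symE v i0 i0 (fun _ => true) with he
  have hS : ∀ a, e a ∈ ({v} : Set (Fin d → ℤ)) ↔ a ∈ ({0} : Set (Fin d → ℤ)) := fun a => by
    rw [← cube_zero, ← cube_zero]; exact symE_cube v i0 i0 _ a 0
  have hO := O_equiv e (symE_adj v i0 i0 _) hS
  have e1 : cube v k = (cube 0 k).image e := by
    ext x
    obtain ⟨y, rfl⟩ := e.surjective x
    rw [symE_cube, e.injective.mem_finset_image]
  have h := local_real p (cube v k) (fun ρ => ∃ t ∈ sph d k, e t ∈ O (zd d) {v} ρ)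
  have h2 : Ex (cube v k) (fun _ => (p : ℝ))
      (fun ρ => ind (∃ t ∈ sph d k, e t ∈ O (zd d) {v} ρ)) = th d p 0 k := by
    unfold th
    rw [e1, Ex_equiv, cube_zero]
    simp only [hO]
  rw [← h2, ← h]
  refine measureReal_mono fun ω hω => ?_
  obtain ⟨y, hy, hy'⟩ := Set.Infinite.exists_notMem_finset hω (cube v k)
  obtain ⟨x, rfl⟩ := e.surjective y
  obtain ⟨ω', rfl⟩ := e.surjective.image_surjective ω
  rw [hO] at hy
  rw [symE_cube, mem_cube, not_forall] at hy'
  obtain ⟨i, hi⟩ := hy'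
  simp only [Pi.zero_apply] at hi
  obtain ⟨s, hs, hs'⟩ := reach_sph (k := k) hy ⟨i, by omega⟩
  refine ⟨s, hs, O_mono ?_ le_rfl ((hO _ _).2 hs')⟩
  rintro _ ⟨a, ha, rfl⟩
  exact ⟨⟨a, ha.1, rfl⟩, (symE_cube v i0 i0 _ a k).2 ha.2⟩

theorem le_inf_of_th (p : I) {c : ℝ} (h : ∀ k, c ≤ th d p 0 k) :
    c ≤ (setBernoulli Set.univ p).real {ω | (O (zd d) {(0 : Fin d → ℤ)} ω).Infinite} := by
  set μ := setBernoulli (Set.univ : Set (Fin d → ℤ)) p
  let A : ℕ → Set (Set (Fin d → ℤ)) := fun k =>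
    {ω | ¬ ∃ t ∈ sph d k, t ∈ O (zd d) {0} (ω ∩ ↑(cube (0 : Fin d → ℤ) k))}
  have hA : ∀ k, μ.real (A k) = 1 - th d p 0 k := by
    intro k
    have := local_real p (cube (0 : Fin d → ℤ) k) (fun ρ => ¬ ∃ t ∈ sph d k, t ∈ O (zd d) {0} ρ)
    simp only [ind_not, Ex_sub, Ex_const] at this
    unfold th
    rw [cube_zero]
    exact this
  have hm : Monotone A := by
    intro a b hab ω hω
    rintro ⟨t, ht, ht'⟩
    obtain ⟨i, hi⟩ := ht.2
    exact hω (reach_sph (O_mono Set.inter_subset_left le_rfl ht') ⟨i, by omega⟩)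
  have hU : μ (⋃ k, A k) ≤ ENNReal.ofReal (1 - c) := by
    rw [hm.measure_iUnion]
    refine iSup_le fun k => ?_
    rw [← ENNReal.ofReal_toReal (measure_ne_top μ (A k))]
    refine ENNReal.ofReal_le_ofReal ?_
    rw [← measureReal_def, hA]
    linarith [h k]
  have hc : 0 ≤ 1 - c := by
    have := h 0
    have : 0 ≤ μ.real (A 0) := measureReal_nonneg
    rw [hA] at this
    linarith
  have hU' : μ.real (⋃ k, A k) ≤ 1 - c := ENNReal.toReal_le_of_le_ofReal hc hU
  have hcov : (Set.univ : Set (Set (Fin d → ℤ))) ⊆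
      {ω | (O (zd d) {(0 : Fin d → ℤ)} ω).Infinite} ∪ ⋃ k, A k := by
    intro ω _
    by_cases hf : (O (zd d) {(0 : Fin d → ℤ)} ω).Infinite
    · exact Or.inl hf
    · right
      obtain ⟨M, hM⟩ := ((Set.not_infinite.1 hf).image fun x => ∑ i, (x i).natAbs).bddAbove
      refine Set.mem_iUnion.2 ⟨M + 1, ?_⟩
      rintro ⟨t, ht, ht'⟩
      obtain ⟨i, hi⟩ := ht.2
      have h1 := hM ⟨t, O_mono Set.inter_subset_left le_rfl ht', rfl⟩
      have h2 := single_le_sum (f := fun i => (t i).natAbs) (s := univ) (fun _ _ => Nat.zero_le _)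
        (mem_univ i)
      simp only at h1
      omega
  have h1 := (measureReal_mono (μ := μ) hcov).trans (measureReal_union_le _ _)
  rw [probReal_univ] at h1
  linarith

theorem th_mono {p p' : ℝ} (h0 : 0 ≤ p) (h : p ≤ p') (h1 : p' ≤ 1) (m l : ℕ) :
    th d p m l ≤ th d p' m l :=
  Ex_mono_q _ (ok_const h0 (h.trans h1)) (ok_const (h0.trans h) h1) (fun _ => h)
    fun _ _ hab => ind_mono fun ⟨t, ht, ht'⟩ => ⟨t, ht, O_mono hab le_rfl ht'⟩

theorem th_zero_le (p : ℝ) (h0 : 0 ≤ p) (h1 : p ≤ 1) : th d p 0 0 ≤ p := by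
  have h := Ex_mem (U := cube (0 : Fin d → ℤ) 0) (fun _ => p) (v := 0) (mem_cube.2 fun i => by simp)
  refine le_trans ?_ h.le
  unfold th
  refine Ex_mono _ (ok_const h0 h1) fun ω => ind_mono ?_
  rintro ⟨t, ht, ht'⟩
  have : t ∈ ({0} : Set (Fin d → ℤ)) := cube_zero (0 : Fin d → ℤ) ▸ ht.1
  exact this ▸ ht'.1

/-- No infinite cluster at the critical point. -/
theorem critical (hd : 2 ≤ d) (v : Fin d → ℤ) :
    setBernoulli Set.univ (sSup {p : I | setBernoulli Set.univ p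
      {ω | (O (zd d) {(0 : Fin d → ℤ)} ω).Infinite} = 0}) {ω | (O (zd d) {v} ω).Infinite} = 0 := by
  set pc := sSup {p : I | setBernoulli Set.univ p
      {ω | (O (zd d) {(0 : Fin d → ℤ)} ω).Infinite} = 0} with hpc
  by_contra hne
  let i0 : Fin d := ⟨0, by omega⟩
  let i1 : Fin d := ⟨1, by omega⟩
  have h01 : i1 ≠ i0 := fun e => by simpa [i0, i1] using congrArg Fin.val e
  have hc : 0 < (setBernoulli Set.univ pc).real {ω | (O (zd d) {v} ω).Infinite} :=
    ENNReal.toReal_pos hne (measure_ne_top _ _)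
  have hk := inf_le_th pc v i0
  have h0 : (0 : ℝ) < pc := hc.trans_le ((hk 0).trans (th_zero_le _ pc.2.1 pc.2.2))
  obtain ⟨p', a0, a1, c', b0, b1⟩ : ∃ p' : ℝ, 0 ≤ p' ∧ p' < pc ∧ ∃ c' : ℝ, 0 < c' ∧
      ∀ K, c' ≤ th d p' 0 K := by
    rcases pc.2.2.eq_or_lt with e | e
    · have e : (pc : ℝ) = 1 := e
      rw [e]
      exact perc_near_one h01
    · exact perc_below h0 e hc hk h01
  have : pc ≤ ⟨p', a0, a1.le.trans pc.2.2⟩ := by
    refine sSup_le fun p hp => ?_
    by_contra hlt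
    have hlt : p' ≤ (p : ℝ) := (not_le.1 hlt).le
    have := le_inf_of_th (d := d) p (c := c') fun k => (b1 k).trans (th_mono a0 hlt p.2.2 0 k)
    rw [measureReal_def, hp] at this
    simp at this
    linarith
  exact absurd (show (pc : ℝ) ≤ p' from this) (not_le.2 a1)

end Pool.Agent.H913Z.Perc
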