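import Pool.Agent.H913Z.Perc.Glue2

/-! The target lemma. -/

namespace Pool.Agent.H913Z.Perc
open Finset

variable {V : Type*} [DecidableEq V] {G : SimpleGraph V} {U : Finset V} {q : V → ℝ}

open Classical in
variable (G) in
/-- sites of `B` touched from outside by the cluster of `o` -/
noncomputable def KK (o : V) (B : Finset V) (ω : Set V) : Finset V :=
  B.filter (fun z => ∃ y ∈ O G {o} (ω \ ↑B), G.Adj y z)

omit [DecidableEq V] in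
theorem mem_KK {o : V} {B : Finset V} {ω : Set V} {z : V} :
    z ∈ KK G o B ω ↔ z ∈ B ∧ ∃ y ∈ O G {o} (ω \ ↑B), G.Adj y z := by
  simp [KK]

omit [DecidableEq V] in
theorem KK_sp (o : V) (B : Finset V) (ω ω' : Set V) :
    KK G o B (sp (↑B)ᶜ ω ω') = KK G o B ω := by
  have : sp (↑B)ᶜ ω ω' \ ↑B = ω \ ↑B := by
    ext v; simp only [mem_sp, Set.mem_sdiff, Set.mem_compl_iff]; tauto
  unfold KK
  rw [this]

omit [DecidableEq V] in
theorem exists_KK {o : V} {B : Finset V} (ho : o ∉ B) {ω : Set V} {b : V} (hb : b ∈ B)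
    (h : b ∈ O G {o} ω) : ∃ y ∈ KK G o B ω, y ∈ ω := by
  rcases R_exit (W := (↑B)ᶜ) ho (Rs_singleton.1 h.2) with h | ⟨z, y, h1, h2, h3, h4, h5, h6⟩
  · exact absurd hb h.1
  · exact ⟨y, mem_KK.2 ⟨not_not.1 h6, z, ⟨⟨h2, h3⟩, Rs_singleton.2 h1⟩, h4⟩, h5⟩

theorem die {o : V} {B B' : Finset V} (hq : Ok q) (ho : o ∉ B) (hBU : B ⊆ U) {p : ℝ}
    (hp1 : p ≤ 1) (hp0 : 0 ≤ p)
    (hp : ∀ v ∈ B, q v = p) (hB' : ∀ z ∈ B, ∀ y, G.Adj y z → y ∈ B') (N : ℕ) :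
    Ex U q (fun ω => ind ((KK G o B ω).Nonempty ∧ (KK G o B ω).card ≤ N)) * (1 - p) ^ N ≤
      Ex U q (fun ω => ind ((∀ b ∈ B, b ∉ O G {o} ω) ∧ ∃ b ∈ B', b ∈ O G {o} ω)) := by
  rw [splice_const U q (↑B)ᶜ (fun ω => ind ((∀ b ∈ B, b ∉ O G {o} ω) ∧ _)), ← Ex_mul_right]
  refine Ex_mono U hq fun ω => ?_
  by_cases h : (KK G o B ω).Nonempty ∧ (KK G o B ω).card ≤ N
  · rw [ind_pos h, one_mul]
    have hK : KK G o B ω ⊆ B := fun z hz => (mem_KK.1 hz).1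
    have h1 := Ex_all_closed (hK.trans hBU) q
    rw [prod_congr rfl (fun v hv => by rw [hp v (hK hv)]), prod_const] at h1
    refine (pow_le_pow_of_le_one (by linarith) (by linarith) h.2).trans (h1.symm.le.trans ?_)
    refine Ex_mono U hq fun ω' => ind_mono fun hc => ⟨fun b hb hO => ?_, ?_⟩
    · obtain ⟨y, hy, hy'⟩ := exists_KK ho hb hO
      rw [KK_sp] at hy
      rcases hy' with e | e
      · exact e.2 (hK hy)
      · exact hc y hy e.1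
    · obtain ⟨z, hz⟩ := h.1
      obtain ⟨hz, y, hy, a⟩ := mem_KK.1 hz
      exact ⟨y, hB' z hz y a, O_mono (fun v hv => Or.inl hv) le_rfl hy⟩
  · rw [ind_neg h, zero_mul]
    exact Ex_nonneg U hq fun _ => ind_nonneg _

theorem good_level {o : V} (hq : Ok q) (B : ℕ → Finset V) (J : ℕ) (hm : Monotone B)
    (hB' : ∀ j, ∀ z ∈ B j, ∀ y, G.Adj y z → y ∈ B (j + 1))
    (ho : ∀ j < J, o ∉ B j) (hBU : ∀ j < J, B j ⊆ U) {p : ℝ} (hp1 : p < 1) (hp0 : 0 ≤ p)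
    (hp : ∀ j < J, ∀ v ∈ B j, q v = p) (N : ℕ) {δ : ℝ} (hJ : 1 ≤ δ * J * (1 - p) ^ N) :
    ∃ j < J, Ex U q (fun ω => ind ((KK G o (B j) ω).Nonempty ∧ (KK G o (B j) ω).card ≤ N)) ≤ δ := by
  have hpos : 0 < (1 - p) ^ N := pow_pos (by linarith) N
  have hsum : ∀ ω : Set V, ∀ n : ℕ, ∑ j ∈ range n,
      ind ((∀ b ∈ B j, b ∉ O G {o} ω) ∧ ∃ b ∈ B (j + 1), b ∈ O G {o} ω) ≤
        ind (∃ b ∈ B n, b ∈ O G {o} ω) := by
    intro ω n
    induction n with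
    | zero => simpa using ind_nonneg _
    | succ n ih =>
      rw [sum_range_succ]
      by_cases h : ∃ b ∈ B n, b ∈ O G {o} ω
      · obtain ⟨b, hb, hb'⟩ := h
        rw [ind_neg (P := (∀ b ∈ B n, b ∉ O G {o} ω) ∧ ∃ b ∈ B (n + 1), b ∈ O G {o} ω)
          (fun e => e.1 b hb hb'),
          ind_pos (P := ∃ b ∈ B (n + 1), _) ⟨b, hm (Nat.le_succ n) hb, hb'⟩]
        linarith [ind_le_one (∃ b ∈ B n, b ∈ O G {o} ω)]
      · rw [ind_neg h] at ih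
        linarith [ind_mono (P := (∀ b ∈ B n, b ∉ O G {o} ω) ∧ ∃ b ∈ B (n + 1), b ∈ O G {o} ω)
          (fun e => e.2)]
  have hJ0 : (range J).Nonempty := by
    rcases J with _ | J
    · norm_num at hJ
    · exact ⟨0, by simp⟩
  have h : ∑ j ∈ range J, Ex U q (fun ω => ind ((KK G o (B j) ω).Nonempty ∧
      (KK G o (B j) ω).card ≤ N)) * (1 - p) ^ N ≤ ∑ j ∈ range J, δ * (1 - p) ^ N := by
    refine (sum_le_sum fun j hj => die (B' := B (j + 1)) hq (ho j (mem_range.1 hj))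
      (hBU j (mem_range.1 hj)) hp1.le hp0 (hp j (mem_range.1 hj)) (hB' j) N).trans ?_
    rw [← Ex_sum]
    refine (Ex_le_const U hq fun ω => (hsum ω J).trans (ind_le_one _)).trans ?_
    rw [sum_const, card_range, nsmul_eq_mul]
    linarith
  obtain ⟨j, hj, h⟩ := exists_le_of_sum_le hJ0 h
  exact ⟨j, mem_range.1 hj, le_of_mul_le_mul_right h hpos⟩

theorem seeds_fail (seed : V → Finset V) (x : ℝ) (Z : Finset V)
    (hU : ∀ z ∈ Z, seed z ⊆ U) (hx : ∀ z ∈ Z, ∏ v ∈ seed z, q v = x)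
    (hd : ∀ z ∈ Z, ∀ z' ∈ Z, z ≠ z' → Disjoint (seed z) (seed z')) :
    Ex U q (fun ω => ind (∀ z ∈ Z, ¬ (↑(seed z) : Set V) ⊆ ω)) = (1 - x) ^ Z.card := by
  induction Z using Finset.induction_on with
  | empty => simp [ind_pos, Ex_const]
  | insert z Z hz ih =>
    rw [card_insert_of_notMem hz, pow_succ', ← ih (fun a ha => hU a (mem_insert_of_mem ha))
      (fun a ha => hx a (mem_insert_of_mem ha))
      (fun a ha b hb => hd a (mem_insert_of_mem ha) b (mem_insert_of_mem hb))]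
    have h := indep U q (↑(seed z)) (fun ω => 1 - ind ((↑(seed z) : Set V) ⊆ ω))
      (fun ω => ind (∀ z ∈ Z, ¬ (↑(seed z) : Set V) ⊆ ω))
    have e1 : ∀ ω : Set V, ((↑(seed z) : Set V) ⊆ ω ∩ ↑(seed z)) = (↑(seed z) ⊆ ω) := by
      intro ω; simp
    have e2 : ∀ ω : Set V, (∀ a ∈ Z, ¬ (↑(seed a) : Set V) ⊆ ω \ ↑(seed z)) =
        (∀ a ∈ Z, ¬ (↑(seed a) : Set V) ⊆ ω) := by
      intro ω
      refine propext (forall₂_congr fun a ha => not_congr ⟨fun h => h.trans Set.sdiff_subset,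
        fun h v hv => ⟨h hv, fun e => ?_⟩⟩)
      exact disjoint_left.1 (hd a (mem_insert_of_mem ha) z (mem_insert_self z Z)
        (fun e => hz (e ▸ ha))) hv e
    simp only [e1, e2] at h
    rw [Ex_sub, Ex_const, Ex_all_open (hU z (mem_insert_self z Z)),
      hx z (mem_insert_self z Z)] at h
    rw [← h]
    refine Ex_congr q fun ω _ => ?_
    rw [← ind_not, ← ind_and]
    exact ind_congr (by simp)

open Classical in
variable (G U q) in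
/-- sites of `B` likely to reach `T` given the configuration on `B` -/
noncomputable def AA (B : Finset V) (T : Set V) (δ : ℝ) (ξ : Set V) : Finset V :=
  B.filter (fun a => Ex U (pin q ↑B ξ) (fun ω => ind (∀ t ∈ T, t ∉ O G {a} ω)) ≤ δ)

theorem mem_AA {B : Finset V} {T : Set V} {δ : ℝ} {ξ : Set V} {a : V} :
    a ∈ AA G U q B T δ ξ ↔
      a ∈ B ∧ Ex U (pin q ↑B ξ) (fun ω => ind (∀ t ∈ T, t ∉ O G {a} ω)) ≤ δ := by
  simp [AA]

theorem AA_congr (B : Finset V) (T : Set V) (δ : ℝ) {ξ ξ' : Set V}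
    (h : ∀ v ∈ B, v ∈ ξ ↔ v ∈ ξ') : AA G U q B T δ ξ = AA G U q B T δ ξ' := by
  have : pin q ↑B ξ = pin q ↑B ξ' := by
    ext v
    unfold pin
    by_cases hv : v ∈ (↑B : Set V)
    · simp only [hv, if_true]
      rw [propext (h v hv)]
    · simp only [hv, if_false]
  unfold AA
  rw [this]

theorem Ex_pin' (S : Set V) (H : Set V → Set V → ℝ)
    (hH : ∀ ω ω' ρ, H (sp S ω ω') ρ = H ω ρ) :
    Ex U q (fun ω => H ω ω) = Ex U q (fun ω => Ex U (pin q S ω) (H ω)) := by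
  rw [splice_const U q S]
  refine Ex_congr q fun ω hω => ?_
  rw [Ex_pin, Set.inter_eq_left.2 hω]
  simp only [hH]

theorem tgt_a (hq : Ok q) (o : V) (B : Finset V) (T : Set V) {δ : ℝ} (hδ : 0 ≤ δ) :
    Ex U q (fun ω => ind (Rs G ω ↑(AA G U q B T δ ω) o ∧ ∀ t ∈ T, t ∉ O G {o} ω)) ≤ δ := by
  rw [Ex_pin' (↑B) (fun ξ ω => ind (Rs G ω ↑(AA G U q B T δ ξ) o ∧ ∀ t ∈ T, t ∉ O G {o} ω))
    (fun ω ω' ρ => by
      rw [AA_congr B T δ (ξ := sp ↑B ω ω') (ξ' := ω)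
        (fun v hv => by simp only [mem_sp, mem_coe]; tauto)])]
  exact Ex_le_const U hq fun ω =>
    glue (pin_ok hq _ _) o T _ hδ fun a ha => (mem_AA.1 ha).2

theorem tgt_b (hq : Ok q) (B : Finset V) (T : Set V) {δ δ' : ℝ} {z : V} (hz : z ∈ B)
    (S : Finset V) (hS : S ⊆ B) (hBU : B ⊆ U)
    (hc : ∀ ω : Set V, ↑S ⊆ ω → ∀ y ∈ S, R G ω z y)
    (hf : Ex U q (fun ω => ind (∀ t ∈ T, t ∉ O G ↑S ω)) ≤ δ') :
    δ * Ex U q (fun ω => ind (↑S ⊆ ω ∧ z ∉ AA G U q B T δ ω)) ≤ (∏ v ∈ S, q v) * δ' := by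
  have h1 := Ex_pin' (U := U) (q := q) (↑B)
    (fun ξ ω => ind (↑S ⊆ ξ) * ind (∀ t ∈ T, t ∉ O G {z} ω))
    (fun ω ω' ρ => by
      congr 1
      refine ind_congr ⟨fun h v hv => ?_, fun h v hv => Or.inl ⟨h hv, hS hv⟩⟩
      rcases h hv with e | e
      · exact e.1
      · exact absurd (hS hv) e.2)
  have h2 := harris_mixed U hq (F := fun ω => ind (↑S ⊆ ω))
    (G := fun ω => ind (∀ t ∈ T, t ∉ O G ↑S ω))
    (fun a b hab => ind_mono fun h => h.trans hab)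
    (fun a b hab => ind_mono fun h t ht e => h t ht (O_mono hab le_rfl e))
  rw [Ex_all_open (hS.trans hBU)] at h2
  have h3 : 0 ≤ ∏ v ∈ S, q v := prod_nonneg fun v _ => (hq v).1
  refine le_trans ?_ (h2.trans (mul_le_mul_of_nonneg_left hf h3))
  refine le_trans ?_ (Ex_mono U hq (F := fun ω => ind (↑S ⊆ ω) * ind (∀ t ∈ T, t ∉ O G {z} ω))
    fun ω => ?_)
  · rw [h1, ← Ex_mul_left]
    refine Ex_mono U hq fun ω => ?_
    rw [Ex_mul_left]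
    by_cases h : ↑S ⊆ ω ∧ z ∉ AA G U q B T δ ω
    · rw [ind_pos h, ind_pos h.1, mul_one, one_mul]
      exact (not_le.1 fun e => h.2 (mem_AA.2 ⟨hz, e⟩)).le
    · rw [ind_neg h, mul_zero]
      exact mul_nonneg (ind_nonneg _) (Ex_nonneg U (pin_ok hq _ _) fun _ => ind_nonneg _)
  · rw [← ind_and, ← ind_and]
    refine ind_mono fun h => ⟨h.1, fun t ht e => h.2 t ht ⟨e.1, ?_⟩⟩
    obtain ⟨s, hs, hr⟩ := e.2
    exact Rs_singleton.2 ((hc ω h.1 s hs).trans hr)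

theorem tgt_c {κ : Type*} [Fintype κ] (hq : Ok q) (o : V) (B : Finset V) (T : Set V)
    {δ δ' x : ℝ} (hδ : 0 < δ) (hBU : B ⊆ U) (seed : V → Finset V) (col : V → κ) (k : ℕ)
    (hS : ∀ z ∈ B, seed z ⊆ B) (hz : ∀ z ∈ B, z ∈ seed z)
    (hx : ∀ z ∈ B, ∏ v ∈ seed z, q v = x)
    (hc : ∀ z ∈ B, ∀ ω : Set V, ↑(seed z) ⊆ ω → ∀ y ∈ seed z, R G ω z y)
    (hf : ∀ z ∈ B, Ex U q (fun ω => ind (∀ t ∈ T, t ∉ O G ↑(seed z) ω)) ≤ δ')
    (hd : ∀ z ∈ B, ∀ z' ∈ B, z ≠ z' → col z = col z' → Disjoint (seed z) (seed z'))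
    (H1 : (1 - x) ^ k ≤ δ) (H2 : k * x * δ' ≤ δ ^ 2) :
    Ex U q (fun ω => ind (Fintype.card κ * k < (KK G o B ω).card ∧
      ∀ z ∈ KK G o B ω, ¬ (z ∈ ω ∧ z ∈ AA G U q B T δ ω))) ≤ 2 * δ := by
  classical
  rw [splice_const U q (↑B)ᶜ]
  refine Ex_le_const U hq fun ω => ?_
  simp only [KK_sp]
  by_cases h : Fintype.card κ * k < (KK G o B ω).card
  swap
  · exact Ex_le_const U hq fun ω' => by rw [ind_neg (fun e => h e.1)]; linarith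
  obtain ⟨c, -, hc'⟩ := exists_lt_card_fiber_of_mul_lt_card_of_maps_to
    (s := KK G o B ω) (t := univ) (f := col) (fun _ _ => mem_univ _) h
  obtain ⟨Z, hZ, hZc⟩ := exists_subset_card_eq hc'.le
  have hZK : ∀ z ∈ Z, z ∈ KK G o B ω := fun z hz => (mem_filter.1 (hZ hz)).1
  have hZB : ∀ z ∈ Z, z ∈ B := fun z hz => (mem_KK.1 (hZK z hz)).1
  have h1 := seeds_fail (U := U) (q := q) seed x Z (fun z hz => (hS z (hZB z hz)).trans hBU)
    (fun z hz => hx z (hZB z hz)) (fun z hz z' hz' hne => hd z (hZB z hz) z' (hZB z' hz') hne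
      ((mem_filter.1 (hZ hz)).2.trans (mem_filter.1 (hZ hz')).2.symm))
  have h2 : δ * ∑ z ∈ Z, Ex U q (fun ω => ind (↑(seed z) ⊆ ω ∧ z ∉ AA G U q B T δ ω)) ≤
      k * x * δ' := by
    rw [mul_sum]
    refine (sum_le_sum fun z hz => tgt_b hq B T (hZB z hz) (seed z) (hS z (hZB z hz)) hBU
      (hc z (hZB z hz)) (hf z (hZB z hz))).trans ?_
    rw [sum_congr rfl (fun z hz => by rw [hx z (hZB z hz)]), sum_const, hZc, nsmul_eq_mul]
    exact le_of_eq (by ring)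
  have h3 : ∑ z ∈ Z, Ex U q (fun ω => ind (↑(seed z) ⊆ ω ∧ z ∉ AA G U q B T δ ω)) ≤ δ := by
    refine le_of_mul_le_mul_left (h2.trans (H2.trans (le_of_eq (by ring)))) hδ
  rw [hZc] at h1
  refine le_trans (Ex_mono U hq (G := fun ω' => ind (∀ z ∈ Z, ¬ (↑(seed z) : Set V) ⊆ ω') +
    ∑ z ∈ Z, ind (↑(seed z) ⊆ ω' ∧ z ∉ AA G U q B T δ ω')) fun ω' => ?_) ?_
  · have hs : 0 ≤ ∑ z ∈ Z, ind (↑(seed z) ⊆ ω' ∧ z ∉ AA G U q B T δ ω') :=
      sum_nonneg fun _ _ => ind_nonneg _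
    by_cases h0 : ∀ z ∈ Z, ¬ (↑(seed z) : Set V) ⊆ ω'
    · rw [ind_pos h0]
      linarith [ind_le_one (Fintype.card κ * k < (KK G o B ω).card ∧ ∀ z ∈ KK G o B ω,
        ¬ (z ∈ sp (↑B)ᶜ ω ω' ∧ z ∈ AA G U q B T δ (sp (↑B)ᶜ ω ω')))]
    · rw [ind_neg h0, zero_add]
      push Not at h0
      obtain ⟨z, hzZ, hz'⟩ := h0
      refine le_trans (ind_mono fun e => ?_) (single_le_sum
        (f := fun z => ind (↑(seed z) ⊆ ω' ∧ z ∉ AA G U q B T δ ω'))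
        (fun _ _ => ind_nonneg _) hzZ)
      refine ⟨hz', fun hA => e.2 z (hZK z hzZ) ⟨Or.inr ⟨hz' (hz z (hZB z hzZ)), ?_⟩, ?_⟩⟩
      · exact fun e => e (hZB z hzZ)
      · rwa [AA_congr B T δ (ξ' := ω')
          (fun v hv => by simp only [mem_sp, Set.mem_compl_iff, mem_coe]; tauto)]
  · rw [Ex_add, Ex_sum, h1]
    linarith

/-- The target lemma. -/
theorem target {κ : Type*} [Fintype κ] (hq : Ok q) (o : V) (T : Set V) (B : ℕ → Finset V) (J : ℕ)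
    (hm : Monotone B) (hB' : ∀ j, ∀ z ∈ B j, ∀ y, G.Adj y z → y ∈ B (j + 1))
    (ho : ∀ j < J, o ∉ B j) (hBU : ∀ j < J, B j ⊆ U) {p : ℝ} (hp1 : p < 1) (hp0 : 0 ≤ p)
    (hp : ∀ j < J, ∀ v ∈ B j, q v = p) {δ δ' : ℝ} (hδ : 0 < δ)
    (seed : ℕ → V → Finset V) (col : V → κ) (k s : ℕ)
    (hS : ∀ j < J, ∀ z ∈ B j, seed j z ⊆ B j) (hz : ∀ j < J, ∀ z ∈ B j, z ∈ seed j z)
    (hx : ∀ j < J, ∀ z ∈ B j, (seed j z).card = s)
    (hc : ∀ j < J, ∀ z ∈ B j, ∀ ω : Set V, ↑(seed j z) ⊆ ω → ∀ y ∈ seed j z, R G ω z y)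
    (hf : ∀ j < J, ∀ z ∈ B j, Ex U q (fun ω => ind (∀ t ∈ T, t ∉ O G ↑(seed j z) ω)) ≤ δ')
    (hd : ∀ j < J, ∀ z ∈ B j, ∀ z' ∈ B j, z ≠ z' → col z = col z' →
      Disjoint (seed j z) (seed j z'))
    (H1 : (1 - p ^ s) ^ k ≤ δ) (H2 : k * p ^ s * δ' ≤ δ ^ 2)
    (H3 : 1 ≤ δ * J * (1 - p) ^ (Fintype.card κ * k)) :
    Ex U q (fun ω => ind ((∃ b ∈ B 0, b ∈ O G {o} ω) ∧ ∀ t ∈ T, t ∉ O G {o} ω)) ≤ 4 * δ := by
  obtain ⟨j, hj, h1⟩ := good_level hq B J hm hB' ho hBU hp1 hp0 hp _ H3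
  have h2 := tgt_a (G := G) (U := U) hq o (B j) T hδ.le
  have h3 := tgt_c hq o (B j) T hδ (hBU j hj) (seed j) col k (hS j hj) (hz j hj)
    (fun z hz => by
      rw [prod_congr rfl (fun v hv => hp j hj v (hS j hj z hz hv)), prod_const, hx j hj z hz])
    (hc j hj) (hf j hj) (hd j hj) H1 H2
  refine le_trans ?_ ((add_le_add (add_le_add h1 h2) h3).trans (le_of_eq (by ring)))
  rw [← Ex_add, ← Ex_add]
  refine Ex_mono U hq fun ω => ?_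
  by_cases h : (∃ b ∈ B 0, b ∈ O G {o} ω) ∧ ∀ t ∈ T, t ∉ O G {o} ω
  swap
  · rw [ind_neg h]
    exact add_nonneg (add_nonneg (ind_nonneg _) (ind_nonneg _)) (ind_nonneg _)
  rw [ind_pos h]
  obtain ⟨⟨b, hb, hb'⟩, hT⟩ := h
  obtain ⟨y, hy, -⟩ := exists_KK (ho j hj) (hm (Nat.zero_le j) hb) hb'
  have n1 := ind_nonneg ((KK G o (B j) ω).Nonempty ∧ (KK G o (B j) ω).card ≤ Fintype.card κ * k)
  have n2 := ind_nonneg (Rs G ω ↑(AA G U q (B j) T δ ω) o ∧ ∀ t ∈ T, t ∉ O G {o} ω)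
  have n3 := ind_nonneg (Fintype.card κ * k < (KK G o (B j) ω).card ∧
      ∀ z ∈ KK G o (B j) ω, ¬ (z ∈ ω ∧ z ∈ AA G U q (B j) T δ ω))
  by_cases c1 : (KK G o (B j) ω).card ≤ Fintype.card κ * k
  · rw [ind_pos (P := _ ∧ _ ≤ _) ⟨⟨y, hy⟩, c1⟩]; linarith
  · by_cases c2 : ∀ z ∈ KK G o (B j) ω, ¬ (z ∈ ω ∧ z ∈ AA G U q (B j) T δ ω)
    · rw [ind_pos (P := _ < _ ∧ _) ⟨not_le.1 c1, c2⟩]; linarith
    · push Not at c2
      obtain ⟨z, hz1, hz2, hz3⟩ := c2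
      obtain ⟨-, w, hw, a⟩ := mem_KK.1 hz1
      have : z ∈ O G {o} ω := O_step (O_mono Set.sdiff_subset le_rfl hw) a hz2
      rw [ind_pos (P := Rs G ω _ o ∧ _) ⟨⟨z, hz3, (Rs_singleton.1 this.2).symm⟩, hT⟩]
      linarith

end Pool.Agent.H913Z.Perc
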